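import Mathlib

/-! Finite partitions of unity into good central projections. -/

namespace Pool.Agent.Lib.MP_08bba9_an.W

open Filter

variable {M : Type*} [Ring M] [StarRing M]

/-- A finite partition of unity into central projections. -/
structure IsPart {ι : Type*} [Fintype ι] (c : ι → M) : Prop where
  proj : ∀ i, IsStarProjection (c i)
  cen : ∀ i x, c i * x = x * c i
  orth : ∀ i j, i ≠ j → c i * c j = 0
  sum : ∑ i, c i = 1

theorem ex_atoms (S : Finset M) : ∃ (ι : Type) (_ : Fintype ι) (c : ι → M), IsPart c ∧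
    ∀ z ∈ S, IsStarProjection z → (∀ x, z * x = x * z) → ∀ i, c i * z = c i ∨ c i * z = 0 := by
  classical
  induction S using Finset.induction_on with
  | empty =>
    exact ⟨Unit, inferInstance, fun _ => 1, ⟨fun _ => IsStarProjection.one M, by simp,
      fun i j h => (h rfl).elim, by simp⟩, by simp⟩
  | insert a S _ ih =>
    obtain ⟨ι, _, c, hc, h⟩ := ih
    by_cases ha : IsStarProjection a ∧ ∀ x, a * x = x * a
    · let p : Bool → M := fun b => if b then a else 1 - a
      have p1 : ∀ b, IsStarProjection (p b) := fun b => by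
        cases b
        · exact ha.1.one_sub
        · exact ha.1
      have p2 : ∀ b x, p b * x = x * p b := fun b x => by
        cases b <;> simp [p, sub_mul, mul_sub, ha.2 x]
      have aa : a * a = a := ha.1.isIdempotentElem.eq
      have p3 : ∀ b b', b ≠ b' → p b * p b' = 0 := fun b b' e => by
        cases b <;> cases b' <;> simp_all [p, sub_mul, mul_sub]
      have sw : ∀ i j b b', c i * p b * (c j * p b') = c i * c j * (p b * p b') := by
        intro i j b b'
        rw [mul_assoc, ← mul_assoc (p b), p2 b (c j), mul_assoc, mul_assoc]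
      refine ⟨ι × Bool, inferInstance, fun k => c k.1 * p k.2, ⟨fun k => ?_, fun k x => ?_,
        fun k l e => ?_, ?_⟩, fun z hz z1 z2 k => ?_⟩
      · exact (hc.proj _).mul (p1 _) (hc.cen _ _)
      · rw [mul_assoc, p2, ← mul_assoc, hc.cen, mul_assoc]
      · rw [sw]
        by_cases e1 : k.1 = l.1
        · rw [p3 _ _ fun e2 => e (Prod.ext e1 e2), mul_zero]
        · rw [hc.orth _ _ e1, zero_mul]
      · rw [Fintype.sum_prod_type, ← hc.sum]
        refine Finset.sum_congr rfl fun i _ => ?_
        simp [p, mul_sub]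
      · rcases Finset.mem_insert.1 hz with rfl | hz
        · obtain ⟨i, b⟩ := k
          cases b
          · right
            simp [p, mul_assoc, sub_mul, aa]
          · left
            simp [p, mul_assoc, aa]
        · have e : c k.1 * p k.2 * z = c k.1 * z * p k.2 := by
            rw [mul_assoc, p2, mul_assoc]
          rcases h z hz z1 z2 k.1 with h | h
          · left
            rw [e, h]
          · right
            rw [e, h, zero_mul]
    · refine ⟨ι, inferInstance, c, hc, fun z hz z1 z2 => ?_⟩
      rcases Finset.mem_insert.1 hz with rfl | hz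
      · exact (ha ⟨z1, z2⟩).elim
      · exact h z hz z1 z2

/-- An ultrafilter of central projections. -/
structure IsUltra (U : Set M) : Prop where
  proj : ∀ z ∈ U, IsStarProjection z
  cen : ∀ z ∈ U, ∀ x, z * x = x * z
  one : 1 ∈ U
  mul : ∀ z ∈ U, ∀ z' ∈ U, z * z' ∈ U
  zero : 0 ∉ U
  tot : ∀ z, IsStarProjection z → (∀ x, z * x = x * z) → z ∈ U ∨ 1 - z ∈ U

/-- If every ultrafilter of central projections has a good member and goodness is hereditary, then
there is a finite partition of unity into good central projections. -/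
theorem part (Good : M → Prop)
    (her : ∀ z c, IsStarProjection c → (∀ x, c * x = x * c) → c * z = c → Good z → Good c)
    (h : ∀ U : Set M, IsUltra U → ∃ z ∈ U, Good z) :
    ∃ (ι : Type) (_ : Fintype ι) (c : ι → M), IsPart c ∧ ∀ i, Good (c i) := by
  classical
  by_contra hn
  have e : ∀ S : Finset M, ∃ c : M, IsStarProjection c ∧ (∀ x, c * x = x * c) ∧ c ≠ 0 ∧
      ¬ Good c ∧
      ∀ z ∈ S, IsStarProjection z → (∀ x, z * x = x * z) → c * z = c ∨ c * z = 0 := fun S => by
    obtain ⟨ι, _, c, hc, h'⟩ := ex_atoms S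
    by_contra hS
    refine hn ⟨{i // c i ≠ 0}, inferInstance, fun i => c i, ⟨fun i => hc.proj i,
      fun i => hc.cen i, fun i j e => hc.orth _ _ fun e' => e (Subtype.ext e'), ?_⟩, fun i => ?_⟩
    · rw [← hc.sum, ← Finset.sum_subtype (Finset.univ.filter fun i => c i ≠ 0) (by simp) c,
        Finset.sum_filter_ne_zero]
    · by_contra hi
      exact hS ⟨c i, hc.proj i, hc.cen i, i.2, hi, fun z hz z1 z2 => h' z hz z1 z2 i⟩
  choose c c1 c2 c3 c4 c5 using e
  let V : Ultrafilter (Finset M) := Ultrafilter.of atTop
  obtain ⟨z, hz, g⟩ := h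
    {z | IsStarProjection z ∧ (∀ x, z * x = x * z) ∧ ∀ᶠ S in V, c S * z = c S}
    ⟨fun z hz => hz.1, fun z hz => hz.2.1, ⟨IsStarProjection.one M, by simp, by simp⟩,
      fun z hz z' hz' => ⟨hz.1.mul hz'.1 (hz.2.1 _), fun x => by
        rw [mul_assoc, hz'.2.1, ← mul_assoc, hz.2.1, mul_assoc], by
        filter_upwards [hz.2.2, hz'.2.2] with S h1 h2
        rw [← mul_assoc, h1, h2]⟩,
      fun h0 => by
        obtain ⟨S, hS⟩ := h0.2.2.exists
        exact c3 S (by rw [← hS, mul_zero]),
      fun z z1 z2 => by
        have m : ∀ᶠ S in V, c S * z = c S ∨ c S * z = 0 := by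
          filter_upwards [Ultrafilter.of_le atTop (mem_atTop ({z} : Finset M))] with S hS
          exact c5 S z (hS (Finset.mem_singleton_self z)) z1 z2
        rcases Ultrafilter.eventually_or.1 m with m | m
        · exact Or.inl ⟨z1, z2, m⟩
        · refine Or.inr ⟨z1.one_sub, fun x => by
            rw [sub_mul, mul_sub, z2, one_mul, mul_one], ?_⟩
          filter_upwards [m] with S hS
          rw [mul_sub, hS, mul_one, sub_zero]⟩
  obtain ⟨S, hS⟩ := hz.2.2.exists
  exact c4 S (her z _ (c1 S) (c2 S) hS g)

/-- The same with the partition indexed by `Fin k`. -/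
theorem part_fin (Good : M → Prop)
    (her : ∀ z c, IsStarProjection c → (∀ x, c * x = x * c) → c * z = c → Good z → Good c)
    (h : ∀ U : Set M, IsUltra U → ∃ z ∈ U, Good z) :
    ∃ (k : ℕ) (c : Fin k → M), IsPart c ∧ ∀ i, Good (c i) := by
  obtain ⟨ι, _, c, hc, g⟩ := part Good her h
  let e := (Fintype.equivFin ι).symm
  exact ⟨_, fun i => c (e i), ⟨fun i => hc.proj _, fun i => hc.cen _,
    fun i j ne => hc.orth _ _ fun e' => ne (e.injective e'), by rw [e.sum_comp c, hc.sum]⟩,
    fun i => g _⟩

end Pool.Agent.Lib.MP_08bba9_an.W
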