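import Pool.Agent.Lib.MP_08bba9_an.W.ExtA

/-! Maps that are strong star continuous on bounded sets. -/

set_option linter.unusedSectionVars false

noncomputable section

namespace Pool.Agent.Lib.MP_08bba9_an.W

open Filter Topology

variable {H : Type*} [NormedAddCommGroup H] [InnerProductSpace ℂ H] [CompleteSpace H]
  {X E : Type*} [NormedAddCommGroup X] [NormedSpace ℂ X] [NormedAddCommGroup E] [NormedSpace ℂ E]

/-- `g` is strong star continuous at `0` on the unit ball, the operators being read through `ρ`. -/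
def Sm (ρ : X → H →L[ℂ] H) (g : X →L[ℂ] E) : Prop :=
  ∀ ε : ℝ, 0 < ε → ∃ (s : Finset H) (δ : ℝ), 0 < δ ∧ ∀ x, ‖x‖ ≤ 1 →
    (∀ ξ ∈ s, ‖ρ x ξ‖ ≤ δ ∧ ‖(star (ρ x)) ξ‖ ≤ δ) → ‖g x‖ ≤ ε

theorem Sm.tendsto {ρ : X → H →L[ℂ] H} {g : X →L[ℂ] E} (h : Sm ρ g)
    (hρ : ∀ (c : ℂ) x, ρ (c • x) = c • ρ x) {ι : Type*} {l : Filter ι} {c : ι → X} {C : ℝ}
    (hC : ∀ i, ‖c i‖ ≤ C) (h1 : SLim l (fun i => ρ (c i)) 0)
    (h2 : SLim l (fun i => star (ρ (c i))) 0) : Tendsto (fun i => g (c i)) l (𝓝 0) := by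
  rw [Metric.tendsto_nhds]
  intro ε hε
  set K : ℝ := |C| + 1 with hK
  have hK0 : 0 < K := by positivity
  obtain ⟨s, δ, hδ, hs⟩ := h (ε / 2 / K) (by positivity)
  have k1 := h1.smul ((K : ℂ)⁻¹)
  have k2 := h2.smul (star ((K : ℂ)⁻¹))
  have hev : ∀ᶠ i in l, ∀ ξ ∈ s, ‖ρ (((K : ℂ)⁻¹) • c i) ξ‖ ≤ δ ∧
      ‖(star (ρ (((K : ℂ)⁻¹) • c i))) ξ‖ ≤ δ := by
    rw [Filter.eventually_all_finset]
    intro ξ _
    filter_upwards [(Metric.tendsto_nhds.1 (k1 ξ)) δ hδ, (Metric.tendsto_nhds.1 (k2 ξ)) δ hδ]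
      with i x y
    rw [smul_zero, zero_apply, dist_zero_right] at x y
    rw [hρ, star_smul]
    exact ⟨x.le, y.le⟩
  filter_upwards [hev] with i hi
  have n1 : ‖((K : ℂ)⁻¹)‖ = K⁻¹ := by rw [norm_inv, Complex.norm_real, Real.norm_of_nonneg hK0.le]
  have := hs _ (by
    rw [norm_smul, n1, inv_mul_le_iff₀ hK0]
    linarith [hC i, le_abs_self C]) hi
  rw [map_smul, norm_smul, n1, inv_mul_le_iff₀ hK0, mul_div_cancel₀ _ hK0.ne'] at this
  rw [dist_zero_right]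
  linarith

theorem Sm.lim {ρ : X → H →L[ℂ] H} {g : X →L[ℂ] E}
    (h : ∀ ε : ℝ, 0 < ε → ∃ g' : X →L[ℂ] E, Sm ρ g' ∧ ‖g - g'‖ ≤ ε) : Sm ρ g := by
  intro ε hε
  obtain ⟨g', h1, h2⟩ := h _ (half_pos hε)
  obtain ⟨s, δ, hδ, hs⟩ := h1 _ (half_pos hε)
  refine ⟨s, δ, hδ, fun x hx hx' => ?_⟩
  have a1 := hs x hx hx'
  have a2 : ‖g x - g' x‖ ≤ ε / 2 :=
    ((g - g').le_opNorm x).trans ((mul_le_of_le_one_right (norm_nonneg _) hx).trans h2)
  linarith [norm_sub_norm_le (g x) (g' x)]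

theorem Sm.comp {ρ : X → H →L[ℂ] H} {g : X →L[ℂ] E} (h : Sm ρ g) {F : Type*}
    [NormedAddCommGroup F] [NormedSpace ℂ F] (L : E →L[ℂ] F) : Sm ρ (L ∘L g) := by
  intro ε hε
  obtain ⟨s, δ, hδ, hs⟩ := h (ε / (‖L‖ + 1)) (by positivity)
  refine ⟨s, δ, hδ, fun x hx hx' => (L.le_opNorm (g x)).trans ?_⟩
  have := (le_div_iff₀ (by positivity)).1 (hs x hx hx')
  nlinarith [norm_nonneg (g x)]

variable {D : Type*} [CStarAlgebra D] {M : StarSubalgebra ℂ (H →L[ℂ] H)}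

/-- Every element of `M` is a strong star limit of a net of norm at most twice its norm. -/
def Dns (π : D →⋆ₐ[ℂ] M) : Prop :=
  ∀ T : M, ∃ a, Net (fun d => (π d : H →L[ℂ] H)) (2 * ‖T‖) T a

/-- Separate strong star continuity on bounded sets. -/
def SepN {m : ℕ} (Ψ : ContinuousMultilinearMap ℂ (fun _ : Fin m => M) E) : Prop :=
  ∀ x j, Sm (fun T : M => (T : H →L[ℂ] H)) (Ψ.toContinuousLinearMap x j)

theorem norm_pi_le' (π : D →⋆ₐ[ℂ] M) (a : D) : ‖π a‖ ≤ ‖a‖ :=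
  norm_pi_le (M.subtype.comp π) a

theorem Sm.net {π : D →⋆ₐ[ℂ] M} {G : M →L[ℂ] E} (h : Sm (fun T : M => (T : H →L[ℂ] H)) G)
    {C : ℝ} {T : M} {a : Finset H × ℕ → D} (ha : Net (fun d => (π d : H →L[ℂ] H)) C T a) :
    Tendsto (fun i => G (π (a i))) atTop (𝓝 (G T)) := by
  rw [← tendsto_sub_nhds_zero_iff]
  have := h.tendsto (fun _ _ => rfl) (l := atTop) (c := fun i => π (a i) - T) (C := C + ‖T‖)
    (fun i => (norm_sub_le _ _).trans (by
      gcongr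
      exact (norm_pi_le (M.subtype.comp π) (a i)).trans (ha.1 i)))
    (fun ξ => by simpa using tendsto_sub_nhds_zero_iff.2 (ha.2.1 ξ))
    (fun ξ => by simpa using tendsto_sub_nhds_zero_iff.2 (ha.2.2 ξ))
  simpa only [map_sub] using this

theorem Sm.unique {π : D →⋆ₐ[ℂ] M} (hd : Dns π) {G G' : M →L[ℂ] E}
    (h : Sm (fun T : M => (T : H →L[ℂ] H)) G) (h' : Sm (fun T : M => (T : H →L[ℂ] H)) G')
    (e : ∀ a, G (π a) = G' (π a)) : G = G' := by
  ext T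
  obtain ⟨a, ha⟩ := hd T
  have := h.net ha
  simp only [e] at this
  exact tendsto_nhds_unique this (h'.net ha)

theorem SepN.unique {π : D →⋆ₐ[ℂ] M} (hd : Dns π) {m : ℕ}
    {Ψ Ψ' : ContinuousMultilinearMap ℂ (fun _ : Fin m => M) E} (h : SepN Ψ) (h' : SepN Ψ')
    (e : ∀ a : Fin m → D, Ψ (fun i => π (a i)) = Ψ' (fun i => π (a i))) : Ψ = Ψ' := by
  have key : ∀ s : Finset (Fin m), ∀ x : Fin m → M, (∀ i, i ∉ s → ∃ a, x i = π a) → Ψ x = Ψ' x := by
    intro s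
    induction s using Finset.induction_on with
    | empty =>
      intro x hx
      choose a ha using fun i => hx i (Finset.notMem_empty i)
      rw [funext ha]
      exact e a
    | insert j s hj ih =>
      intro x hx
      have := Sm.unique hd (h x j) (h' x j) fun a => ih _ fun i hi => by
        by_cases hij : i = j
        · exact ⟨a, by rw [hij, Function.update_self]⟩
        · rw [Function.update_of_ne hij]
          exact hx i (by simp [hij, hi])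
      simpa using congrArg (fun G => G (x j)) this
  ext x
  exact key Finset.univ x fun i hi => absurd (Finset.mem_univ i) hi

end Pool.Agent.Lib.MP_08bba9_an.W
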