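import Pool.Agent.Lib.MP_08bba9_an.Face
import Pool.Agent.Lib.MP_08bba9_an.W.ExtB

/-! The coboundary of a separately strong star continuous form. -/

set_option linter.unusedSectionVars false

noncomputable section

namespace Pool.Agent.Lib.MP_08bba9_an.W

open Function

theorem face_val {A : Type*} [Mul A] {n : ℕ} (x : Fin (n + 2) → A) (k : Fin (n + 1)) :
    face (Fin.last _) x k = if k.val = 0 then x (Fin.last _) * x 0 else x k.castSucc := by
  rw [face_last]
  refine Fin.cases ?_ (fun k => ?_) k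
  · simp
  · simp

theorem face_update {A : Type*} [Monoid A] {n : ℕ} (i j : Fin (n + 2)) (x : Fin (n + 2) → A) :
    ∃ (j' : Fin (n + 1)) (S T : A), ∀ b,
      face i (update x j b) = update (face i x) j' (S * b * T) := by
  have hj := j.2
  induction i using Fin.lastCases with
  | last =>
    by_cases h0 : j.val = 0
    · refine ⟨0, x (Fin.last _), 1, fun b => funext fun k => ?_⟩
      simp only [face_val, update_apply, Fin.ext_iff, Fin.val_last, Fin.val_zero,
        Fin.val_castSucc, mul_one]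
      split_ifs <;> first | rfl | omega
    · by_cases h1 : j.val = n + 1
      · refine ⟨0, 1, x 0, fun b => funext fun k => ?_⟩
        have := k.2
        simp only [face_val, update_apply, Fin.ext_iff, Fin.val_last, Fin.val_zero,
          Fin.val_castSucc, one_mul]
        split_ifs <;> first | rfl | omega
      · refine ⟨⟨j, by omega⟩, 1, 1, fun b => funext fun k => ?_⟩
        simp only [face_val, update_apply, Fin.ext_iff, Fin.val_last, Fin.val_zero,
          Fin.val_castSucc, one_mul, mul_one]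
        split_ifs <;> first | rfl | omega
  | cast i =>
    have hi := i.2
    rcases lt_trichotomy j.val i.val with h | h | h
    · refine ⟨⟨j, by omega⟩, 1, 1, fun b => funext fun k => ?_⟩
      simp only [face_castSucc, Fin.contractNth, update_apply, Fin.ext_iff, Fin.val_succ,
        Fin.val_castSucc, one_mul, mul_one]
      split_ifs <;> first | rfl | omega
    · refine ⟨i, 1, x i.succ, fun b => funext fun k => ?_⟩
      by_cases e : k = i
      · subst e
        simp only [face_castSucc, Fin.contractNth, update_apply, Fin.ext_iff, Fin.val_succ,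
          Fin.val_castSucc, one_mul]
        split_ifs <;> first | rfl | omega
      · have := mt Fin.ext e
        simp only [face_castSucc, Fin.contractNth, update_apply, Fin.ext_iff, Fin.val_succ,
          Fin.val_castSucc, one_mul]
        split_ifs <;> first | rfl | omega
    · by_cases h1 : j.val = i.val + 1
      · refine ⟨i, x i.castSucc, 1, fun b => funext fun k => ?_⟩
        by_cases e : k = i
        · subst e
          simp only [face_castSucc, Fin.contractNth, update_apply, Fin.ext_iff, Fin.val_succ,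
            Fin.val_castSucc, mul_one]
          split_ifs <;> first | rfl | omega
        · have := mt Fin.ext e
          simp only [face_castSucc, Fin.contractNth, update_apply, Fin.ext_iff, Fin.val_succ,
            Fin.val_castSucc, mul_one]
          split_ifs <;> first | rfl | omega
      · refine ⟨⟨j - 1, by omega⟩, 1, 1, fun b => funext fun k => ?_⟩
        simp only [face_castSucc, Fin.contractNth, update_apply, Fin.ext_iff, Fin.val_succ,
          Fin.val_castSucc, one_mul, mul_one]
        split_ifs <;> first | rfl | omega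

variable {H : Type*} [NormedAddCommGroup H] [InnerProductSpace ℂ H] [CompleteSpace H]
  {X E : Type*} [NormedAddCommGroup X] [NormedSpace ℂ X] [NormedAddCommGroup E] [NormedSpace ℂ E]

theorem Sm.zero {ρ : X → H →L[ℂ] H} : Sm ρ (0 : X →L[ℂ] E) :=
  fun _ hε => ⟨∅, 1, one_pos, fun _ _ _ => by simpa using hε.le⟩

theorem Sm.add {ρ : X → H →L[ℂ] H} {g g' : X →L[ℂ] E} (h : Sm ρ g) (h' : Sm ρ g') :
    Sm ρ (g + g') := by
  classical
  intro ε hε
  obtain ⟨s, δ, hδ, hs⟩ := h _ (half_pos hε)
  obtain ⟨s', δ', hδ', hs'⟩ := h' _ (half_pos hε)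
  refine ⟨s ∪ s', min δ δ', lt_min hδ hδ', fun x hx hx' => ?_⟩
  have a1 := hs x hx fun ξ hξ => by
    have := hx' ξ (Finset.mem_union_left _ hξ)
    exact ⟨this.1.trans (min_le_left _ _), this.2.trans (min_le_left _ _)⟩
  have a2 := hs' x hx fun ξ hξ => by
    have := hx' ξ (Finset.mem_union_right _ hξ)
    exact ⟨this.1.trans (min_le_right _ _), this.2.trans (min_le_right _ _)⟩
  rw [add_apply]
  linarith [norm_add_le (g x) (g' x)]

theorem Sm.smul {ρ : X → H →L[ℂ] H} {g : X →L[ℂ] E} (h : Sm ρ g) (c : ℂ) : Sm ρ (c • g) :=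
  h.comp (c • ContinuousLinearMap.id ℂ E)

theorem Sm.sum {ρ : X → H →L[ℂ] H} {ι : Type*} (s : Finset ι) {g : ι → X →L[ℂ] E}
    (h : ∀ i, Sm ρ (g i)) : Sm ρ (∑ i ∈ s, g i) :=
  Finset.sum_induction g (Sm ρ) (fun _ _ => Sm.add) Sm.zero fun i _ => h i

variable {M : StarSubalgebra ℂ (H →L[ℂ] H)}

theorem Sm.mul {g : M →L[ℂ] E} (h : Sm (fun T : M => (T : H →L[ℂ] H)) g) (S T : M) :
    Sm (fun T : M => (T : H →L[ℂ] H)) (g ∘L ContinuousLinearMap.mulLeftRight ℂ M S T) := by
  classical
  intro ε hε
  set K : ℝ := (‖S‖ + 1) * (‖T‖ + 1) with hK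
  have nS := norm_nonneg S
  have nT := norm_nonneg T
  have hK0 : 0 < K := by positivity
  obtain ⟨s, δ, hδ, hs⟩ := h (ε / K) (by positivity)
  refine ⟨s.image (T : H →L[ℂ] H) ∪ s.image (star (S : H →L[ℂ] H) : H →L[ℂ] H), δ, hδ,
    fun x hx hx' => ?_⟩
  have n1 : ‖((K : ℂ)⁻¹)‖ = K⁻¹ := by rw [norm_inv, Complex.norm_real, Real.norm_of_nonneg hK0.le]
  have := hs (((K : ℂ)⁻¹) • (S * x * T)) (by
    rw [norm_smul, n1, inv_mul_le_iff₀ hK0, mul_one]
    refine norm_mul₃_le.trans ?_
    calc _ ≤ ‖S‖ * 1 * ‖T‖ := by gcongr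
      _ ≤ K := by rw [hK]; nlinarith) fun ξ hξ => by
    have a1 := (hx' _ (Finset.mem_union_left _ (Finset.mem_image_of_mem _ hξ))).1
    have a2 := (hx' _ (Finset.mem_union_right _ (Finset.mem_image_of_mem _ hξ))).2
    constructor
    · change ‖((K : ℂ)⁻¹) • (S : H →L[ℂ] H) ((x : H →L[ℂ] H) ((T : H →L[ℂ] H) ξ))‖ ≤ δ
      rw [norm_smul, n1, inv_mul_le_iff₀ hK0]
      refine ((S : H →L[ℂ] H).le_opNorm _).trans ?_
      refine mul_le_mul (show ‖S‖ ≤ K by rw [hK]; nlinarith) a1 (norm_nonneg _) hK0.le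
    · have e : star ((((K : ℂ)⁻¹) • (S * x * T) : M) : H →L[ℂ] H) = star ((K : ℂ)⁻¹) •
          (star (T : H →L[ℂ] H) * (star (x : H →L[ℂ] H) * star (S : H →L[ℂ] H))) := by
        rw [← star_mul, ← star_mul, ← star_smul]
        rfl
      rw [e]
      change ‖star ((K : ℂ)⁻¹) • (star (T : H →L[ℂ] H) : H →L[ℂ] H)
        ((star (x : H →L[ℂ] H) : H →L[ℂ] H) ((star (S : H →L[ℂ] H) : H →L[ℂ] H) ξ))‖ ≤ δ
      rw [norm_smul, norm_star, n1, inv_mul_le_iff₀ hK0]
      refine (ContinuousLinearMap.le_opNorm _ _).trans ?_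
      rw [norm_star]
      exact mul_le_mul (show ‖T‖ ≤ K by rw [hK]; nlinarith) a2 (norm_nonneg _) hK0.le
  rw [map_smul, norm_smul, n1, inv_mul_le_iff₀ hK0, mul_div_cancel₀ _ hK0.ne'] at this
  exact this

theorem SepN.faceMap {n : ℕ} {Ψ : Multi M ℂ n} (h : SepN Ψ) (i : Fin (n + 2)) :
    SepN (faceMap i Ψ) := by
  intro x j
  obtain ⟨j', S, T, e⟩ := face_update i j x
  have : (MP_08bba9_an.faceMap i Ψ).toContinuousLinearMap x j =
      Ψ.toContinuousLinearMap (face i x) j' ∘L ContinuousLinearMap.mulLeftRight ℂ M S T := by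
    ext b
    simp [e]
  rw [this]
  exact (h _ _).mul S T

theorem SepN.cob {n : ℕ} {Ψ : Multi M ℂ n} (h : SepN Ψ) : SepN (cob Ψ) := by
  intro x j
  have : (MP_08bba9_an.cob Ψ).toContinuousLinearMap x j = ∑ i : Fin (n + 2),
      (-1 : ℂ) ^ (i : ℕ) • (MP_08bba9_an.faceMap i Ψ).toContinuousLinearMap x j := by
    ext b
    simp [cob_apply]
  rw [this]
  exact Sm.sum _ fun i => (h.faceMap i x j).smul _

theorem face_map {A B : Type*} [Mul A] [Mul B] (f : A → B) (hf : ∀ a b, f (a * b) = f a * f b)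
    {n : ℕ} (i : Fin (n + 2)) (a : Fin (n + 2) → A) :
    face i (fun k => f (a k)) = fun k => f (face i a k) := by
  funext k
  induction i using Fin.lastCases with
  | last =>
    simp only [face_val]
    split_ifs
    · exact (hf _ _).symm
    · rfl
  | cast i =>
    simp only [face_castSucc, Fin.contractNth]
    split_ifs
    · rfl
    · exact (hf _ _).symm
    · rfl

theorem cob_zero {D : Type*} [CStarAlgebra D] {π : D →⋆ₐ[ℂ] M} (hd : Dns π) {n : ℕ}
    {Φ : Multi D ℂ n} {Ψ : Multi M ℂ n} (h : SepN Ψ) (e : ∀ a, Ψ (fun i => π (a i)) = Φ a)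
    (h0 : cob Φ = 0) : cob Ψ = 0 := by
  refine SepN.unique hd h.cob (fun x j => ?_) fun a => ?_
  · have : (0 : Multi M ℂ (n + 1)).toContinuousLinearMap x j = 0 := by
      ext b
      simp
    rw [this]
    exact Sm.zero
  · have := congrArg (fun f : Multi D ℂ (n + 1) => f a) h0
    simp only [cob_apply, zero_apply] at this ⊢
    simpa only [face_map π (map_mul π), e] using this

end Pool.Agent.Lib.MP_08bba9_an.W
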