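import Pool.Agent.Lib.MP_08bba9_an.W.ExtB

/-! Slot by slot extension of bounded multilinear forms to the algebra of limits. -/

set_option linter.unusedSectionVars false

noncomputable section

namespace Pool.Agent.Lib.MP_08bba9_an.W

open Filter Topology

variable {H : Type*} [NormedAddCommGroup H] [InnerProductSpace ℂ H] [CompleteSpace H]
  {X E : Type*} [NormedAddCommGroup X] [NormedSpace ℂ X] [NormedAddCommGroup E] [NormedSpace ℂ E]

theorem ext_pack (R : X → E → Prop) (C : ℝ) (ex : ∀ x, ∃ y, R x y ∧ ‖y‖ ≤ C * ‖x‖)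
    (un : ∀ x y y', R x y → R x y' → y = y')
    (ad : ∀ x x' y y', R x y → R x' y' → R (x + x') (y + y'))
    (sm : ∀ (c : ℂ) x y, R x y → R (c • x) (c • y)) :
    ∃ L : X →L[ℂ] E, ∀ x, R x (L x) ∧ ‖L x‖ ≤ C * ‖x‖ := by
  choose f h1 h2 using ex
  exact ⟨LinearMap.mkContinuous
    { toFun := f
      map_add' := fun x x' => un _ _ _ (h1 _) (ad _ _ _ _ (h1 x) (h1 x'))
      map_smul' := fun c x => un _ _ _ (h1 _) (sm c _ _ (h1 x)) } C h2, fun x => ⟨h1 x, h2 x⟩⟩

theorem ext_sm_add {ρ : X → H →L[ℂ] H} {g g' : X →L[ℂ] E} (h : Sm ρ g) (h' : Sm ρ g') :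
    Sm ρ (g + g') := by
  classical
  intro ε hε
  obtain ⟨s, δ, hδ, hs⟩ := h _ (half_pos hε)
  obtain ⟨s', δ', hδ', hs'⟩ := h' _ (half_pos hε)
  refine ⟨s ∪ s', min δ δ', lt_min hδ hδ', fun x hx hx' => ?_⟩
  have a1 := hs x hx fun ξ hξ => (hx' ξ (Finset.mem_union_left _ hξ)).imp
    (·.trans (min_le_left _ _)) (·.trans (min_le_left _ _))
  have a2 := hs' x hx fun ξ hξ => (hx' ξ (Finset.mem_union_right _ hξ)).imp
    (·.trans (min_le_right _ _)) (·.trans (min_le_right _ _))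
  exact (norm_add_le (g x) (g' x)).trans (by linarith)

theorem ext_sm_smul {ρ : X → H →L[ℂ] H} {g : X →L[ℂ] E} (h : Sm ρ g) (c : ℂ) :
    Sm ρ (c • g) := h.comp (c • ContinuousLinearMap.id ℂ E)

variable {D : Type*} [CStarAlgebra D] {M : StarSubalgebra ℂ (H →L[ℂ] H)}

theorem ext_one [CompleteSpace E] {π : D →⋆ₐ[ℂ] M} (hd : Dns π) {g : D →L[ℂ] E}
    (hg : Sm (fun d => (π d : H →L[ℂ] H)) g) : ∃ G : M →L[ℂ] E,
      (Sm (fun T : M => (T : H →L[ℂ] H)) G ∧ ∀ a, G (π a) = g a) ∧ ‖G‖ ≤ 2 * ‖g‖ := by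
  have hρ : ∀ (c : ℂ) (x : D), (π (c • x) : H →L[ℂ] H) = c • (π x : H →L[ℂ] H) :=
    fun c x => by rw [map_smul]; rfl
  have hsub : ∀ x y : D, (π (x - y) : H →L[ℂ] H) = π x - π y := fun x y => by rw [map_sub]; rfl
  have hadd : ∀ x y : D, (π (x + y) : H →L[ℂ] H) = π x + π y := fun x y => by rw [map_add]; rfl
  let R : M → E → Prop := fun T y => ∀ C a, Net (fun d => (π d : H →L[ℂ] H)) C T a →
    Tendsto (fun i => g (a i)) atTop (𝓝 y)
  have two : ∀ {ι : Type _} {l : Filter ι} {p q : ι → Finset H × ℕ} (_ : Tendsto p l atTop)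
      (_ : Tendsto q l atTop) {T : H →L[ℂ] H} {C C' : ℝ} {a b : Finset H × ℕ → D},
      Net (fun d => (π d : H →L[ℂ] H)) C T a → Net (fun d => (π d : H →L[ℂ] H)) C' T b →
      Tendsto (fun i => g (a (p i)) - g (b (q i))) l (𝓝 0) := by
    intro ι l p q hp hq T C C' a b ha hb
    have := hg.tendsto hρ (l := l) (c := fun i => a (p i) - b (q i)) (C := C + C')
      (fun i => (norm_sub_le _ _).trans (add_le_add (ha.1 _) (hb.1 _)))
      (fun ξ => by simpa [hsub] using ((ha.2.1 ξ).comp hp).sub ((hb.2.1 ξ).comp hq))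
      (fun ξ => by simpa [hsub] using ((ha.2.2 ξ).comp hp).sub ((hb.2.2 ξ).comp hq))
    simpa only [map_sub] using this
  have one : ∀ (T : M) y C a, Net (fun d => (π d : H →L[ℂ] H)) C T a →
      Tendsto (fun i => g (a i)) atTop (𝓝 y) → R T y := by
    intro T y C a ha hy C' b hb
    have h0 : Tendsto (fun i => g (b i) - g (a i)) atTop (𝓝 0) := by
      have := two (ι := (Finset H × ℕ) × (Finset H × ℕ)) (l := map (fun i => (i, i)) atTop)
        (p := Prod.fst) (q := Prod.snd) tendsto_id tendsto_id hb ha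
      exact this
    simpa using h0.add hy
  obtain ⟨G, hG⟩ := ext_pack R (2 * ‖g‖) (fun T => by
      obtain ⟨a, ha⟩ := hd T
      have hc : Cauchy (map (fun i => g (a i)) atTop) := by
        rw [cauchy_map_iff', uniformity_eq_comap_nhds_zero, tendsto_comap_iff]
        exact two tendsto_snd tendsto_fst ha ha
      obtain ⟨y, hy⟩ := CompleteSpace.complete hc
      refine ⟨y, one T y _ a ha hy, le_of_tendsto (Tendsto.norm hy) (Eventually.of_forall fun i => ?_)⟩
      refine (g.le_opNorm _).trans ?_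
      nlinarith [ha.1 i, norm_nonneg g])
    (fun T y y' h h' => by
      obtain ⟨a, ha⟩ := hd T
      exact tendsto_nhds_unique (h _ a ha) (h' _ a ha))
    (fun T T' y y' h h' => by
      obtain ⟨a, ha⟩ := hd T
      obtain ⟨b, hb⟩ := hd T'
      refine one _ _ (2 * ‖T‖ + 2 * ‖T'‖) (fun i => a i + b i) ⟨fun i => (norm_add_le _ _).trans
        (add_le_add (ha.1 i) (hb.1 i)), ?_, ?_⟩ ?_
      · simp only [hadd]
        exact ha.2.1.add hb.2.1
      · have := ha.2.2.add hb.2.2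
        simp only [← star_add] at this
        simp only [hadd]
        exact this
      · simpa only [map_add] using (h _ a ha).add (h' _ b hb))
    (fun c T y h => by
      obtain ⟨a, ha⟩ := hd T
      refine one _ _ (‖c‖ * (2 * ‖T‖)) (fun i => c • a i) ⟨fun i => ?_, ?_, ?_⟩ ?_
      · rw [norm_smul]; gcongr; exact ha.1 i
      · simp only [hρ]
        exact ha.2.1.smul c
      · have := ha.2.2.smul (star c)
        simp only [← star_smul] at this
        simp only [hρ]
        exact this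
      · simpa only [map_smul] using (h _ a ha).const_smul c)
  refine ⟨G, ⟨fun ε hε => ?_, fun a => ?_⟩, G.opNorm_le_bound (by positivity) fun T => (hG T).2⟩
  · obtain ⟨s, δ, hδ, hs⟩ := hg _ (half_pos hε)
    refine ⟨s, δ, hδ, fun T hT hT' => ?_⟩
    obtain ⟨a, ha⟩ := hd T
    refine le_of_tendsto ((hG T).1 _ a ha).norm ?_
    have n1 : ‖(2⁻¹ : ℂ)‖ = 2⁻¹ := by simp
    have hev : ∀ᶠ i in atTop, ∀ ξ ∈ s, ‖(π ((2⁻¹ : ℂ) • a i) : H →L[ℂ] H) ξ‖ ≤ δ ∧
        ‖(star (π ((2⁻¹ : ℂ) • a i) : H →L[ℂ] H)) ξ‖ ≤ δ := by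
      rw [Filter.eventually_all_finset]
      intro ξ hξ
      filter_upwards [(ha.2.1 ξ).norm.eventually (gt_mem_nhds (a := 2 * δ)
        (by linarith [(hT' ξ hξ).1])), (ha.2.2 ξ).norm.eventually (gt_mem_nhds (a := 2 * δ)
        (by linarith [(hT' ξ hξ).2]))] with i x y
      rw [hρ, star_smul, smul_apply, smul_apply, norm_smul, norm_smul, norm_star, n1]
      constructor <;> linarith
    filter_upwards [hev] with i hi
    have := hs _ (by rw [norm_smul, n1]; linarith [ha.1 i]) hi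
    rw [map_smul, norm_smul, n1] at this
    linarith
  · exact tendsto_nhds_unique ((hG (π a)).1 ‖a‖ (fun _ => a)
      ⟨fun _ => le_rfl, SLim.const _, SLim.const _⟩) tendsto_const_nhds

theorem ext_multi {π : D →⋆ₐ[ℂ] M} (hd : Dns π)
    (h1 : ∀ f : D →L[ℂ] ℂ, Sm (fun d => (π d : H →L[ℂ] H)) f)
    (h2 : ∀ V : D →L[ℂ] M →L[ℂ] ℂ, Sm (fun d => (π d : H →L[ℂ] H)) V) (m : ℕ)
    (Φ : ContinuousMultilinearMap ℂ (fun _ : Fin m => D) ℂ) :
    ∃ Ψ : ContinuousMultilinearMap ℂ (fun _ : Fin m => M) ℂ,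
      (SepN Ψ ∧ ∀ a, Ψ (fun i => π (a i)) = Φ a) ∧ ‖Ψ‖ ≤ 2 ^ m * ‖Φ‖ := by
  induction m with
  | zero =>
    refine ⟨ContinuousMultilinearMap.uncurry0 ℂ M Φ.curry0, ⟨fun _ j => j.elim0, fun a => ?_⟩, ?_⟩
    · rw [ContinuousMultilinearMap.uncurry0_apply, ContinuousMultilinearMap.curry0_apply]
      congr 1
      exact Subsingleton.elim _ _
    · simp
  | succ m ih =>
    obtain ⟨e1, he1⟩ := ext_pack (X := D →L[ℂ] ℂ) (E := M →L[ℂ] ℂ)
      (fun g G => Sm (fun T : M => (T : H →L[ℂ] H)) G ∧ ∀ a, G (π a) = g a) 2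
      (fun g => ext_one hd (h1 g))
      (fun g G G' h h' => Sm.unique hd h.1 h'.1 fun a => (h.2 a).trans (h'.2 a).symm)
      (fun g g' G G' h h' => ⟨ext_sm_add h.1 h'.1, fun a => by simp [h.2, h'.2]⟩)
      (fun c g G h => ⟨ext_sm_smul h.1 c, fun a => by simp [h.2]⟩)
    obtain ⟨L, hL⟩ := ext_pack (X := ContinuousMultilinearMap ℂ (fun _ : Fin m => D) ℂ)
      (E := ContinuousMultilinearMap ℂ (fun _ : Fin m => M) ℂ)
      (fun g G => SepN G ∧ ∀ a, G (fun i => π (a i)) = g a) (2 ^ m) ih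
      (fun g G G' h h' => SepN.unique hd h.1 h'.1 fun a => (h.2 a).trans (h'.2 a).symm)
      (fun g g' G G' h h' => ⟨fun x j => ext_sm_add (h.1 x j) (h'.1 x j),
        fun a => by simp [h.2, h'.2]⟩)
      (fun c g G h => ⟨fun x j => ext_sm_smul (h.1 x j) c, fun a => by simp [h.2]⟩)
    let Θ : D →L[ℂ] ContinuousMultilinearMap ℂ (fun _ : Fin m => M) ℂ := L ∘L Φ.curryLeft
    let Ξ : M →L[ℂ] ContinuousMultilinearMap ℂ (fun _ : Fin m => M) ℂ :=
      (e1.compContinuousMultilinearMap Θ.flipMultilinear).flipLinear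
    have hΞ : ∀ x y, Ξ x y = e1 (Θ.flipMultilinear y) x := fun _ _ => rfl
    have hΘ : ∀ y d, Θ.flipMultilinear y d = L (Φ.curryLeft d) y := fun _ _ => rfl
    refine ⟨Ξ.uncurryLeft, ⟨fun x j => ?_, fun a => ?_⟩, ?_⟩
    · refine Fin.cases ?_ (fun k => ?_) j
      · have : Ξ.uncurryLeft.toContinuousLinearMap x 0 = e1 (Θ.flipMultilinear (Fin.tail x)) := by
          ext b
          simp [hΞ]
        rw [this]
        exact (he1 _).1.1
      · let V : D →L[ℂ] M →L[ℂ] ℂ := (Θ.flipMultilinear.toContinuousLinearMap (Fin.tail x) k).flip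
        have hV : ∀ d, V d = (L (Φ.curryLeft d)).toContinuousLinearMap (Fin.tail x) k :=
          fun d => rfl
        obtain ⟨G, ⟨g1, g2⟩, -⟩ := ext_one hd (h2 V)
        obtain ⟨a, ha⟩ := hd (x 0)
        have t1 := g1.net ha
        have : Ξ.uncurryLeft.toContinuousLinearMap x k.succ = G (x 0) := by
          ext b
          have t2 := (he1 (Θ.flipMultilinear (Function.update (Fin.tail x) k b))).1.1.net ha
          have t3 := ((ContinuousLinearMap.apply ℂ ℂ b).continuous.tendsto _).comp t1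
          simp only [(he1 _).1.2] at t2
          simp only [g2] at t3
          have := tendsto_nhds_unique t2 t3
          simpa [hΞ, Fin.tail_update_succ, Function.update_of_ne (Fin.succ_ne_zero k).symm]
            using this
        rw [this]
        refine Sm.lim fun ε hε => ?_
        obtain ⟨i, hi⟩ := ((Metric.tendsto_nhds.1 t1) ε hε).exists
        rw [dist_comm, dist_eq_norm, g2] at hi
        exact ⟨V (a i), (hL _).1.1 _ k, hi.le⟩
    · rw [ContinuousLinearMap.uncurryLeft_apply, hΞ, (he1 _).1.2, hΘ]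
      exact ((hL _).1.2 (Fin.tail a)).trans (by simp)
    · rw [ContinuousLinearMap.uncurryLeft_norm]
      refine Ξ.opNorm_le_bound (by positivity) fun x =>
        (Ξ x).opNorm_le_bound (by positivity) fun y => ?_
      rw [hΞ]
      have b1 : ‖Θ.flipMultilinear y‖ ≤ 2 ^ m * ‖Φ‖ * ∏ i, ‖y i‖ :=
        (Θ.flipMultilinear y).opNorm_le_bound (by positivity) fun d => by
          rw [hΘ]
          refine ((L _).le_of_opNorm_le ((hL _).2.trans (mul_le_mul_of_nonneg_left
            (Φ.curryLeft.le_opNorm d) (by positivity))) y).trans (le_of_eq ?_)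
          rw [ContinuousMultilinearMap.curryLeft_norm]
          ring
      refine ((e1 _).le_of_opNorm_le ((he1 _).2.trans
        (mul_le_mul_of_nonneg_left b1 zero_le_two)) x).trans (le_of_eq ?_)
      ring

end Pool.Agent.Lib.MP_08bba9_an.W
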