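import Pool.Agent.Lib.MP_08bba9_an.W.Gro
import Pool.Agent.Lib.MP_08bba9_an.W.ExtC
import Pool.Agent.Lib.MP_08bba9_an.W.ExtD

/-! Bounded multilinear forms and cocycles extend to an algebra closed under strong star limits. -/

noncomputable section

namespace Pool.Agent.Lib.MP_08bba9_an.W

open scoped ComplexOrder

universe u

theorem sm_of_univ {H : Type*} [NormedAddCommGroup H] [InnerProductSpace ℂ H] [CompleteSpace H]
    {D : Type*} [CStarAlgebra D] [PartialOrder D] [StarOrderedRing D]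
    (π : D →⋆ₐ[ℂ] (H →L[ℂ] H)) (hπ : ∀ f : D →L[ℂ] ℂ, (∀ c, 0 ≤ c → 0 ≤ f c) →
      ∃ ξ : H, ∀ x, (f (star x * x)).re = ‖π x ξ‖ ^ 2)
    {B : Type*} [CStarAlgebra B] (V : D →L[ℂ] B →L[ℂ] ℂ) : Sm (fun d => π d) V := by
  classical
  obtain ⟨f, g, f0, g0, h⟩ := weakGro' V
  obtain ⟨ξ, hξ⟩ := hπ f f0
  obtain ⟨η, hη⟩ := hπ g g0
  intro ε hε
  obtain ⟨δ, hδ, hs⟩ := h ε hε
  have key : ∀ t : ℝ, 0 ≤ t → t ≤ min 1 δ → t ^ 2 ≤ δ := fun t t0 ht => by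
    nlinarith [ht.trans (min_le_left _ _), ht.trans (min_le_right _ _)]
  refine ⟨{ξ, η}, min 1 δ, lt_min one_pos hδ, fun x hx hx' => hs x hx ?_ ?_⟩
  · rw [hξ]
    exact key _ (norm_nonneg _) (hx' ξ (by simp)).1
  · have := hη (star x)
    rw [star_star, map_star] at this
    rw [this]
    exact key _ (norm_nonneg _) (hx' η (by simp)).2

theorem exists_ext (D : Type u) [CStarAlgebra D] :
    ∃ (H : Type u) (_ : NormedAddCommGroup H) (_ : InnerProductSpace ℂ H) (_ : CompleteSpace H)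
      (M : StarSubalgebra ℂ (H →L[ℂ] H)) (_ : IsVN M) (π : D →⋆ₐ[ℂ] M),
      ∀ (n : ℕ) (Φ : Multi D ℂ n), ∃ Ψ : Multi M ℂ n, ‖Ψ‖ ≤ 2 ^ (n + 1) * ‖Φ‖ ∧
        (∀ a, Ψ (fun i => π (a i)) = Φ a) ∧ (cob Φ = 0 → cob Ψ = 0) := by
  let _ := CStarAlgebra.spectralOrder D
  let _ := CStarAlgebra.spectralOrderedRing D
  obtain ⟨H, i1, i2, i3, π, hπ⟩ := exists_univ D
  let π' : D →⋆ₐ[ℂ] lims π := π.codRestrict (lims π) fun a => ⟨_, app_pi π a⟩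
  have hd : Dns π' := fun T => by
    obtain ⟨C, hC⟩ := T.2
    exact app_iff.1 hC.norm
  have := (lims_isVN π).isClosed
  refine ⟨H, i1, i2, i3, lims π, lims_isVN π, π', fun n Φ => ?_⟩
  obtain ⟨Ψ, ⟨h1, h2⟩, h3⟩ := ext_multi hd (fun f => by
    have := (sm_of_univ π hπ (ContinuousLinearMap.mul ℂ ℂ ∘L f)).comp
      (ContinuousLinearMap.apply ℂ ℂ (1 : ℂ))
    have e : ContinuousLinearMap.apply ℂ ℂ (1 : ℂ) ∘L (ContinuousLinearMap.mul ℂ ℂ ∘L f) = f := by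
      ext x
      simp
    rwa [e] at this) (fun V => sm_of_univ π hπ V) (n + 1) Φ
  exact ⟨Ψ, h3, h2, cob_zero hd h1 h2⟩

end Pool.Agent.Lib.MP_08bba9_an.W
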