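import Mathlib

/-! From the projection layer to the abstract finite setting: limit trace, joins, comparison. -/

open Complex Filter Topology
open scoped ComplexOrder

namespace Pool.Agent.Lib.MP_08bba9_an.W

namespace Br

variable {M : Type*} [CStarAlgebra M]

/-- A functional that is positive on all `x⋆ x` is positive on the positive cone. -/
lemma pos_of [PartialOrder M] [StarOrderedRing M] {f : M →L[ℂ] ℂ}
    (hf : ∀ x, 0 ≤ f (star x * x)) {c : M} (hc : 0 ≤ c) : 0 ≤ f c := by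
  obtain ⟨x, rfl⟩ := CStarAlgebra.nonneg_iff_eq_star_mul_self.1 hc
  exact hf x

lemma herm {f : M →L[ℂ] ℂ} (hf : ∀ x, 0 ≤ f (star x * x)) (x : M) :
    f (star x) = star (f x) := by
  have h0 := (Complex.nonneg_iff.1 (hf 1)).2
  have h1 := (Complex.nonneg_iff.1 (hf x)).2
  have h2 := (Complex.nonneg_iff.1 (hf (1 + x))).2
  have h3 := (Complex.nonneg_iff.1 (hf (1 + I • x))).2
  have e2 : star (1 + x) * (1 + x) = star (1 : M) * 1 + x + star x + star x * x := by
    simp only [star_add, star_one]; noncomm_ring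
  have e3 : star (1 + I • x) * (1 + I • x) =
      star (1 : M) * 1 + I • x - I • star x + star x * x := by
    simp only [star_add, star_one, star_smul, add_mul, mul_add, one_mul, mul_one, smul_mul_assoc,
      mul_smul_comm, smul_smul, Complex.star_def, conj_I, smul_add]
    rw [show I * -I = 1 by rw [mul_neg, I_mul_I, neg_neg], one_smul, neg_smul]
    abel
  rw [e2] at h2
  rw [e3] at h3
  simp only [map_add, map_sub, map_smul, add_im, sub_im, smul_eq_mul, mul_im, I_re, I_im] at h2 h3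
  apply Complex.ext
  · simp only [Complex.star_def, conj_re]; linarith
  · simp only [Complex.star_def, conj_im]; linarith

lemma sq_le {f : M →L[ℂ] ℂ} (hf : ∀ x, 0 ≤ f (star x * x)) (h1 : f 1 = 1) (x : M) :
    ‖f x‖ ^ 2 ≤ (f (star x * x)).re := by
  have h := (Complex.nonneg_iff.1 (hf (x - f x • 1))).1
  have e : star (x - f x • (1 : M)) * (x - f x • 1) =
      star x * x - f x • star x - star (f x) • x + (star (f x) * f x) • 1 := by
    simp only [star_sub, star_smul, star_one, sub_mul, mul_sub, smul_mul_assoc, mul_smul_comm,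
      one_mul, mul_one, smul_sub, smul_smul, mul_comm (f x)]
    abel
  rw [e] at h
  simp only [map_add, map_sub, map_smul, herm hf x, h1, smul_eq_mul, mul_one, mul_comm (f x),
    Complex.star_def, conj_mul', add_re, sub_re] at h
  rw [← ofReal_pow, ofReal_re] at h
  linarith

/-- A state has norm at most one. -/
lemma norm_le {f : M →L[ℂ] ℂ} (hf : ∀ x, 0 ≤ f (star x * x)) (h1 : f 1 = 1) : ‖f‖ ≤ 1 := by
  let _ := CStarAlgebra.spectralOrder M
  have := CStarAlgebra.spectralOrderedRing M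
  refine f.opNorm_le_bound zero_le_one fun x => ?_
  have a := sq_le hf h1 x
  have b := pos_of hf (sub_nonneg.2 (CStarAlgebra.star_mul_le_algebraMap_norm_sq (a := x)))
  rw [map_sub, Algebra.algebraMap_eq_smul_one, ← Complex.coe_smul, map_smul, h1, smul_eq_mul,
    mul_one] at b
  have c := (Complex.nonneg_iff.1 b).1
  rw [sub_re, ofReal_re] at c
  rw [one_mul]
  exact (pow_le_pow_iff_left₀ (norm_nonneg _) (norm_nonneg _) two_ne_zero).1 (by linarith)

lemma proj_nonneg {f : M →L[ℂ] ℂ} (hf : ∀ x, 0 ≤ f (star x * x)) {p : M} (hp : star p = p)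
    (hp2 : p * p = p) : 0 ≤ f p := by
  simpa only [hp, hp2] using hf p

/-- Monotonicity on projections. -/
lemma proj_mono {f : M →L[ℂ] ℂ} (hf : ∀ x, 0 ≤ f (star x * x)) {p q : M} (hp : star p = p)
    (hp2 : p * p = p) (hq : star q = q) (hq2 : q * q = q) (h : q * p = p) : f p ≤ f q := by
  have h' : p * q = p := by simpa only [star_mul, hp, hq] using congrArg star h
  have := proj_nonneg hf (p := q - p) (by rw [star_sub, hp, hq])
    (by rw [sub_mul, mul_sub, mul_sub, hq2, hp2, h, h', sub_self, sub_zero])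
  rwa [map_sub, sub_nonneg] at this

lemma tracial_of {f : M →L[ℂ] ℂ} (h : ∀ x, f (star x * x) = f (x * star x)) (a b : M) :
    f (a * b) = f (b * a) := by
  have h1 := h (star a + b)
  have h2 := h (star a + I • b)
  have ha := h (star a)
  have hb := h b
  simp only [star_add, star_star, star_smul, add_mul, mul_add, smul_mul_assoc, mul_smul_comm,
    map_add, map_smul, smul_eq_mul, Complex.star_def, conj_I] at h1 h2 ha hb
  have e : I * (2 * (f (a * b) - f (b * a))) = 0 := by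
    linear_combination I * h1 + h2 - (I + 1) * ha - (I - I * I) * hb
  have := (mul_eq_zero.1 e).resolve_left I_ne_zero
  linear_combination this / 2

end Br

open Br

variable {M : Type*} [CStarAlgebra M]

/-- The limit of almost tracial states along a filter base of central projections. -/
theorem limTrace (U : Set M) (h1 : (1 : M) ∈ U) (hmul : ∀ z ∈ U, ∀ y ∈ U, z * y ∈ U)
    (hU : ∀ z ∈ U, star z = z ∧ z * z = z ∧ ∀ x, z * x = x * z)
    (hTR : ∀ z ∈ U, ∀ ε : ℝ, 0 < ε → ∃ ρ : M →L[ℂ] ℂ, (∀ x, 0 ≤ ρ (star x * x)) ∧ ρ 1 = 1 ∧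
      ρ z = 1 ∧ ∀ x, (ρ (star x * x)).re ≤ (1 + ε) * (ρ (x * star x)).re) :
    ∃ τ : M →L[ℂ] ℂ, (∀ x, 0 ≤ τ (star x * x)) ∧ τ 1 = 1 ∧ (∀ a b, τ (a * b) = τ (b * a)) ∧
      ∀ z ∈ U, τ z = 1 := by
  let K : U × {ε : ℝ // 0 < ε} → Set (WeakDual ℂ M) := fun i =>
    {ρ | (∀ x, 0 ≤ ρ (star x * x)) ∧ ρ 1 = 1 ∧ ρ i.1 = 1 ∧
      ∀ x, (ρ (star x * x)).re ≤ (1 + i.2) * (ρ (x * star x)).re}
  have hc : ∀ i, IsClosed (K i) := fun i => by
    simp only [K, Set.ofPred_and, Set.ofPred_forall]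
    refine (isClosed_iInter fun x => isClosed_le continuous_const (WeakDual.eval_continuous _)).inter
      ((isClosed_eq (WeakDual.eval_continuous _) continuous_const).inter
      ((isClosed_eq (WeakDual.eval_continuous _) continuous_const).inter
      (isClosed_iInter fun x => isClosed_le (continuous_re.comp (WeakDual.eval_continuous _))
        (continuous_const.mul (continuous_re.comp (WeakDual.eval_continuous _))))))
  have hk : ∀ i, IsCompact (K i) := fun i =>
    (WeakDual.isCompact_closedBall (𝕜 := ℂ) (E := M) 0 1).of_isClosed_subset (hc i) fun ρ hρ => by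
      simpa using norm_le (f := WeakDual.toStrongDual ρ) hρ.1 hρ.2.1
  have hn : ∀ i, (K i).Nonempty := fun i => by
    obtain ⟨ρ, a, b, c, d⟩ := hTR i.1 i.1.2 i.2 i.2.2
    exact ⟨StrongDual.toWeakDual ρ, a, b, c, d⟩
  have sub : ∀ i j : U × {ε : ℝ // 0 < ε}, (i.1 : M) * j.1 = j.1 → (j.2 : ℝ) ≤ i.2 → K j ⊆ K i := by
    rintro ⟨⟨z, hz⟩, ε⟩ ⟨⟨y, hy⟩, δ⟩ e le ρ ⟨a, b, c, d⟩
    refine ⟨a, b, le_antisymm ?_ ?_, fun x => (d x).trans ?_⟩
    · exact (proj_mono (f := WeakDual.toStrongDual ρ) a (hU z hz).1 (hU z hz).2.1 (star_one M)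
        (one_mul 1) (one_mul z)).trans_eq b
    · exact c.ge.trans (proj_mono (f := WeakDual.toStrongDual ρ) a (hU y hy).1 (hU y hy).2.1
        (hU z hz).1 (hU z hz).2.1 e)
    · have := (Complex.nonneg_iff.1 (a (star x))).1
      rw [star_star] at this
      exact mul_le_mul_of_nonneg_right (by linarith) this
  have hd : Directed (· ⊇ ·) K := by
    rintro ⟨⟨z, hz⟩, ε⟩ ⟨⟨y, hy⟩, δ⟩
    refine ⟨(⟨z * y, hmul z hz y hy⟩, ⟨min ε δ, lt_min ε.2 δ.2⟩), sub _ _ ?_ (min_le_left _ _),
      sub _ _ ?_ (min_le_right _ _)⟩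
    · show z * (z * y) = z * y
      rw [← mul_assoc, (hU z hz).2.1]
    · show y * (z * y) = z * y
      rw [← mul_assoc, (hU y hy).2.2 z, mul_assoc, (hU y hy).2.1]
  have : Nonempty (U × {ε : ℝ // 0 < ε}) := ⟨(⟨1, h1⟩, ⟨1, one_pos⟩)⟩
  obtain ⟨τ, hτ⟩ := IsCompact.nonempty_iInter_of_directed_nonempty_isCompact_isClosed K hd hn hk hc
  rw [Set.mem_iInter] at hτ
  obtain ⟨a, b, -, -⟩ := hτ (⟨1, h1⟩, ⟨1, one_pos⟩)
  have le : ∀ x, (τ (star x * x)).re ≤ (τ (x * star x)).re := fun x => by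
    have h0 := (Complex.nonneg_iff.1 (a (star x))).1
    rw [star_star] at h0
    refine le_of_forall_pos_le_add fun ε hε => ?_
    have hp : 0 < ε / ((τ (x * star x)).re + 1) := by positivity
    refine ((hτ (⟨1, h1⟩, ⟨_, hp⟩)).2.2.2 x).trans ?_
    have : ε / ((τ (x * star x)).re + 1) * (τ (x * star x)).re ≤ ε := by
      rw [div_mul_eq_mul_div, div_le_iff₀ (by positivity)]
      nlinarith
    simp only
    linarith
  refine ⟨WeakDual.toStrongDual τ, a, b, tracial_of fun x => ?_,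
    fun z hz => (hτ (⟨z, hz⟩, ⟨1, one_pos⟩)).2.2.1⟩
  have h2 := le (star x)
  have h3 := (Complex.nonneg_iff.1 (a (star x))).2
  rw [star_star] at h2 h3
  exact Complex.ext (le_antisymm (le x) h2) ((Complex.nonneg_iff.1 (a x)).2.symm.trans h3)

/-- A tracial positive functional is monotone for subequivalence of projections. -/
theorem trace_le_of_sub {τ : M →L[ℂ] ℂ} (hp : ∀ x, 0 ≤ τ (star x * x))
    (ht : ∀ a b, τ (a * b) = τ (b * a)) {q v : M} (hq : IsStarProjection q) (h : q * v = v)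
    (hv : IsStarProjection (star v * v)) : τ (star v * v) ≤ τ q := by
  have h1 := hv.isIdempotentElem.eq
  have h2 : star (v - v * star v * v) * (v - v * star v * v) = 0 := by
    have e : star (v - v * star v * v) * (v - v * star v * v) = star v * v -
        (star v * v) * (star v * v) - (star v * v) * (star v * v) +
        (star v * v) * (star v * v) * (star v * v) := by
      simp only [star_sub, star_mul, star_star]; noncomm_ring
    rw [e, h1, h1]; abel
  have h3 : v * star v * v = v := (sub_eq_zero.1 ((CStarRing.star_mul_self_eq_zero_iff _).1 h2)).symm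
  rw [ht]
  exact proj_mono hp (by rw [star_mul, star_star]) (by rw [← mul_assoc, h3])
    hq.isSelfAdjoint.star_eq hq.isIdempotentElem.eq (by rw [← mul_assoc, h])

/-- Joins from range projections and the polar form. -/
theorem join_of_polar (hR : ∀ T : M, ∃ v : M, IsStarProjection (v * star v) ∧ v * star v * T = T ∧
      (∀ x, x * T = 0 → x * (v * star v) = 0) ∧ ∀ x, T * x = 0 → v * x = 0)
    {p q : M} (hp : IsStarProjection p) (hq : IsStarProjection q) :
    ∃ r, IsStarProjection r ∧ r * p = p ∧ r * q = q ∧ ∃ v, star v * v = r - p ∧ q * v = v := by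
  obtain ⟨v, a, b, c, d⟩ := hR ((1 - p) * q)
  have p1 := hp.isSelfAdjoint.star_eq
  have p2 := hp.isIdempotentElem.eq
  have e1 : p * (v * star v) = 0 := c p (by rw [← mul_assoc, mul_sub, mul_one, p2, sub_self, zero_mul])
  have e2 : v * star v * p = 0 := by
    simpa only [star_mul, star_star, p1, star_zero] using congrArg star e1
  have e3 : v * (1 - q) = 0 :=
    d _ (by rw [mul_assoc, mul_sub q, mul_one, hq.isIdempotentElem.eq, sub_self, mul_zero])
  refine ⟨p + v * star v, hp.add a e1, by rw [add_mul, p2, e2, add_zero], ?_, star v,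
    by rw [star_star, add_sub_cancel_left], ?_⟩
  · rw [← mul_assoc, mul_sub, e2, sub_zero, mul_one, sub_mul, one_mul] at b
    rw [add_mul, b, add_sub_cancel]
  · rw [mul_sub, mul_one, sub_eq_zero] at e3
    simpa only [star_mul, hq.isSelfAdjoint.star_eq] using (congrArg star e3).symm

/-- The abstract finite setting from joins, comparison and almost tracial states. -/
theorem finBridge (U : Set M) (h1 : (1 : M) ∈ U) (h0 : (0 : M) ∉ U)
    (hmul : ∀ z ∈ U, ∀ y ∈ U, z * y ∈ U)
    (hU : ∀ z ∈ U, IsStarProjection z ∧ ∀ x, z * x = x * z)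
    (hD : ∀ z : M, IsStarProjection z → (∀ x, z * x = x * z) → z ∈ U ∨ 1 - z ∈ U)
    {zf : M} (hf : zf ∈ U)
    (hJ : ∀ p q : M, IsStarProjection p → IsStarProjection q →
      ∃ r, IsStarProjection r ∧ r * p = p ∧ r * q = q ∧ ∃ v, star v * v = r - p ∧ q * v = v)
    (hC : ∀ p q : M, IsStarProjection p → IsStarProjection q → ∃ z : M, IsStarProjection z ∧
      (∀ x, z * x = x * z) ∧ (∃ v, star v * v = z * p ∧ q * v = v) ∧
      ∃ w, star w * w = (1 - z) * q ∧ p * w = w)
    (hTR : ∀ z : M, IsStarProjection z → (∀ x, z * x = x * z) → z ≠ 0 → zf * z = z →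
      ∀ ε : ℝ, 0 < ε → ∃ ρ : M →L[ℂ] ℂ, (∀ x, 0 ≤ ρ (star x * x)) ∧ ρ 1 = 1 ∧
      ρ z = 1 ∧ ∀ x, (ρ (star x * x)).re ≤ (1 + ε) * (ρ (x * star x)).re) :
    ∃ τ : M →L[ℂ] ℂ, (∀ x, 0 ≤ τ (star x * x)) ∧ τ 1 = 1 ∧ (∀ a b, τ (a * b) = τ (b * a)) ∧
      (∀ z ∈ U, τ z = 1) ∧
      (∀ p q : M, IsStarProjection p → IsStarProjection q →
        ∃ r, IsStarProjection r ∧ r * p = p ∧ r * q = q ∧ (τ r).re ≤ (τ p).re + (τ q).re) ∧
      ∀ p q : M, IsStarProjection p → IsStarProjection q → ∃ z ∈ U,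
        (∃ v, star v * v = z * p ∧ q * v = v) ∨ ∃ v, star v * v = z * q ∧ p * v = v := by
  have hU' : ∀ z ∈ U, star z = z ∧ z * z = z ∧ ∀ x, z * x = x * z := fun z hz =>
    ⟨(hU z hz).1.isSelfAdjoint.star_eq, (hU z hz).1.isIdempotentElem.eq, (hU z hz).2⟩
  obtain ⟨τ, a, b, c, d⟩ := limTrace U h1 hmul hU' fun z hz ε hε => by
    have hm := hmul zf hf z hz
    obtain ⟨ρ, a, b, c, d⟩ := hTR (zf * z) (hU _ hm).1 (hU _ hm).2 (fun e => h0 (e ▸ hm))
      (by rw [← mul_assoc, (hU' zf hf).2.1]) ε hε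
    refine ⟨ρ, a, b, le_antisymm ?_ ?_, d⟩
    · exact (proj_mono a (hU' z hz).1 (hU' z hz).2.1 (star_one M) (one_mul 1) (one_mul z)).trans_eq b
    · exact c.ge.trans (proj_mono a (hU' _ hm).1 (hU' _ hm).2.1 (hU' z hz).1 (hU' z hz).2.1
        (by rw [← mul_assoc, (hU' z hz).2.2 zf, mul_assoc, (hU' z hz).2.1]))
  refine ⟨τ, a, b, c, d, fun p q hp hq => ?_, fun p q hp hq => ?_⟩
  · obtain ⟨r, r1, r2, r3, v, v1, v2⟩ := hJ p q hp hq
    have := trace_le_of_sub a c hq v2 (v1 ▸ hp.sub_of_mul_eq_right r1 r2)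
    rw [v1, map_sub] at this
    have := (Complex.le_def.1 this).1
    rw [sub_re] at this
    exact ⟨r, r1, r2, r3, by linarith⟩
  · obtain ⟨z, z1, z2, hv, hw⟩ := hC p q hp hq
    rcases hD z z1 z2 with h | h
    · exact ⟨z, h, Or.inl hv⟩
    · exact ⟨1 - z, h, Or.inr hw⟩

end Pool.Agent.Lib.MP_08bba9_an.W
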