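import Pool.Agent.Lib.MP_08bba9_an.W.Add
import Pool.Agent.Lib.MP_08bba9_an.W.Bridge
import Pool.Agent.Lib.MP_08bba9_an.W.Part
import Pool.Agent.Lib.MP_08bba9_an.K.Disp
import Pool.Agent.Lib.MP_08bba9_an.K.Sp

/-! The dichotomy: isometries on the properly infinite part, the finite setting on the rest. -/

open scoped ComplexOrder

namespace Pool.Agent.Lib.MP_08bba9_an.W

open _root_.Lib.MP_08bba9_an.W

/-- Polar parts with their support properties. -/
def PolR (M : Type*) [Ring M] [StarRing M] : Prop :=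
  ∀ T : M, ∃ v : M, IsStarProjection (v * star v) ∧ v * star v * T = T ∧
    (∀ x, x * T = 0 → x * (v * star v) = 0) ∧ ∀ x, T * x = 0 → v * x = 0

/-- Almost tracial states on finite central projections. -/
def TrIn (M : Type*) [CStarAlgebra M] : Prop :=
  ∀ z : M, IsStarProjection z → (∀ x, z * x = x * z) → z ≠ 0 → Fint z →
    ∀ ε : ℝ, 0 < ε → ∃ ρ : M →L[ℂ] ℂ, (∀ x, 0 ≤ ρ (star x * x)) ∧ ρ 1 = 1 ∧
      ρ z = 1 ∧ ∀ x, (ρ (star x * x)).re ≤ (1 + ε) * (ρ (x * star x)).re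

section abstract

variable {M : Type*} [CStarAlgebra M]

theorem proper_of : Proper M := fun x h => (CStarRing.star_mul_self_eq_zero_iff x).1 h

theorem PolR.rk (h : PolR M) : K.RK M := fun T => by
  obtain ⟨v, a, b, c, -⟩ := h T
  exact ⟨_, a, b, c⟩

theorem PolR.pol (h : PolR M) : Pol M := fun x hx => by
  obtain ⟨v, a, b, c, d⟩ := h x
  have e : star v * (v * star v) = star v := proper_of.pi a (by rw [star_star])
  have e' : v * star v * v = v := by
    simpa only [star_mul, star_star] using congrArg star e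
  refine ⟨v, ?_, e', fun y hy => ?_, d⟩
  · rintro rfl
    exact hx (by rw [← b, zero_mul, zero_mul])
  · rw [← e', ← mul_assoc, c y hy, zero_mul]

theorem dich (hA : _root_.Lib.MP_08bba9_an.W.Add M) (hR : PolR M) (hT : TrIn M) :
    ∃ zf : M, IsStarProjection zf ∧ (∀ a, zf * a = a * zf) ∧
      (∃ t : ℕ → M, (∀ i, star (t i) * t i = 1 - zf) ∧ (∀ i, (1 - zf) * t i = t i) ∧
        ∀ i j, i ≠ j → star (t i) * t j = 0) ∧
      ∀ U : Set M, IsUltra U → zf ∈ U → ∃ τ : M →L[ℂ] ℂ, K.Hyp U τ := by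
  have hC := cmp_of hA hR.pol
  obtain ⟨zf, z1, z2, z3, ht⟩ := fin_half proper_of hA hC
  refine ⟨zf, z1, z2, ht, fun U hU hf => ?_⟩
  obtain ⟨τ, a, -, c, d, e, f⟩ := finBridge U hU.one hU.zero hU.mul
    (fun z hz => ⟨hU.proj z hz, hU.cen z hz⟩) hU.tot hf
    (fun p q hp hq => join_of_polar hR hp hq) hC
    fun z h1 h2 h3 h4 => hT z h1 h2 h3 (Fint.sub proper_of z1 z3 h1 h4)
  exact ⟨τ, hU.proj, hU.cen, hU.one, hU.mul, d, c, fun x => (Complex.nonneg_iff.1 (a x)).1,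
    Br.herm a, e, f⟩

end abstract

variable {H : Type*} [NormedAddCommGroup H] [InnerProductSpace ℂ H] [CompleteSpace H]
  {M : StarSubalgebra ℂ (H →L[ℂ] H)}

theorem IsVN.polR (hM : IsVN M) : PolR M := fun T => by
  obtain ⟨v, hv, h1, h2, -⟩ := hM.polar T.2
  have pv : PI v := PI.of_fin (h2 ▸ lp_proj _)
  have e : ((⟨v, hv⟩ * star ⟨v, hv⟩ : M) : H →L[ℂ] H) = lp T := h2
  refine ⟨⟨v, hv⟩, ⟨Subtype.ext pv.fin.isIdempotentElem.eq,
    Subtype.ext pv.fin.isSelfAdjoint.star_eq⟩, Subtype.ext ?_, fun x hx => Subtype.ext ?_,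
    fun x hx => Subtype.ext ?_⟩
  · rw [MulMemClass.coe_mul, e]
    exact lp_mul _
  · rw [MulMemClass.coe_mul, e]
    exact mul_lp_eq_zero (congrArg Subtype.val hx)
  · have h3 : star (x : H →L[ℂ] H) * star (T : H →L[ℂ] H) = 0 :=
      star_zero_of (congrArg Subtype.val hx)
    have h4 := star_zero_of (mul_lp_eq_zero h3)
    rw [star_star, (lp_proj _).isSelfAdjoint.star_eq, ← h1] at h4
    change v * (x : H →L[ℂ] H) = 0
    rw [← pv.mul_init, mul_assoc, h4, mul_zero]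

/-- The C*-algebra structure on a strongly closed star subalgebra. -/
@[reducible] noncomputable def IsVN.cstar (hM : IsVN M) : CStarAlgebra M :=
  haveI : IsClosed (M : Set (H →L[ℂ] H)) := hM.isClosed
  inferInstance

theorem IsVN.dich (hM : IsVN M) : letI := hM.cstar; TrIn M → K.RK M ∧
    ∃ zf : M, IsStarProjection zf ∧ (∀ a, zf * a = a * zf) ∧
      (∃ t : ℕ → M, (∀ i, star (t i) * t i = 1 - zf) ∧ (∀ i, (1 - zf) * t i = t i) ∧
        ∀ i j, i ≠ j → star (t i) * t j = 0) ∧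
      ∀ U : Set M, IsUltra U → zf ∈ U → ∃ τ : M →L[ℂ] ℂ, K.Hyp U τ :=
  letI := hM.cstar
  fun hT => ⟨hM.polR.rk, W.dich hM.hAdd hM.polR hT⟩

end Pool.Agent.Lib.MP_08bba9_an.W
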