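import Pool.Agent.Lib.MP_08bba9_an.W.Vn2

/-! Projection layer: suprema, chains, orthogonal sums, exhaustion, comparison. -/

set_option linter.unusedSectionVars false

noncomputable section

namespace Pool.Agent.Lib.MP_08bba9_an.W

open Filter Topology
open scoped InnerProductSpace ComplexOrder

universe u
variable {H : Type u} [NormedAddCommGroup H] [InnerProductSpace ℂ H] [CompleteSpace H]
variable {M : StarSubalgebra ℂ (H →L[ℂ] H)}

theorem PI.init_le {v w : H →L[ℂ] H} (hv : PI v) (hw : PI w) (h : w * (Star.star v * v) = v) :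
    (Star.star w * w) * (Star.star v * v) = Star.star v * v := by
  have p1 := hv.init.isIdempotentElem.eq
  have s1 := hv.init.isSelfAdjoint.star_eq
  have q1 := hw.init.isIdempotentElem.eq
  have t1 := hw.init.isSelfAdjoint.star_eq
  have e : (Star.star v * v) * (Star.star w * w) * (Star.star v * v) = Star.star v * v := by
    have : Star.star (w * (Star.star v * v)) * (w * (Star.star v * v)) = Star.star v * v := by
      rw [h]
    rw [star_mul, s1] at this
    rw [← this]
    conv_lhs => rw [this]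
    noncomm_ring
  generalize Star.star v * v = p at *
  generalize Star.star w * w = q at *
  have h2 : Star.star (p - q * p) * (p - q * p) = 0 := by
    have e2 : Star.star (p - q * p) * (p - q * p) =
        p * p - p * q * p - p * q * p + p * (q * q) * p := by
      rw [star_sub, star_mul, s1, t1]; noncomm_ring
    rw [e2, q1, e, p1]; abel
  exact (sub_eq_zero.1 ((CStarRing.star_mul_self_eq_zero_iff _).1 h2)).symm

theorem PI.ext_star {v w : H →L[ℂ] H} (hv : PI v) (hw : PI w) (h : w * (Star.star v * v) = v) :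
    Star.star w * (v * Star.star v) = Star.star v := by
  have e : Star.star w * v = Star.star v * v := by
    conv_lhs => rw [← h]
    rw [← mul_assoc, hv.init_le hw h]
  rw [← mul_assoc, e]
  simpa using hv.star.fin_mul

theorem PI.ext_trans {u v w : H →L[ℂ] H} (hu : PI u) (hv : PI v) (h1 : v * (Star.star u * u) = u)
    (h2 : w * (Star.star v * v) = v) : w * (Star.star u * u) = u := by
  rw [← hu.init_le hv h1, ← mul_assoc, h2, h1]

theorem PI.add {v y : H →L[ℂ] H} (hv : PI v) (hy : PI y) (h1 : Star.star v * y = 0)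
    (h2 : v * Star.star y = 0) : PI (v + y) ∧
    Star.star (v + y) * (v + y) = Star.star v * v + Star.star y * y ∧
    (v + y) * Star.star (v + y) = v * Star.star v + y * Star.star y := by
  have h3 : Star.star y * v = 0 := by simpa using congrArg Star.star h1
  have h4 : y * Star.star v = 0 := by simpa using congrArg Star.star h2
  have e1 : Star.star (v + y) * (v + y) = Star.star v * v + Star.star y * y := by
    rw [star_add, add_mul, mul_add, mul_add, h1, h3]; abel
  have e2 : (v + y) * Star.star (v + y) = v * Star.star v + y * Star.star y := by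
    rw [star_add, add_mul, mul_add, mul_add, h2, h4]; abel
  refine ⟨?_, e1, e2⟩
  rw [PI, e2, add_mul, mul_add, mul_add, hv.fin_mul, hy.fin_mul, mul_assoc, h1, mul_assoc, h3]
  simp

theorem exists_slim_pi {ι : Type*} {l : Filter ι} [l.NeBot] (v : ι → H →L[ℂ] H)
    (hp : ∀ i, PI (v i)) (he : ∀ i, ∀ᶠ j in l, v j * (star (v i) * v i) = v i) :
    ∃ w, SLim l v w := by
  refine exists_slim (fun i => (hp i).norm_le)
    (⨆ i, LinearMap.range ((star (v i) * v i : H →L[ℂ] H) : H →ₗ[ℂ] H)) (fun ξ hξ => ?_)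
    fun ξ hξ => ⟨0, ?_⟩
  · refine Submodule.iSup_induction _ (motive := fun ξ => ∃ η, Tendsto (fun i => v i ξ) l (𝓝 η))
      hξ ?_ ⟨0, by simp⟩ ?_
    · rintro i _ ⟨η, rfl⟩
      refine ⟨v i η, tendsto_const_nhds.congr' ?_⟩
      filter_upwards [he i] with j hj
      exact (DFunLike.congr_fun hj η).symm
    · rintro x y ⟨a, ha⟩ ⟨b, hb⟩
      exact ⟨a + b, by simpa using ha.add hb⟩
  · have : ∀ i, v i ξ = 0 := fun i => by
      have h1 := Submodule.orthogonal_le (le_iSup (fun i => LinearMap.range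
        ((star (v i) * v i : H →L[ℂ] H) : H →ₗ[ℂ] H)) i) hξ
      rw [mem_range_orth, (hp i).init.isSelfAdjoint.star_eq] at h1
      exact Pol.apply_eq_zero h1
    simp [this]

/-- limit of a family of partial isometries that eventually extend each member -/
theorem IsVN.chain' (hM : IsVN M) {ι : Type*} (l : Filter ι) [l.NeBot] (v : ι → H →L[ℂ] H)
    (hv : ∀ i, v i ∈ M) (hp : ∀ i, PI (v i))
    (he : ∀ i, ∀ᶠ j in l, v j * (star (v i) * v i) = v i) :
    ∃ w ∈ M, PI w ∧ (∀ i, w * (star (v i) * v i) = v i) ∧ SLim l v w ∧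
      SLim l (fun i => star (v i)) (star w) := by
  obtain ⟨w, hw⟩ := exists_slim_pi v hp he
  obtain ⟨w', hw'⟩ := exists_slim_pi (l := l) (fun i => star (v i)) (fun i => (hp i).star)
    fun i => by
      filter_upwards [he i] with j hj
      simpa using (hp i).ext_star (hp j) hj
  obtain rfl := hw.star_eq hw'
  have n1 : ∀ i, ‖v i‖ ≤ 1 := fun i => (hp i).norm_le
  refine ⟨w, hM.mem_of_slim hv n1 hw hw', ?_, fun i => ?_, hw, hw'⟩
  · have a := SLim.mul (C := 1) (fun i => proj_norm_le (hp i).fin) (SLim.mul n1 hw hw') hw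
    exact a.unique (hw.congr' (Eventually.of_forall fun i => (hp i).fin_mul.symm))
  · exact (hw.mul_const _).unique ((SLim.const (v i)).congr' (by
      filter_upwards [he i] with j hj using hj.symm))

/-- upper bound of a directed family of partial isometries -/
theorem IsVN.chain (hM : IsVN M) {ι : Type*} [Nonempty ι] (r : ι → ι → Prop)
    (hd : ∀ i j, ∃ k, r i k ∧ r j k) (ht : ∀ i j k, r i j → r j k → r i k)
    (v : ι → H →L[ℂ] H) (hv : ∀ i, v i ∈ M) (hp : ∀ i, PI (v i))
    (he : ∀ i j, r i j → v j * (star (v i) * v i) = v i) :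
    ∃ w ∈ M, PI w ∧ (∀ i, w * (star (v i) * v i) = v i) ∧ ∃ l : Filter ι, l.NeBot ∧
      (∀ i, ∀ᶠ j in l, r i j) ∧ SLim l v w ∧ SLim l (fun i => star (v i)) (star w) := by
  let l : Filter ι := ⨅ i, 𝓟 {j | r i j}
  have hl : l.NeBot := by
    refine iInf_neBot_of_directed' (fun i j => ?_) fun i => ?_
    · obtain ⟨k, h1, h2⟩ := hd i j
      exact ⟨k, principal_mono.2 fun a ha => ht _ _ _ h1 ha,
        principal_mono.2 fun a ha => ht _ _ _ h2 ha⟩
    · obtain ⟨k, h1, -⟩ := hd i i
      exact principal_neBot_iff.2 ⟨k, h1⟩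
  have hr : ∀ i, ∀ᶠ j in l, r i j := fun i => mem_iInf_of_mem i (mem_principal_self _)
  obtain ⟨w, hw, a, b, c, d⟩ := hM.chain' l v hv hp fun i => (hr i).mono fun j hj => he i j hj
  exact ⟨w, hw, a, b, l, hl, hr, c, d⟩

theorem IsVN.join_finset (hM : IsVN M) {ι : Type*} (p : ι → H →L[ℂ] H) (hp : ∀ i, Pj M (p i))
    (J : Finset ι) : ∃ r, Pj M r ∧ (∀ i ∈ J, r * p i = p i) ∧
      ∀ y : H →L[ℂ] H, (∀ i ∈ J, y * p i = 0) → y * r = 0 := by
  classical
  induction J using Finset.induction_on with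
  | empty => exact ⟨0, Pj.zero, by simp, by simp⟩
  | insert a J _ ih =>
    obtain ⟨r, h1, h2, h3⟩ := ih
    obtain ⟨s, k1, k2, k3, -, k4⟩ := hM.join h1 (hp a)
    refine ⟨s, k1, fun i hi => ?_, fun y hy => ?_⟩
    · rcases Finset.mem_insert.1 hi with rfl | hi
      · exact k3
      · rw [← h2 i hi, ← mul_assoc, k2]
    · exact k4 y (h3 y fun i hi => hy i (Finset.mem_insert_of_mem hi))
        (hy a (Finset.mem_insert_self _ _))

/-- supremum of any set of projections -/
theorem IsVN.exists_sup (hM : IsVN M) (S : Set (H →L[ℂ] H)) (hS : ∀ p ∈ S, Pj M p) :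
    ∃ r, Pj M r ∧ (∀ p ∈ S, r * p = p) ∧
      ∀ y : H →L[ℂ] H, (∀ p ∈ S, y * p = 0) → y * r = 0 := by
  classical
  choose r h1 h2 h3 using hM.join_finset (fun p : S => (p : H →L[ℂ] H)) fun p => hS p p.2
  obtain ⟨w, hw, -, b, c, d⟩ := hM.chain' (atTop : Filter (Finset S)) r (fun J => (h1 J).1)
    (fun J => PI.of_proj (h1 J).2) fun J => by
      filter_upwards [eventually_ge_atTop J] with J' hJ
      rw [(h1 J).star_eq, (h1 J).idem]
      have := h3 J (1 - r J') fun i hi => by rw [sub_mul, one_mul, h2 J' i (hJ hi), sub_self]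
      rw [sub_mul, one_mul, sub_eq_zero] at this
      exact this.symm
  have e1 : star w = w := d.unique (c.congr' (Eventually.of_forall fun J => (h1 J).star_eq.symm))
  have e2 : w * w = w := (SLim.mul (fun J => proj_norm_le (h1 J).2) c c).unique
    (c.congr' (Eventually.of_forall fun J => (h1 J).idem.symm))
  refine ⟨w, ⟨hw, e2, e1⟩, fun p hp => ?_, fun y hy => ?_⟩
  · refine (c.mul_const p).unique ((SLim.const p).congr' ?_)
    filter_upwards [eventually_ge_atTop ({⟨p, hp⟩} : Finset S)] with J hJ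
    exact (h2 J ⟨p, hp⟩ (hJ (Finset.mem_singleton_self _))).symm
  · exact (c.const_mul y).unique ((SLim.const 0).congr'
      (Eventually.of_forall fun J => (h3 J y fun i _ => hy i i.2).symm))

theorem sum_pi {ι : Type*} (v : ι → H →L[ℂ] H) (hp : ∀ i, PI (v i))
    (h1 : ∀ i j, i ≠ j → star (v i) * v j = 0) (h2 : ∀ i j, i ≠ j → v i * star (v j) = 0)
    (J : Finset ι) : PI (∑ i ∈ J, v i) ∧
      star (∑ i ∈ J, v i) * (∑ i ∈ J, v i) = ∑ i ∈ J, star (v i) * v i ∧
      (∑ i ∈ J, v i) * star (∑ i ∈ J, v i) = ∑ i ∈ J, v i * star (v i) := by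
  classical
  induction J using Finset.induction_on with
  | empty => simp [PI]
  | insert a J ha ih =>
    simp only [Finset.sum_insert ha]
    have := (hp a).add ih.1 (by
      rw [Finset.mul_sum]
      exact Finset.sum_eq_zero fun i hi => h1 a i fun e => ha (e ▸ hi)) (by
      rw [star_sum, Finset.mul_sum]
      exact Finset.sum_eq_zero fun i hi => h2 a i fun e => ha (e ▸ hi))
    rwa [ih.2.1, ih.2.2] at this

theorem sum_mul_init {ι : Type*} (v : ι → H →L[ℂ] H) (hp : ∀ i, PI (v i))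
    (h2 : ∀ i j, i ≠ j → v i * star (v j) = 0) {J : Finset ι} {a : ι} (ha : a ∈ J) :
    (∑ i ∈ J, v i) * (star (v a) * v a) = v a := by
  rw [Finset.sum_mul, Finset.sum_eq_single_of_mem a ha fun i _ hi => by
    rw [← mul_assoc, h2 i a hi, zero_mul]]
  exact (hp a).mul_init

theorem sum_ext {ι : Type*} (v : ι → H →L[ℂ] H) (hp : ∀ i, PI (v i))
    (h1 : ∀ i j, i ≠ j → star (v i) * v j = 0) (h2 : ∀ i j, i ≠ j → v i * star (v j) = 0)
    {J J' : Finset ι} (h : J ⊆ J') :
    (∑ i ∈ J', v i) * (star (∑ i ∈ J, v i) * ∑ i ∈ J, v i) = ∑ i ∈ J, v i := by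
  rw [(sum_pi v hp h1 h2 J).2.1, Finset.mul_sum]
  exact Finset.sum_congr rfl fun a ha => sum_mul_init v hp h2 (h ha)

/-- strong sum of any orthogonal family of partial isometries -/
theorem IsVN.oadd (hM : IsVN M) {ι : Type*} (v : ι → H →L[ℂ] H) (hv : ∀ i, v i ∈ M)
    (hp : ∀ i, PI (v i)) (h1 : ∀ i j, i ≠ j → star (v i) * v j = 0)
    (h2 : ∀ i j, i ≠ j → v i * star (v j) = 0) :
    ∃ s ∈ M, PI s ∧ (∀ i, s * (star (v i) * v i) = v i) ∧ (∀ i, v i * star (v i) * s = v i) ∧
      (∀ x : H →L[ℂ] H, (∀ i, x * v i = 0) → x * s = 0) ∧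
      (∀ x : H →L[ℂ] H, (∀ i, v i * x = 0) → s * x = 0) ∧
      (∀ ξ, HasSum (fun i => v i ξ) (s ξ)) ∧ (∀ ξ, HasSum (fun i => star (v i) ξ) (star s ξ)) ∧
      (∀ ξ, HasSum (fun i => (star (v i) * v i) ξ) ((star s * s) ξ)) ∧
      ∀ ξ, HasSum (fun i => (v i * star (v i)) ξ) ((s * star s) ξ) := by
  classical
  have P := sum_pi v hp h1 h2
  obtain ⟨s, hs, a, b, c, d⟩ := hM.chain' (atTop : Filter (Finset ι)) (fun J => ∑ i ∈ J, v i)
    (fun J => sum_mem fun i _ => hv i) (fun J => (P J).1) fun J => by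
      filter_upwards [eventually_ge_atTop J] with J' hJ using sum_ext v hp h1 h2 hJ
  have b1 : ∀ i, s * (star (v i) * v i) = v i := fun i => by simpa using b {i}
  refine ⟨s, hs, a, b1, fun i => ?_, fun x hx => ?_, fun x hx => ?_, fun ξ => ?_, fun ξ => ?_,
    fun ξ => ?_, fun ξ => ?_⟩
  · simpa [mul_assoc] using congrArg star ((hp i).ext_star a (b1 i))
  · exact (c.const_mul x).unique ((SLim.const 0).congr' (Eventually.of_forall fun J => by
      simp [Finset.mul_sum, hx]))
  · exact (c.mul_const x).unique ((SLim.const 0).congr' (Eventually.of_forall fun J => by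
      simp [Finset.sum_mul, hx]))
  · simpa [HasSum] using c ξ
  · simpa [HasSum, star_sum] using d ξ
  · have := SLim.mul (C := 1) (fun J => (P J).1.star.norm_le) d c ξ
    simp only [(P _).2.1] at this
    simpa [HasSum] using this
  · have := SLim.mul (C := 1) (fun J => (P J).1.norm_le) c d ξ
    simp only [(P _).2.2] at this
    simpa [HasSum] using this

/-- (ADD) the same for a set -/
theorem IsVN.add_set (hM : IsVN M) (S : Set (H →L[ℂ] H)) (hv : ∀ v ∈ S, v ∈ M)
    (hp : ∀ v ∈ S, v * star v * v = v)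
    (ho : ∀ v ∈ S, ∀ w ∈ S, v ≠ w → star v * w = 0 ∧ v * star w = 0) :
    ∃ s ∈ M, (∀ v ∈ S, s * (star v * v) = v ∧ v * star v * s = v) ∧
      (∀ x : H →L[ℂ] H, (∀ v ∈ S, x * v = 0) → x * s = 0) ∧
      ∀ x : H →L[ℂ] H, (∀ v ∈ S, v * x = 0) → s * x = 0 := by
  obtain ⟨s, hs, -, a, b, c, d, -⟩ := hM.oadd (fun v : S => (v : H →L[ℂ] H)) (fun v => hv v v.2)
    (fun v => hp v v.2) (fun i j h => (ho i i.2 j j.2 fun e => h (Subtype.ext e)).1)
    fun i j h => (ho i i.2 j j.2 fun e => h (Subtype.ext e)).2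
  exact ⟨s, hs, fun v h => ⟨a ⟨v, h⟩, b ⟨v, h⟩⟩, fun x hx => c x fun i => hx i i.2,
    fun x hx => d x fun i => hx i i.2⟩

/-- sum of a sequence of partial isometries with orthogonal initial and final projections -/
theorem IsVN.osum (hM : IsVN M) (v : ℕ → H →L[ℂ] H) (hv : ∀ i, v i ∈ M) (hp : ∀ i, PI (v i))
    (h1 : ∀ i j, i ≠ j → star (v i) * v j = 0) (h2 : ∀ i j, i ≠ j → v i * star (v j) = 0) :
    ∃ w ∈ M, PI w ∧ SLim atTop (fun n => ∑ i ∈ Finset.range n, v i) w ∧
      SLim atTop (fun n => star (∑ i ∈ Finset.range n, v i)) (star w) ∧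
      SLim atTop (fun n => ∑ i ∈ Finset.range n, star (v i) * v i) (star w * w) ∧
      SLim atTop (fun n => ∑ i ∈ Finset.range n, v i * star (v i)) (w * star w) := by
  obtain ⟨s, hs, a, -, -, -, -, b, c, d, e⟩ := hM.oadd v hv hp h1 h2
  refine ⟨s, hs, a, fun ξ => ?_, fun ξ => ?_, fun ξ => ?_, fun ξ => ?_⟩
  · simpa using (b ξ).tendsto_sum_nat
  · simpa [star_sum] using (c ξ).tendsto_sum_nat
  · simpa using (d ξ).tendsto_sum_nat
  · simpa using (e ξ).tendsto_sum_nat

theorem norm_add_sq_of {v y : H →L[ℂ] H} (h : star v * y = 0) (ξ : H) :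
    ‖(v + y) ξ‖ ^ 2 = ‖v ξ‖ ^ 2 + ‖y ξ‖ ^ 2 := by
  have : ⟪v ξ, y ξ⟫_ℂ = 0 := by
    rw [← ContinuousLinearMap.adjoint_inner_right, ← ContinuousLinearMap.star_eq_adjoint]
    change ⟪ξ, (star v * y) ξ⟫_ℂ = 0
    rw [h]; simp
  rw [add_apply, sq, sq, sq]
  exact norm_add_sq_eq_norm_sq_add_norm_sq_of_inner_eq_zero _ _ this

/-- Lemma Z: exhaustion with a vector state (`a = b = 0` gives the plain maximal element) -/
theorem IsVN.exhaust (hM : IsVN M) {p q : H →L[ℂ] H} (hp : Pj M p) (hq : Pj M q) (ξ : H)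
    (a b : ℝ) : ∃ v ∈ M, PI v ∧ v * p = v ∧ q * v = v ∧
      a * ‖star v ξ‖ ^ 2 ≤ b * ‖v ξ‖ ^ 2 ∧
      ∀ y ∈ M, PI y → y * (p - star v * v) = y → (q - v * star v) * y = y → y ≠ 0 →
        b * ‖y ξ‖ ^ 2 < a * ‖star y ξ‖ ^ 2 := by
  let D : (H →L[ℂ] H) → ℝ := fun v => b * ‖v ξ‖ ^ 2 - a * ‖star v ξ‖ ^ 2
  let X := {v : H →L[ℂ] H // v ∈ M ∧ PI v ∧ v * p = v ∧ q * v = v ∧ 0 ≤ D v}
  let r : X → X → Prop := fun v w => w.1 * (star v.1 * v.1) = v.1 ∧ D v.1 ≤ D w.1
  have : Nonempty X := ⟨⟨0, zero_mem _, by simp [PI], by simp, by simp, by simp [D]⟩⟩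
  have tr : ∀ {u v w : X}, r u v → r v w → r u w := fun {u v w} h1 h2 =>
    ⟨u.2.2.1.ext_trans v.2.2.1 h1.1 h2.1, h1.2.trans h2.2⟩
  have rf : ∀ u : X, r u u := fun u => ⟨u.2.2.1.mul_init, le_rfl⟩
  obtain ⟨m, hm⟩ := exists_maximal_of_nonempty_chains_bounded (r := r) (fun c hc hne => by
    have : Nonempty c := hne.to_subtype
    obtain ⟨w, hw, k1, k2, l, hl, k3, k4, k5⟩ := hM.chain (ι := c) (fun i j => r i.1 j.1)
      (fun i j => by
        by_cases e : i.1 = j.1
        · exact ⟨j, e ▸ rf _, rf _⟩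
        · rcases hc i.2 j.2 e with h | h
          · exact ⟨j, h, rf _⟩
          · exact ⟨i, rf _, h⟩)
      (fun i j k h1 h2 => tr h1 h2) (fun i => i.1.1) (fun i => i.1.2.1) (fun i => i.1.2.2.1)
      fun i j h => h.1
    have hD : Tendsto (fun i : c => D i.1.1) l (𝓝 (D w)) :=
      (((k4 ξ).norm.pow 2).const_mul b).sub (((k5 ξ).norm.pow 2).const_mul a)
    have hle : ∀ i : c, D i.1.1 ≤ D w := fun i =>
      ge_of_tendsto hD ((k3 i).mono fun j hj => hj.2)
    obtain ⟨i₀⟩ := ‹Nonempty c›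
    refine ⟨⟨w, hw, k1, ?_, ?_, i₀.1.2.2.2.2.2.trans (hle i₀)⟩,
      fun v hv => ⟨k2 ⟨v, hv⟩, hle ⟨v, hv⟩⟩⟩
    · exact (k4.mul_const p).unique (k4.congr' (Eventually.of_forall fun i => i.1.2.2.2.1.symm))
    · exact (k4.const_mul q).unique
        (k4.congr' (Eventually.of_forall fun i => i.1.2.2.2.2.1.symm))) tr
  obtain ⟨v, hv, pv, e1, e2, e3⟩ := m
  refine ⟨v, hv, pv, e1, e2, sub_nonneg.1 e3, fun y hy py f1 f2 y0 => ?_⟩
  by_contra hlt
  have hDy : 0 ≤ D y := sub_nonneg.2 (not_lt.1 hlt)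
  have i1 := pv.pj_init hv
  have i2 := pv.pj_fin hv
  have g1 : (star v * v) * p = star v * v := by rw [mul_assoc, e1]
  have g1' : p * (star v * v) = star v * v := by
    have := congrArg star g1
    rwa [star_mul, hp.star_eq, i1.star_eq] at this
  have g2 : q * (v * star v) = v * star v := by rw [← mul_assoc, e2]
  have g2' : (v * star v) * q = v * star v := i2.flip hq g2
  have o1 : star v * y = 0 := by
    have : star v * (q - v * star v) = 0 := by
      have e : star v * q = star v := by simpa [hq.star_eq] using congrArg star e2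
      have e' : star v * (v * star v) = star v := by simpa using pv.star.mul_init
      rw [mul_sub, e, e', sub_self]
    rw [← f2, ← mul_assoc, this, zero_mul]
  have o3 : y * (star v * v) = 0 := by
    rw [← f1, mul_assoc, sub_mul, g1', i1.idem, sub_self, mul_zero]
  have o4 : y * star v = 0 := by
    have e' : (star v * v) * star v = star v := by simpa using pv.star.fin_mul
    rw [← e', ← mul_assoc, o3, zero_mul]
  have o2 : v * star y = 0 := by simpa using congrArg star o4
  have s := pv.add py o1 o2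
  have hD : D (v + y) = D v + D y := by
    simp only [D]
    rw [norm_add_sq_of o1, star_add, norm_add_sq_of (v := star v) (y := star y) (by simpa using o2)]
    ring
  have m1 : (v + y) * p = v + y := by
    have : y * p = y := by
      conv_lhs => rw [← f1]
      rw [mul_assoc, sub_mul, hp.idem, g1, f1]
    rw [add_mul, e1, this]
  have m2 : q * (v + y) = v + y := by
    have : q * y = y := by
      conv_lhs => rw [← f2]
      rw [← mul_assoc, mul_sub, hq.idem, g2, f2]
    rw [mul_add, e2, this]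
  have := (hm ⟨v + y, add_mem hv hy, s.1, m1, m2, by rw [hD]; exact add_nonneg e3 hDy⟩
    ⟨by
      change (v + y) * (star v * v) = v
      rw [add_mul, pv.mul_init, o3, add_zero], by
      change D v ≤ D (v + y)
      rw [hD]; linarith⟩).1
  change v * (star (v + y) * (v + y)) = v + y at this
  rw [s.2.1, mul_add, pv.mul_init, ← mul_assoc, o2, zero_mul] at this
  exact y0 (add_left_cancel this).symm

/-- central cover of a projection -/
theorem IsVN.cover (hM : IsVN M) {e : H →L[ℂ] H} (he : Pj M e) :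
    ∃ z, Cen M z ∧ z * e = e ∧ ∀ y : H →L[ℂ] H, (∀ x ∈ M, y * (x * e) = 0) → y * z = 0 := by
  obtain ⟨z, h1, h2, h3⟩ := hM.exists_sup {p | ∃ x ∈ M, p = lp (x * e)} (by
    rintro _ ⟨x, hx, rfl⟩
    exact hM.lp_pj (mul_mem hx he.1))
  have k1 : ∀ x ∈ M, z * (x * e) = x * e := fun x hx => by
    conv_lhs => rw [← lp_mul (x * e)]
    rw [← mul_assoc, h2 _ ⟨x, hx, rfl⟩, lp_mul]
  have k2 : ∀ y : H →L[ℂ] H, (∀ x ∈ M, y * (x * e) = 0) → y * z = 0 := fun y hy => h3 y (by
    rintro _ ⟨x, hx, rfl⟩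
    exact mul_lp_eq_zero (hy x hx))
  have k3 : ∀ a ∈ M, z * a * z = a * z := fun a ha => by
    have := k2 ((1 - z) * a) fun x hx => by
      rw [mul_assoc, ← mul_assoc a, sub_mul, one_mul, k1 _ (mul_mem ha hx), sub_self]
    rw [sub_mul, sub_mul, one_mul, sub_eq_zero] at this
    exact this.symm
  refine ⟨z, ⟨h1, fun a ha => ?_⟩, by simpa using k1 1 (one_mem _), k2⟩
  have := congrArg star (k3 (star a) (star_mem ha))
  simp only [star_mul, star_star, h1.star_eq] at this
  rw [← this, ← mul_assoc, k3 a ha]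

/-- (CMP) -/
theorem IsVN.cmp (hM : IsVN M) {p q : H →L[ℂ] H} (hp : Pj M p) (hq : Pj M q) :
    ∃ z, Cen M z ∧ Sub M (z * p) (z * q) ∧ Sub M ((1 - z) * q) ((1 - z) * p) := by
  obtain ⟨v, hv, pv, e1, e2, -, hmax⟩ := hM.exhaust hp hq 0 0 0
  have i1 := pv.pj_init hv
  have i2 := pv.pj_fin hv
  have g1 : p * (star v * v) = star v * v := by
    have := congrArg star (show (star v * v) * p = star v * v by rw [mul_assoc, e1])
    rwa [star_mul, hp.star_eq, i1.star_eq] at this
  have g2 : q * (v * star v) = v * star v := by rw [← mul_assoc, e2]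
  have hp' := i1.sub hp g1
  have hq' := i2.sub hq g2
  have h0 : ∀ x ∈ M, (q - v * star v) * x * (p - star v * v) = 0 := fun x hx => by
    by_contra hne
    obtain ⟨y, hy, y0, py, a, b⟩ := hM.pol (mul_mem (mul_mem hq'.1 hx) hp'.1) hne
    have a' := a (1 - (q - v * star v)) (by
      rw [← mul_assoc, ← mul_assoc, hq'.2.one_sub_mul_self, zero_mul, zero_mul])
    have b' := b (1 - (p - star v * v)) (by rw [mul_assoc, hp'.2.mul_one_sub_self, mul_zero])
    rw [sub_mul, one_mul, sub_eq_zero] at a'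
    rw [mul_sub, mul_one, sub_eq_zero] at b'
    simpa using hmax y hy py b'.symm a'.symm y0
  obtain ⟨z, hz, z1, z2⟩ := hM.cover hq'
  have z3 : (p - star v * v) * z = 0 := z2 _ fun x hx => by
    have := congrArg star (h0 (star x) (star_mem hx))
    simpa only [star_mul, star_star, hp'.star_eq, hq'.star_eq, star_zero] using this
  refine ⟨z, hz, ?_, ?_⟩
  · have : z * p = z * (star v * v) := by
      rw [hz.2 _ hp'.1, mul_sub, sub_eq_zero] at z3
      exact z3
    rw [this]
    exact Sub.cen_mul ⟨v, hv, rfl, e2⟩ hz hq.1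
  · have : (1 - z) * q = (1 - z) * (v * star v) := by
      rw [← sub_eq_zero, ← mul_sub, sub_mul, one_mul, z1, sub_self]
    rw [this]
    refine Sub.cen_mul ⟨star v, star_mem hv, by rw [star_star], ?_⟩ hz.one_sub hp.1
    simpa [hp.star_eq] using congrArg star e1

end Pool.Agent.Lib.MP_08bba9_an.W
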