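import Pool.Agent.Lib.MP_08bba9_an.W.TrC
import Pool.Agent.Lib.MP_08bba9_an.W.Vn3
import Pool.Agent.Lib.MP_08bba9_an.W.Dich

/-! Approximate traces, part D: the operator algebra case. -/

noncomputable section

namespace Pool.Agent.Lib.MP_08bba9_an.W

open Filter Topology
open scoped InnerProductSpace ComplexOrder
open _root_.Lib.MP_08bba9_an.W (Fint)

variable {H : Type*} [NormedAddCommGroup H] [InnerProductSpace ℂ H] [CompleteSpace H]
variable {M : StarSubalgebra ℂ (H →L[ℂ] H)}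

/-- the vector functional of `ξ` on `M` -/
def vecF (M : StarSubalgebra ℂ (H →L[ℂ] H)) (ξ : H) : M →L[ℂ] ℂ :=
  ((innerSL ℂ ξ).comp (ContinuousLinearMap.apply ℂ H ξ)).comp
    (M.toSubalgebra.toSubmodule.subtypeL)

theorem vecF_apply (ξ : H) (x : M) : vecF M ξ x = ⟪ξ, (x : H →L[ℂ] H) ξ⟫_ℂ := rfl

theorem vecF_sq (ξ : H) (x : M) :
    vecF M ξ (star x * x) = ((‖(x : H →L[ℂ] H) ξ‖ ^ 2 : ℝ) : ℂ) := by
  rw [vecF_apply]
  change ⟪ξ, (star (x : H →L[ℂ] H)) ((x : H →L[ℂ] H) ξ)⟫_ℂ = _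
  rw [ContinuousLinearMap.star_eq_adjoint, ContinuousLinearMap.adjoint_inner_right,
    inner_self_eq_norm_sq_to_K]
  simp

/-- (TR) -/
theorem IsVN.trIn (hM : IsVN M) : letI := hM.cstar; TrIn M := by
  let _ := hM.cstar
  intro z hz hc z0 hf ε hε
  let _ := CStarAlgebra.spectralOrder M
  have := CStarAlgebra.spectralOrderedRing M
  obtain ⟨ξ, hξ⟩ : ∃ ξ, (z : H →L[ℂ] H) ξ ≠ 0 := by
    by_contra hn
    push Not at hn
    exact z0 (Subtype.ext (ContinuousLinearMap.ext hn))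
  have hsq : ∀ x : M, 0 ≤ vecF M ξ (star x * x) := fun x => by
    rw [vecF_sq]; exact Complex.zero_le_real.2 (sq_nonneg _)
  refine Tr.Hyp.approx (r := vecF M ξ) ⟨hz, hc, fun c h0 => Br.pos_of hsq h0, ?_, hM.rk_coe,
    fun x => ?_, fun p q hp hq => ?_, fun q v hq h1 h2 h3 => ?_, fun C hne hP hch => ?_⟩ hε
  · have := vecF_sq ξ z
    rw [hz.isSelfAdjoint.star_eq, hz.isIdempotentElem.eq] at this
    rw [this, Complex.ofReal_re]
    exact pow_pos (norm_pos_iff.2 hξ) 2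
  · obtain ⟨v, hv, h1, h2, h3, -⟩ := hM.polar x.2
    have pv : PI v := PI.of_fin (h2 ▸ lp_proj _)
    refine ⟨⟨v, hv⟩, Subtype.ext pv.mul_init, Subtype.ext ?_, Subtype.ext ?_,
      fun y hy => Subtype.ext ?_, fun y hy => Subtype.ext ?_⟩
    · change star v * v * (star (x : H →L[ℂ] H) * x) = star (x : H →L[ℂ] H) * x
      rw [h1, ← mul_assoc, lp_mul]
    · change v * (star (x : H →L[ℂ] H) * x) * star v = x * star (x : H →L[ℂ] H)
      have h4 := congrArg star h3
      rw [star_mul, Pol.abs_sa] at h4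
      conv_lhs => rw [← Pol.abs_sq]
      rw [← mul_assoc, h3, mul_assoc, h4]
    · change (y : H →L[ℂ] H) * v = 0
      rw [← pv.fin_mul, h2, ← mul_assoc, mul_lp_eq_zero (congrArg Subtype.val hy), zero_mul]
    · change v * (y : H →L[ℂ] H) = 0
      have h4 : star (y : H →L[ℂ] H) * star (x : H →L[ℂ] H) = 0 := by
        rw [← star_mul, show (x : H →L[ℂ] H) * y = 0 from congrArg Subtype.val hy, star_zero]
      have h5 := congrArg star (mul_lp_eq_zero h4)
      rw [star_mul, star_star, (lp_proj _).isSelfAdjoint.star_eq, ← h1, star_zero] at h5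
      rw [← pv.mul_init, mul_assoc, h5, mul_zero]
  · obtain ⟨c, k1, k2, ⟨v, k3, k4⟩, w, k5, k6⟩ := hM.hCmp p q hp hq
    exact ⟨c, v, w, k1, k2, k3, k4, k5, k6⟩
  · exact Fint.sub proper_of hz hf hq h1 v h2 h3
  · have : Nonempty C := hne.to_subtype
    obtain ⟨w, hw, wP, hub, l, hl, -, s1, s2⟩ := hM.chain (ι := C) (fun i j => Tr.Ext i.1 j.1)
      (fun i j => by
        rcases eq_or_ne i.1 j.1 with e | e
        · exact ⟨j, e ▸ Tr.Ext.refl' (hP _ i.2), Tr.Ext.refl' (hP _ j.2)⟩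
        · rcases hch i.2 j.2 e with h | h
          · exact ⟨j, h, Tr.Ext.refl' (hP _ j.2)⟩
          · exact ⟨i, Tr.Ext.refl' (hP _ i.2), h⟩)
      (fun i j k => Tr.Ext.trans' (hP _ i.2) (hP _ j.2)) (fun i => (i.1 : H →L[ℂ] H))
      (fun i => i.1.2) (fun i => congrArg Subtype.val (Tr.PI.fin_mul (hP _ i.2)))
      (fun i j h => (congrArg Subtype.val h).symm)
    refine ⟨⟨w, hw⟩, Subtype.ext wP.mul_init, fun v hv => Subtype.ext (hub ⟨v, hv⟩).symm,
      fun y hy => Subtype.ext ?_, fun y hy => Subtype.ext ?_, fun δ hδ => ?_⟩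
    · exact (s1.const_mul y).unique ((SLim.const 0).congr' (Eventually.of_forall fun i =>
        (congrArg Subtype.val (hy i.1 i.2)).symm))
    · exact (s1.mul_const y).unique ((SLim.const 0).congr' (Eventually.of_forall fun i =>
        (congrArg Subtype.val (hy i.1 i.2)).symm))
    · have t := ((s2 ξ).norm.pow 2).eventually
        (lt_mem_nhds (show ‖(star w) ξ‖ ^ 2 - δ < ‖(star w) ξ‖ ^ 2 by linarith))
      obtain ⟨i, hi⟩ := t.exists
      refine ⟨i.1, i.2, ?_⟩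
      have e1 := vecF_sq ξ (star (⟨w, hw⟩ : M))
      have e2 := vecF_sq ξ (star i.1)
      rw [star_star] at e1 e2
      rw [e1, e2, Complex.ofReal_re, Complex.ofReal_re]
      exact (sub_lt_iff_lt_add.1 hi).le

end Pool.Agent.Lib.MP_08bba9_an.W
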