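import Pool.Agent.Lib.MP_08bba9_an.W.WA
import Pool.Agent.Lib.MP_08bba9_an.W.Dich

/-! The abstract projection layer from almost tracial states. -/

noncomputable section

namespace Pool.Agent.Lib.MP_08bba9_an.W

theorem IsVN.wa_of {H : Type*} [NormedAddCommGroup H] [InnerProductSpace ℂ H] [CompleteSpace H]
    {M : StarSubalgebra ℂ (H →L[ℂ] H)} (hM : IsVN M) :
    haveI := hM.isClosed
    TrIn M → WA M := by
  intro hT
  have := hM.isClosed
  obtain ⟨zf, a, b, ⟨t, t1, -, t3⟩, c⟩ := W.dich hM.hAdd hM.polR hT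
  exact ⟨hM.polR.rk, zf, a, b, ⟨t, t1, t3⟩, c⟩

end Pool.Agent.Lib.MP_08bba9_an.W
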