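import Pool.Agent.Lib.MP_08bba9_an.W.Dich2
import Pool.Agent.Lib.MP_08bba9_an.W.WVn0
import Pool.Agent.Lib.MP_08bba9_an.W.TrD

/-! Good partitions: each atom is properly infinite or has the norm property for words. -/

noncomputable section

namespace Pool.Agent.Lib.MP_08bba9_an.W

/-- Every finite test family has a good central partition. -/
def GoodPart (M : Type*) [CStarAlgebra M] : Prop :=
  ∀ (R I : Type) [Fintype R] [Nonempty R] [Fintype I] (a : R → M) (Y : I → R → M) (d : M),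
    (∀ r, a r ∈ unitary M) → (∀ i r, ‖Y i r‖ ≤ 1) → star d = d → d * d = 1 →
    (∀ i r, d * Y i r * d = -Y i r) → ∀ ε : ℝ, 0 < ε →
    ∃ (ι : Type) (_ : Fintype ι) (c : ι → M), IsPart c ∧
      ∀ k, K.PInf (c k) ∨ K.KP a Y (c k) ε

theorem WA.goodPart {M : Type*} [CStarAlgebra M] (h : WA M) : GoodPart M := by
  intro R I _ _ _ a Y d ha hY d1 d2 hd ε hε
  obtain ⟨k, c, h1, h2⟩ := h.dich a Y ⟨d1, d2⟩ ha hY hd hε
  exact ⟨Fin k, inferInstance, c, h1, h2⟩

variable {H : Type*} [NormedAddCommGroup H] [InnerProductSpace ℂ H] [CompleteSpace H]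
  {M : StarSubalgebra ℂ (H →L[ℂ] H)}

theorem IsVN.wa (hM : IsVN M) :
    haveI := hM.isClosed
    WA M := hM.wa_of hM.trIn

theorem goodPart (hM : IsVN M) :
    haveI := hM.isClosed
    GoodPart M :=
  haveI := hM.isClosed
  hM.wa.goodPart

end Pool.Agent.Lib.MP_08bba9_an.W
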