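import Mathlib

/-! Comparison of projections, the finite central part and halving, from two inputs: orthogonal
sums of partial isometries (`Add`) and polar parts (`Pol`). -/

namespace Lib.MP_08bba9_an.W

variable {A : Type*} [Ring A] [StarRing A]

/-- The involution is proper. -/
def Proper (A : Type*) [Ring A] [StarRing A] : Prop := ∀ x : A, star x * x = 0 → x = 0

/-- `s` is the sum of the set `S` of partial isometries. -/
structure IsSum (S : Set A) (s : A) : Prop where
  right : ∀ v ∈ S, s * (star v * v) = v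
  left : ∀ v ∈ S, v * star v * s = v
  annL : ∀ x, (∀ v ∈ S, x * v = 0) → x * s = 0
  annR : ∀ x, (∀ v ∈ S, v * x = 0) → s * x = 0

/-- A set of partial isometries with orthogonal initial and orthogonal final projections. -/
def Orth (S : Set A) : Prop :=
  (∀ v ∈ S, v * star v * v = v) ∧ ∀ v ∈ S, ∀ w ∈ S, v ≠ w → star v * w = 0 ∧ v * star w = 0

/-- Orthogonal sets of partial isometries have sums. -/
def Add (A : Type*) [Ring A] [StarRing A] : Prop := ∀ S : Set A, Orth S → ∃ s, IsSum S s

/-- Nonzero elements have nonzero polar parts. -/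
def Pol (A : Type*) [Ring A] [StarRing A] : Prop :=
  ∀ x : A, x ≠ 0 → ∃ v : A, v ≠ 0 ∧ v * star v * v = v ∧ (∀ y, y * x = 0 → y * v = 0) ∧
    ∀ y, x * y = 0 → v * y = 0

/-- Comparison theorem. -/
def Cmp (A : Type*) [Ring A] [StarRing A] : Prop :=
  ∀ p q : A, IsStarProjection p → IsStarProjection q → ∃ z : A, IsStarProjection z ∧
    (∀ a, z * a = a * z) ∧ (∃ v, star v * v = z * p ∧ q * v = v) ∧
      ∃ w, star w * w = (1 - z) * q ∧ p * w = w

/-- A projection `z` is finite. -/
def Fint (z : A) : Prop := ∀ v : A, star v * v = z → z * v = v → v * star v = z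

theorem star_zero_of {x y : A} (h : x * y = 0) : star y * star x = 0 := by
  rw [← star_mul, h, star_zero]

theorem Proper.pi (hP : Proper A) {v p : A} (hp : IsStarProjection p) (h : star v * v = p) :
    v * p = v := by
  have h1 := hp.isIdempotentElem.eq
  have h2 := hp.isSelfAdjoint.star_eq
  have : star (v * (1 - p)) * (v * (1 - p)) = 0 := by
    rw [star_mul, star_sub, star_one, h2, mul_assoc, ← mul_assoc (star v), h, mul_sub, mul_one, h1,
      sub_self, mul_zero]
  have h3 := hP _ this
  rw [mul_sub, mul_one, sub_eq_zero] at h3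
  exact h3.symm

theorem proj_init {v : A} (h : v * star v * v = v) : IsStarProjection (star v * v) :=
  ⟨by rw [IsIdempotentElem, mul_assoc, ← mul_assoc v, h], IsSelfAdjoint.star_mul_self v⟩

theorem proj_fin {v : A} (h : v * star v * v = v) : IsStarProjection (v * star v) :=
  ⟨by rw [IsIdempotentElem, ← mul_assoc, h], IsSelfAdjoint.mul_star_self v⟩

theorem pi_star {v : A} (h : v * star v * v = v) : star v * v * star v = star v := by
  have := congrArg star h
  rwa [star_mul, star_mul, star_star, ← mul_assoc] at this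

/-- Zorn: a maximal orthogonal subset of a set `T` of partial isometries. -/
theorem exists_max (T : Set A) (hT : ∀ v ∈ T, v * star v * v = v) :
    ∃ S ⊆ T, Orth S ∧ ∀ u ∈ T, (∀ v ∈ S, star v * u = 0 ∧ v * star u = 0) → u ∈ S := by
  obtain ⟨S, hS⟩ := zorn_subset {S | S ⊆ T ∧ Orth S} (fun c hc hch => by
    refine ⟨⋃₀ c, ⟨Set.sUnion_subset fun t ht => (hc ht).1, fun v hv => ?_, fun v hv w hw hne => ?_⟩,
      fun s hs => Set.subset_sUnion_of_mem hs⟩
    · obtain ⟨t, ht, hv⟩ := hv
      exact (hc ht).2.1 v hv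
    · obtain ⟨t, ht, hv⟩ := hv
      obtain ⟨t', ht', hw⟩ := hw
      rcases hch.total ht ht' with h | h
      · exact (hc ht').2.2 v (h hv) w hw hne
      · exact (hc ht).2.2 v hv w (h hw) hne)
  refine ⟨S, hS.prop.1, hS.prop.2, fun u hu h => ?_⟩
  have : insert u S ∈ {S | S ⊆ T ∧ Orth S} := by
    refine ⟨Set.insert_subset hu hS.prop.1, ?_, ?_⟩
    · rintro v (rfl | hv)
      · exact hT _ hu
      · exact hS.prop.2.1 v hv
    · rintro v (rfl | hv) w (rfl | hw) hne
      · exact absurd rfl hne
      · exact ⟨by simpa using star_zero_of (h w hw).1, by simpa using star_zero_of (h w hw).2⟩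
      · exact h v hv
      · exact hS.prop.2.2 v hv w hw hne
  exact hS.le_of_ge this (Set.subset_insert _ _) (Set.mem_insert _ _)

namespace IsSum

variable {S : Set A} {s : A}

theorem star_mul (h : IsSum S s) (hO : Orth S) {v : A} (hv : v ∈ S) :
    star s * v = star v * v := by
  have h1 := congrArg star (h.left v hv)
  rw [StarMul.star_mul, StarMul.star_mul, star_star] at h1
  calc star s * v = star s * (v * star v * v) := by rw [hO.1 v hv]
    _ = star s * (v * star v) * v := by noncomm_ring
    _ = star v * v := by rw [h1]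

theorem mul_star (h : IsSum S s) (hO : Orth S) {v : A} (hv : v ∈ S) :
    s * star v = v * star v := by
  calc s * star v = s * (star v * v * star v) := by rw [pi_star (hO.1 v hv)]
    _ = s * (star v * v) * star v := by noncomm_ring
    _ = v * star v := by rw [h.right v hv]

theorem pi (h : IsSum S s) (hO : Orth S) : s * star s * s = s := by
  have := h.annL (1 - s * star s) fun v hv => by
    rw [sub_mul, one_mul, mul_assoc, h.star_mul hO hv, h.right v hv, sub_self]
  rw [sub_mul, one_mul, sub_eq_zero] at this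
  exact this.symm

theorem fin_mul (h : IsSum S s) (hO : Orth S) {v : A} (hv : v ∈ S) : s * star s * v = v := by
  rw [mul_assoc, h.star_mul hO hv, h.right v hv]

theorem mul_init (h : IsSum S s) (hO : Orth S) {v : A} (hv : v ∈ S) : v * (star s * s) = v := by
  have h1 := congrArg star (h.mul_star hO hv)
  rw [StarMul.star_mul, StarMul.star_mul, star_star] at h1
  rw [← mul_assoc, h1, h.left v hv]

theorem fixL (h : IsSum S s) {p : A} (hp : ∀ v ∈ S, p * v = v) : p * s = s := by
  have := h.annL (1 - p) fun v hv => by rw [sub_mul, one_mul, hp v hv, sub_self]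
  rw [sub_mul, one_mul, sub_eq_zero] at this
  exact this.symm

theorem fixR (h : IsSum S s) {p : A} (hp : ∀ v ∈ S, v * p = v) : s * p = s := by
  have := h.annR (1 - p) fun v hv => by rw [mul_sub, mul_one, hp v hv, sub_self]
  rw [mul_sub, mul_one, sub_eq_zero] at this
  exact this.symm

/-- A sum of projections is a projection. -/
theorem proj (h : IsSum S s) (hS : ∀ v ∈ S, IsStarProjection v) :
    IsStarProjection s ∧ ∀ v ∈ S, s * v = v ∧ v * s = v := by
  have h1 : ∀ v ∈ S, s * v = v ∧ v * s = v := fun v hv => by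
    have a := h.right v hv
    have b := h.left v hv
    rw [(hS v hv).isSelfAdjoint.star_eq, (hS v hv).isIdempotentElem.eq] at a b
    exact ⟨a, b⟩
  have h2 : star s * s = s := h.fixL fun v hv => by
    have := congrArg star (h1 v hv).2
    rwa [StarMul.star_mul, (hS v hv).isSelfAdjoint.star_eq] at this
  have h3 : star s = s := by rw [← h2, StarMul.star_mul, star_star]
  exact ⟨⟨by rw [IsIdempotentElem]; nth_rewrite 1 [← h3]; exact h2, h3⟩, h1⟩

end IsSum

theorem proj_pi {p : A} (hp : IsStarProjection p) : p * star p * p = p := by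
  rw [hp.isSelfAdjoint.star_eq, hp.isIdempotentElem.eq, hp.isIdempotentElem.eq]

/-- A maximal orthogonal family of projections in `T` and its sum. -/
theorem exists_max_proj (hA : Add A) (T : Set A) (hT : ∀ p ∈ T, IsStarProjection p) :
    ∃ S ⊆ T, Orth S ∧ ∃ c, IsSum S c ∧ IsStarProjection c ∧ (∀ v ∈ S, c * v = v ∧ v * c = v) ∧
      ∀ u ∈ T, c * u = 0 → u = 0 := by
  obtain ⟨S, hST, hO, hmax⟩ := exists_max T fun v hv => proj_pi (hT v hv)
  obtain ⟨c, hc⟩ := hA S hO
  obtain ⟨hc1, hc2⟩ := hc.proj fun v hv => hT v (hST hv)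
  refine ⟨S, hST, hO, c, hc, hc1, hc2, fun u hu hcu => ?_⟩
  have hv0 : ∀ v ∈ S, v * u = 0 := fun v hv => by rw [← (hc2 v hv).2, mul_assoc, hcu, mul_zero]
  have hm := hmax u hu fun v hv => by
    rw [(hT v (hST hv)).isSelfAdjoint.star_eq, (hT u hu).isSelfAdjoint.star_eq]
    exact ⟨hv0 v hv, hv0 v hv⟩
  rw [← (hc2 u hm).1, hcu]

theorem central_of_corner {c : A} (hc : IsStarProjection c) (h : ∀ a, c * a * c = c * a) (a : A) :
    c * a = a * c := by
  have h1 := congrArg star (h (star a))
  simp only [star_mul, star_star, hc.isSelfAdjoint.star_eq] at h1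
  rw [← h a, ← h1, mul_assoc]

/-- If `q A p = 0` a central projection separates `q` from `p`. -/
theorem exists_central (hA : Add A) (hL : Pol A) {p q : A} (h : ∀ a, q * a * p = 0) :
    ∃ c : A, IsStarProjection c ∧ (∀ a, c * a = a * c) ∧ q * c = q ∧ c * p = 0 := by
  obtain ⟨S, hST, -, c, hc, hcp, -, hmax⟩ := exists_max_proj hA
    {e | IsStarProjection e ∧ ∀ a, e * a * p = 0} fun _ h => h.1
  have hcI : ∀ a, c * a * p = 0 := fun a => by
    rw [mul_assoc]
    exact hc.annR _ fun v hv => by rw [← mul_assoc]; exact (hST hv).2 a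
  have key : ∀ x : A, (∀ a, x * a * p = 0) → x * c = x := fun x hx => by
    by_contra hne
    have h0 : x * (1 - c) ≠ 0 := fun h0 => hne (by
      rw [mul_sub, mul_one, sub_eq_zero] at h0; exact h0.symm)
    obtain ⟨v, hv0, hv, -, hvR⟩ := hL _ h0
    have hvc : v * c = 0 := hvR c (by
      rw [mul_assoc, sub_mul, one_mul, hcp.isIdempotentElem.eq, sub_self, mul_zero])
    have := hmax (star v * v) ⟨proj_init hv, fun a => by
      have := hvR (a * p) (by
        have := hx ((1 - c) * a)
        rwa [← mul_assoc, mul_assoc _ a] at this)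
      rw [mul_assoc, mul_assoc, this, mul_zero]⟩ (by
        have := star_zero_of hvc
        rw [hcp.isSelfAdjoint.star_eq] at this
        rw [← mul_assoc, this, zero_mul])
    exact hv0 (by rw [← hv, mul_assoc, this, mul_zero])
  refine ⟨c, hcp, central_of_corner hcp fun a => key _ fun b => ?_, key q h, by simpa using hcI 1⟩
  rw [mul_assoc c a b]
  exact hcI _

/-- The comparison theorem from sums and polar parts. -/
theorem cmp_of (hA : Add A) (hL : Pol A) : Cmp A := by
  intro p q hp hq
  have p1 := hp.isIdempotentElem.eq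
  have p2 := hp.isSelfAdjoint.star_eq
  have q1 := hq.isIdempotentElem.eq
  have q2 := hq.isSelfAdjoint.star_eq
  obtain ⟨S, hST, hO, hmax⟩ := exists_max
    {v | v * star v * v = v ∧ v * p = v ∧ q * v = v} fun _ h => h.1
  obtain ⟨s, hs⟩ := hA S hO
  have hsp : s * p = s := hs.fixR fun v hv => (hST hv).2.1
  have hqs : q * s = s := hs.fixL fun v hv => (hST hv).2.2
  have hps : p * star s = star s := by simpa [p2] using congrArg star hsp
  have hsq : star s * q = star s := by simpa [q2] using congrArg star hqs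
  have h0 : ∀ a, (q - s * star s) * a * (p - star s * s) = 0 := fun a => by
    by_contra hne
    obtain ⟨u, hu0, hu, huL, huR⟩ := hL _ hne
    have e1 : star s * (q - s * star s) = 0 := by
      rw [mul_sub, hsq, ← mul_assoc, pi_star (hs.pi hO), sub_self]
    have e2 : (p - star s * s) * star s = 0 := by
      rw [sub_mul, hps, pi_star (hs.pi hO), sub_self]
    have e3 : (p - star s * s) * (1 - p) = 0 := by
      rw [mul_sub, mul_one, sub_mul, p1, mul_assoc (star s), hsp, sub_self]
    have e4 : (1 - q) * (q - s * star s) = 0 := by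
      rw [sub_mul, one_mul, mul_sub, q1, ← mul_assoc, hqs, sub_self]
    have hs1 : star s * u = 0 := huL _ (by rw [← mul_assoc, ← mul_assoc, e1, zero_mul, zero_mul])
    have hs2 : u * star s = 0 := huR _ (by rw [mul_assoc, e2, mul_zero])
    have hup : u * p = u := by
      have := huR (1 - p) (by rw [mul_assoc, e3, mul_zero])
      rw [mul_sub, mul_one, sub_eq_zero] at this
      exact this.symm
    have hqu : q * u = u := by
      have := huL (1 - q) (by rw [← mul_assoc, ← mul_assoc, e4, zero_mul, zero_mul])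
      rw [sub_mul, one_mul, sub_eq_zero] at this
      exact this.symm
    have hm := hmax u ⟨hu, hup, hqu⟩ fun v hv => by
      constructor
      · have := congrArg star (hs.fin_mul hO hv)
        simp only [star_mul, star_star] at this
        rw [← this, mul_assoc, mul_assoc, hs1, mul_zero, mul_zero]
      · have := star_zero_of hs2
        rw [star_star] at this
        rw [← hs.mul_init hO hv, mul_assoc, mul_assoc, this, mul_zero, mul_zero]
    exact hu0 (by rw [← hs.fin_mul hO hm, mul_assoc, hs1, mul_zero])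
  obtain ⟨c, hc, hcc, hcq, hcp⟩ := exists_central hA hL h0
  have c1 := hc.isIdempotentElem.eq
  have c2 := hc.isSelfAdjoint.star_eq
  refine ⟨c, hc, hcc, ⟨s * c, ?_, by rw [← mul_assoc, hqs]⟩, star s * (1 - c), ?_,
    by rw [← mul_assoc, hps]⟩
  · rw [mul_sub, sub_eq_zero] at hcp
    rw [star_mul, c2, hcp, mul_assoc, ← mul_assoc (star s), ← hcc, ← mul_assoc, c1]
  · have h1 : (1 - c) * (q - s * star s) = 0 := by rw [sub_mul, one_mul, hcc, hcq, sub_self]
    rw [mul_sub, sub_eq_zero] at h1
    have h2 : s * star s * (1 - c) = (1 - c) * (s * star s) := by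
      rw [mul_sub, sub_mul, hcc, mul_one, one_mul]
    have h3 : (1 - c) * (1 - c) = 1 - c := hc.one_sub.isIdempotentElem.eq
    rw [star_mul, star_star, star_sub, star_one, c2, h1, mul_assoc, ← mul_assoc s, h2, ← mul_assoc,
      h3]

/-- The finite central part: a finite central projection `z` such that no nonzero central
projection orthogonal to it is finite. -/
theorem exists_zf (hA : Add A) : ∃ z : A, IsStarProjection z ∧ (∀ a, z * a = a * z) ∧ Fint z ∧
    ∀ c : A, IsStarProjection c → (∀ a, c * a = a * c) → Fint c → z * c = 0 → c = 0 := by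
  obtain ⟨S, hST, -, z, hz, hzp, hzv, hmax⟩ := exists_max_proj hA
    {e | IsStarProjection e ∧ (∀ a, e * a = a * e) ∧ Fint e} fun _ h => h.1
  have hc : ∀ a, z * a = a * z := central_of_corner hzp fun a => by
    have := hz.annR (a * (1 - z)) fun v hv => by
      rw [← mul_assoc, (hST hv).2.1, mul_assoc, mul_sub, mul_one, (hzv v hv).2, sub_self, mul_zero]
    rw [mul_sub, mul_one, mul_sub, sub_eq_zero, ← mul_assoc] at this
    exact this.symm
  refine ⟨z, hzp, hc, fun u hu hzu => ?_, fun c h1 h2 h3 h4 => hmax c ⟨h1, h2, h3⟩ h4⟩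
  have := hz.annR (z - u * star u) fun v hv => by
    obtain ⟨h1, h2, h3⟩ := hST hv
    have v1 := h1.isIdempotentElem.eq
    have v2 := h1.isSelfAdjoint.star_eq
    have := h3 (v * u) (by
      rw [star_mul, v2, mul_assoc, ← mul_assoc v, v1, ← mul_assoc, ← h2, mul_assoc, hu,
        (hzv v hv).2]) (by rw [← mul_assoc, v1])
    rw [star_mul, v2, mul_assoc, ← mul_assoc u, ← h2, ← mul_assoc, v1] at this
    rw [mul_sub, (hzv v hv).2, this, sub_self]
  rw [mul_sub, hzp.isIdempotentElem.eq, ← mul_assoc, hzu, sub_eq_zero] at this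
  exact this.symm

/-- Subprojections of a finite projection are finite. -/
theorem Fint.sub (hP : Proper A) {z q : A} (hz : IsStarProjection z) (hf : Fint z)
    (hq : IsStarProjection q) (hzq : z * q = q) : Fint q := by
  intro v hv hqv
  have q1 := hq.isIdempotentElem.eq
  have q2 := hq.isSelfAdjoint.star_eq
  have z1 := hz.isIdempotentElem.eq
  have z2 := hz.isSelfAdjoint.star_eq
  have hqz : q * z = q := by simpa [q2, z2] using congrArg star hzq
  have hvq := hP.pi hq hv
  have e0 : q * (z - q) = 0 := by rw [mul_sub, hqz, q1, sub_self]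
  have e1 : v * (z - q) = 0 := by rw [← hvq, mul_assoc, e0, mul_zero]
  have e2 : (z - q) * v = 0 := by rw [← hqv, ← mul_assoc, sub_mul, hzq, q1, sub_self, zero_mul]
  have e3 : star (z - q) = z - q := by rw [star_sub, z2, q2]
  have e4 : (z - q) * star v = 0 := by simpa only [e3] using star_zero_of e1
  have e5 : star v * (z - q) = 0 := by simpa only [e3] using star_zero_of e2
  have e6 : (z - q) * (z - q) = z - q := by rw [sub_mul, e0, mul_sub, z1, hzq, sub_zero]
  have := hf (v + (z - q)) (by
    rw [star_add, e3, add_mul, mul_add, mul_add, hv, e5, e2, e6]; abel) (by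
    rw [mul_add, mul_sub, z1, hzq, ← hqv, ← mul_assoc, hzq])
  rw [star_add, e3, add_mul, mul_add, mul_add, e1, e4, e6] at this
  rw [← sub_eq_zero, ← sub_eq_zero.2 this]
  abel

/-- Finiteness passes to equivalent projections. -/
theorem Fint.equiv (hP : Proper A) {w : A} (hw : w * star w * w = w) (hf : Fint (star w * w)) :
    Fint (w * star w) := by
  intro v hv hqv
  have hw' := pi_star hw
  have hvq := hP.pi (proj_fin hw) hv
  have := hf (star w * v * w) (by
    have : star (star w * v * w) * (star w * v * w) = star w * (star v * (w * star w * v)) * w := by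
      simp only [star_mul, star_star, mul_assoc]
    rw [this, hqv, hv, ← mul_assoc, hw']) (by rw [← mul_assoc, ← mul_assoc, hw'])
  have h1 : star v * (w * star w) = star v := by
    simpa only [star_mul, star_star] using congrArg star hqv
  have h2 : w * (star w * v * w * star (star w * v * w)) * star w =
      (w * star w * v * (w * star w)) * (star v * (w * star w)) := by
    simp only [star_mul, star_star, mul_assoc]
  rw [this, hqv, hvq, h1, ← mul_assoc, hw] at h2
  exact h2.symm

theorem rem_half (hP : Proper A) {p q u v z a : A} (hp : IsStarProjection p)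
    (hq : IsStarProjection q) (hf : Fint q) (hu1 : star u * u = p) (hu2 : u * star u = q)
    (hv : v * star v * v = v) (hvp : v * p = v) (hqv : q * v = v) (hz : IsStarProjection z)
    (hc : ∀ x, z * x = x * z) (ha1 : star a * a = z * (p - star v * v))
    (ha2 : (q - v * star v) * a = a) : a * star a = z * (q - v * star v) ∧ z * a = a := by
  have p1 := hp.isIdempotentElem.eq
  have p2 := hp.isSelfAdjoint.star_eq
  have q1 := hq.isIdempotentElem.eq
  have q2 := hq.isSelfAdjoint.star_eq
  have z1 := hz.isIdempotentElem.eq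
  have z2 := hz.isSelfAdjoint.star_eq
  have hpv : p * star v = star v := by simpa [p2] using congrArg star hvp
  have hvq : star v * q = star v := by simpa [q2] using congrArg star hqv
  have hp' : IsStarProjection (p - star v * v) :=
    (proj_init hv).sub_of_mul_eq_right hp (by rw [← mul_assoc, hpv])
  have haz := hP.pi (hz.mul hp' (hc _)) ha1
  have hza : z * a = a := by rw [← haz, hc, mul_assoc, mul_assoc, ← hc, ← mul_assoc z, z1]
  have hap : a * (p - star v * v) = a := by rwa [← mul_assoc, ← hc, hza] at haz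
  have e1 : star v * a = 0 := by
    rw [← ha2, ← mul_assoc, mul_sub, hvq, ← mul_assoc, pi_star hv, sub_self, zero_mul]
  have e2 : a * star v = 0 := by
    rw [← hap, mul_assoc, sub_mul, hpv, pi_star hv, sub_self, mul_zero]
  have e3 : star a * v = 0 := by simpa using star_zero_of e1
  have e4 : v * star a = 0 := by simpa using star_zero_of e2
  have hqa : q * a = a := by
    rw [← ha2, ← mul_assoc, mul_sub, q1, ← mul_assoc, hqv]
  have hap2 : a * p = a := by
    rw [← hap, mul_assoc, sub_mul, p1, mul_assoc, hvp]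
  have t1 : star (z * v + a) * (z * v + a) = z * p := by
    rw [star_add, star_mul, z2, add_mul, mul_add, mul_add, ha1, mul_assoc, ← mul_assoc z, z1,
      mul_assoc, hza, e1, ← mul_assoc, ← hc, ← mul_assoc (star a), ← hc, mul_assoc z (star a), e3,
      mul_sub, mul_assoc]
    simp
  have t2 : (z * v + a) * star (z * v + a) = z * (v * star v) + a * star a := by
    rw [star_add, star_mul, z2, add_mul, mul_add, mul_add, ← mul_assoc a, e2, mul_assoc z v (star a),
      e4, ← hc, mul_assoc, ← mul_assoc v, ← hc, mul_assoc z, ← mul_assoc z, z1]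
    simp
  have t3 : (z * v + a) * p = z * v + a := by rw [add_mul, mul_assoc, hvp, hap2]
  have t4 : z * q * (z * v + a) = z * v + a := by
    rw [mul_add, mul_assoc z q a, hqa, hza, mul_assoc, ← mul_assoc q, ← hc, mul_assoc, hqv,
      ← mul_assoc, z1]
  have hfz : Fint (z * q) := Fint.sub hP hq hf (hz.mul hq (hc _)) (by rw [hc, ← mul_assoc, q1])
  have hup := hP.pi hp hu1
  have := hfz ((z * v + a) * star u) (by
    rw [star_mul, star_star, mul_assoc, ← mul_assoc (star _), t1, ← mul_assoc, ← mul_assoc, ← hc,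
      mul_assoc z, hup, mul_assoc, hu2]) (by rw [← mul_assoc, t4])
  rw [star_mul, star_star, mul_assoc, ← mul_assoc (star u), hu1, ← mul_assoc, t3, t2] at this
  exact ⟨by rw [mul_sub, ← this]; abel, hza⟩

/-- Remainders of equivalent finite projections are equivalent. -/
theorem rem_equiv (hP : Proper A) (hC : Cmp A) {p q u v : A} (hp : IsStarProjection p)
    (hq : IsStarProjection q) (hf : Fint q) (hu1 : star u * u = p) (hu2 : u * star u = q)
    (hv : v * star v * v = v) (hvp : v * p = v) (hqv : q * v = v) :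
    ∃ w, star w * w = p - star v * v ∧ w * star w = q - v * star v := by
  have p2 := hp.isSelfAdjoint.star_eq
  have q2 := hq.isSelfAdjoint.star_eq
  have hpv : p * star v = star v := by simpa [p2] using congrArg star hvp
  have hvq : star v * q = star v := by simpa [q2] using congrArg star hqv
  have hp' : IsStarProjection (p - star v * v) :=
    (proj_init hv).sub_of_mul_eq_right hp (by rw [← mul_assoc, hpv])
  have hq' : IsStarProjection (q - v * star v) :=
    (proj_fin hv).sub_of_mul_eq_right hq (by rw [← mul_assoc, hqv])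
  obtain ⟨z, hz, hc, ⟨a, ha1, ha2⟩, b, hb1, hb2⟩ := hC _ _ hp' hq'
  obtain ⟨h1, h2⟩ := rem_half hP hp hq hf hu1 hu2 hv hvp hqv hz hc ha1 ha2
  have hup := hP.pi hp hu1
  have hfp : Fint p := by
    have := Fint.equiv hP (w := star u) (by rw [star_star, hu1]; simpa [p2] using congrArg star hup)
      (by rwa [star_star, hu2])
    rwa [star_star, hu1] at this
  have hc' : ∀ x, (1 - z) * x = x * (1 - z) := fun x => by
    rw [sub_mul, mul_sub, hc, one_mul, mul_one]
  obtain ⟨h3, h4⟩ := rem_half hP (u := star u) (v := star v) (a := b) hq hp hfp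
    (by rwa [star_star]) (by rwa [star_star]) (by rw [star_star]; exact pi_star hv) hvq hpv
    hz.one_sub hc' (by rwa [star_star]) (by rwa [star_star])
  rw [star_star] at h3
  have e0 : (1 - z) * a = 0 := by rw [sub_mul, one_mul, h2, sub_self]
  have e1 : b * a = 0 := by rw [← h4, hc', mul_assoc, e0, mul_zero]
  have e2 : a * b = 0 := by rw [← h4, ← mul_assoc, ← hc', e0, zero_mul]
  refine ⟨a + star b, ?_, ?_⟩
  · rw [star_add, star_star, add_mul, mul_add, mul_add, ha1, h3, e1, star_zero_of e1, sub_mul]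
    simp
  · rw [star_add, star_star, add_mul, mul_add, mul_add, hb1, h1, e2, star_zero_of e2, sub_mul]
    simp

/-- `p` is the sum of two orthogonal copies of itself, up to a remainder. -/
def Halv (p : A) : Prop := IsStarProjection p ∧
  ∃ s t : A, star s * s = p ∧ star t * t = p ∧ p * s = s ∧ p * t = t ∧ star s * t = 0

theorem Halv.cut {p z : A} (h : Halv p) (hz : IsStarProjection z) (hc : ∀ x, z * x = x * z) :
    Halv (z * p) := by
  obtain ⟨hp, s, t, h1, h2, h3, h4, h5⟩ := h
  have z1 := hz.isIdempotentElem.eq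
  have z2 := hz.isSelfAdjoint.star_eq
  have e : ∀ x y : A, star (z * x) * (z * y) = z * (star x * y) := fun x y => by
    rw [star_mul, z2, mul_assoc, ← mul_assoc z, z1, ← mul_assoc, ← hc, mul_assoc]
  have e' : ∀ x : A, p * x = x → z * p * (z * x) = z * x := fun x hx => by
    rw [mul_assoc, ← mul_assoc p, ← hc, mul_assoc, hx, ← mul_assoc, z1]
  exact ⟨hz.mul hp (hc _), z * s, z * t, by rw [e, h1], by rw [e, h2], e' _ h3, e' _ h4,
    by rw [e, h5, mul_zero]⟩

theorem Halv.equiv {w : A} (hw : w * star w * w = w) (h : Halv (star w * w)) :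
    Halv (w * star w) := by
  obtain ⟨-, s, t, h1, h2, h3, h4, h5⟩ := h
  have e : ∀ x y : A, star w * w * y = y →
      star (w * x * star w) * (w * y * star w) = w * (star x * y) * star w := fun x y hy => by
    calc _ = w * (star x * (star w * w * y)) * star w := by
          simp only [star_mul, star_star, mul_assoc]
      _ = _ := by rw [hy]
  have e' : ∀ x : A, w * star w * (w * x * star w) = w * x * star w := fun x => by
    rw [← mul_assoc, ← mul_assoc, hw]
  exact ⟨proj_fin hw, w * s * star w, w * t * star w, by rw [e _ _ h3, h1, ← mul_assoc, hw],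
    by rw [e _ _ h4, h2, ← mul_assoc, hw], e' _, e' _, by rw [e _ _ h4, h5, mul_zero, zero_mul]⟩

theorem sum_piece (hP : Proper A) (hA : Add A) {S : Set A} (hO : Orth S) {c : A} (hc : IsSum S c)
    (hS : ∀ p ∈ S, IsStarProjection p) (s : S → A) (h1 : ∀ p, star (s p) * s p = p)
    (h2 : ∀ p : S, p * s p = s p) :
    ∃ σ, star σ * σ = c ∧ c * σ = σ ∧ ∀ x, (∀ p, x * s p = 0) → x * σ = 0 := by
  obtain ⟨hcp, hcv⟩ := hc.proj hS
  have h3 : ∀ p : S, s p * p = s p := fun p => hP.pi (hS p p.2) (h1 p)
  have h0 : ∀ p p' : S, p ≠ p' → (p : A) * p' = 0 := fun p p' hne => by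
    have := (hO.2 p p.2 p' p'.2 fun h => hne (Subtype.ext h)).1
    rwa [(hS p p.2).isSelfAdjoint.star_eq] at this
  have hO' : Orth (Set.range s) := by
    refine ⟨?_, ?_⟩
    · rintro _ ⟨p, rfl⟩
      rw [mul_assoc, h1, h3]
    · rintro _ ⟨p, rfl⟩ _ ⟨p', rfl⟩ hne
      have hne' : p ≠ p' := fun h => hne (by rw [h])
      constructor
      · rw [← h2 p, ← h2 p', star_mul, (hS p p.2).isSelfAdjoint.star_eq, mul_assoc,
          ← mul_assoc (p : A), h0 p p' hne', zero_mul, mul_zero]
      · rw [← h3 p, ← h3 p', star_mul, (hS p' p'.2).isSelfAdjoint.star_eq, mul_assoc,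
          ← mul_assoc (p : A), h0 p p' hne', zero_mul, mul_zero]
  obtain ⟨σ, hσ⟩ := hA _ hO'
  have e1 : σ * c = σ := hσ.fixR (by
    rintro _ ⟨p, rfl⟩
    rw [← h3 p, mul_assoc, (hcv p p.2).2])
  have e2 : c * (star σ * σ) = c := hc.fixR fun p hp => by
    have := h1 ⟨p, hp⟩
    rw [← show _ = p from this, mul_assoc, hσ.mul_init hO' ⟨_, rfl⟩]
  refine ⟨σ, ?_, hσ.fixL ?_, fun x hx => hσ.annL x ?_⟩
  · have := congrArg star e2
    simp only [star_mul, star_star, hcp.isSelfAdjoint.star_eq] at this
    rwa [mul_assoc, e1] at this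
  · rintro _ ⟨p, rfl⟩
    rw [← h2 p, ← mul_assoc, (hcv p p.2).1]
  · rintro _ ⟨p, rfl⟩
    exact hx p

theorem halv_sum (hP : Proper A) (hA : Add A) {S : Set A} (hO : Orth S) {c : A} (hc : IsSum S c)
    (hS : ∀ p ∈ S, Halv p) : Halv c := by
  choose s t h1 h2 h3 h4 h5 using fun p : S => (hS p p.2).2
  have hS' : ∀ p ∈ S, IsStarProjection p := fun p hp => (hS p hp).1
  obtain ⟨σ, a1, a2, a3⟩ := sum_piece hP hA hO hc hS' s h1 h3
  obtain ⟨τ, b1, b2, b3⟩ := sum_piece hP hA hO hc hS' t h2 h4
  refine ⟨(hc.proj hS').1, σ, τ, a1, b1, a2, b2, b3 _ fun p => ?_⟩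
  have := a3 (star (t p)) fun p' => by
    by_cases hne : p = p'
    · subst hne
      simpa using star_zero_of (h5 p)
    · have := (hO.2 p p.2 p' p'.2 fun h => hne (Subtype.ext h)).1
      rw [← h4 p, ← h3 p', star_mul, mul_assoc, ← mul_assoc (star (p : A)), this, zero_mul,
        mul_zero]
  simpa using star_zero_of this

/-- An infinite projection contains a nonzero halvable projection. -/
theorem halv_of_inf (hP : Proper A) (hA : Add A) {c : A} (hc : IsStarProjection c)
    (hf : ¬ Fint c) : ∃ E, E ≠ 0 ∧ Halv E ∧ c * E = E := by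
  simp only [Fint, not_forall] at hf
  obtain ⟨v, hv, hcv, hne⟩ := hf
  have c1 := hc.isIdempotentElem.eq
  have c2 := hc.isSelfAdjoint.star_eq
  have hvc := hP.pi hc hv
  have hpi : v * star v * v = v := by rw [mul_assoc, hv, hvc]
  obtain ⟨e, he⟩ : ∃ e, e = c - v * star v := ⟨_, rfl⟩
  have hep : IsStarProjection e :=
    he ▸ (proj_fin hpi).sub_of_mul_eq_right hc (by rw [← mul_assoc, hcv])
  have e1 := hep.isIdempotentElem.eq
  have e2 := hep.isSelfAdjoint.star_eq
  have hev : e * v = 0 := by rw [he, sub_mul, hcv, hpi, sub_self]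
  have hce : c * e = e := by rw [he, mul_sub, c1, ← mul_assoc, hcv]
  have hc0 : ∀ (j : ℕ) (x : A), c * x = x → c * (v ^ j * x) = v ^ j * x := fun j x hx => by
    cases j with
    | zero => simpa using hx
    | succ j => rw [pow_succ', mul_assoc, ← mul_assoc, hcv]
  have hiso : ∀ (j : ℕ) (x : A), c * x = x → star (v ^ j) * (v ^ j * x) = x := fun j x hx => by
    induction j with
    | zero => simp
    | succ j ih => rw [pow_succ', star_mul, mul_assoc, mul_assoc, ← mul_assoc (star v), hv,
        hc0 j x hx, ih]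
  obtain ⟨T, hT⟩ : ∃ T : ℕ → A, ∀ j, T j = v ^ j * e := ⟨_, fun _ => rfl⟩
  have t1 : ∀ j, star (T j) * T j = e := fun j => by
    rw [hT, star_mul, e2, mul_assoc, hiso j e hce, e1]
  have t2 : ∀ i j, i < j → star (T i) * T j = 0 := fun i j hij => by
    obtain ⟨k, rfl⟩ := Nat.exists_eq_add_of_lt hij
    rw [hT, hT, star_mul, e2, add_assoc, pow_add, mul_assoc, mul_assoc, hiso i _ (hc0 _ e hce),
      pow_succ', ← mul_assoc, ← mul_assoc, hev, zero_mul, zero_mul]
  have t3 : ∀ i j, i ≠ j → star (T i) * T j = 0 := fun i j hij => by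
    rcases hij.lt_or_gt with h | h
    · exact t2 i j h
    · simpa using star_zero_of (t2 j i h)
  have t4 : ∀ j, T j * e = T j := fun j => by rw [hT, mul_assoc, e1]
  have t5 : ∀ j, e * star (T j) = star (T j) := fun j => by simpa [e2] using congrArg star (t4 j)
  have t6 : ∀ j, c * T j = T j := fun j => by rw [hT]; exact hc0 j e hce
  have t7 : ∀ j, v * T j = T (j + 1) := fun j => by rw [hT, hT, pow_succ', mul_assoc]
  have hO : Orth (Set.range fun j => T (2 * j) * star (T j)) := by
    refine ⟨?_, ?_⟩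
    · rintro _ ⟨j, rfl⟩
      simp only [star_mul, star_star, mul_assoc]
      rw [← mul_assoc (star (T (2 * j))), t1, t5, ← mul_assoc (star (T j)), t1, t5]
    · rintro _ ⟨i, rfl⟩ _ ⟨j, rfl⟩ hne
      have hij : i ≠ j := fun h => hne (by rw [h])
      simp only [star_mul, star_star, mul_assoc]
      rw [← mul_assoc (star (T (2 * i))), t3 _ _ (by omega), ← mul_assoc (star (T i)), t3 _ _ hij]
      simp
  obtain ⟨σ, hσ⟩ := hA _ hO
  have s1 : ∀ j, star σ * σ * T j = T j := fun j => by
    have := congrArg (star (T (2 * j)) * ·) (hσ.mul_init hO ⟨j, rfl⟩)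
    simp only [← mul_assoc, t1, t5] at this
    simpa [mul_assoc] using congrArg star this
  have s2 : c * σ = σ := hσ.fixL (by
    rintro _ ⟨j, rfl⟩
    rw [← mul_assoc, t6])
  have s3 : σ * c = σ := hσ.fixR (by
    rintro _ ⟨j, rfl⟩
    have := congrArg star (t6 j)
    rw [star_mul, c2] at this
    rw [mul_assoc, this])
  refine ⟨star σ * σ, fun h => hne ?_, ⟨proj_init (hσ.pi hO), σ, v * σ, rfl, ?_, hσ.fixL ?_, ?_, ?_⟩,
    ?_⟩
  · have := s1 0
    rw [h, zero_mul, hT, pow_zero, one_mul, he, eq_comm, sub_eq_zero] at this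
    exact this.symm
  · rw [star_mul, mul_assoc, ← mul_assoc (star v), hv, s2]
  · rintro _ ⟨j, rfl⟩
    rw [← mul_assoc, s1]
  · have := hσ.annL ((1 - star σ * σ) * v) (by
      rintro _ ⟨j, rfl⟩
      rw [mul_assoc, ← mul_assoc v, t7, ← mul_assoc, sub_mul, one_mul, s1, sub_self, zero_mul])
    rw [mul_assoc, sub_mul, one_mul, sub_eq_zero] at this
    exact this.symm
  · rw [← mul_assoc]
    refine hσ.annL _ ?_
    rintro _ ⟨j, rfl⟩
    have := hσ.annL (star (T (2 * j + 1))) (by
      rintro _ ⟨i, rfl⟩
      rw [← mul_assoc, t3 _ _ (by omega), zero_mul])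
    have h2 := star_zero_of this
    rw [star_star] at h2
    rw [mul_assoc, ← mul_assoc v, t7, ← mul_assoc, h2, zero_mul]
  · have := congrArg star s3
    rw [star_mul, c2] at this
    rw [← mul_assoc, this]

/-- Halving: a projection `y` under which no nonzero central projection is finite, `y` central. -/
theorem half (hP : Proper A) (hA : Add A) (hC : Cmp A) {y : A} (hy : IsStarProjection y)
    (hyc : ∀ a, y * a = a * y)
    (hinf : ∀ c : A, IsStarProjection c → (∀ a, c * a = a * c) → Fint c → y * c = c → c = 0) :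
    Halv y := by
  obtain ⟨S, hST, hO, P, hPs, hPp, -, hmax⟩ := exists_max_proj hA
    {e | Halv e ∧ y * e = e} fun _ h => h.1.1
  have hH : Halv P := halv_sum hP hA hO hPs fun p hp => (hST hp).1
  have y1 := hy.isIdempotentElem.eq
  have P1 := hPp.isIdempotentElem.eq
  have hyP : y * P = P := hPs.fixL fun v hv => (hST hv).2
  have hr : IsStarProjection (y - P) := hPp.sub_of_mul_eq_right hy hyP
  have hPr : P * (y - P) = 0 := by rw [mul_sub, ← hyc, hyP, P1, sub_self]
  have hyr : y * (y - P) = y - P := by rw [mul_sub, y1, hyP]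
  have hno : ∀ E, Halv E → (y - P) * E = E → E = 0 := fun E h1 h2 =>
    hmax E ⟨h1, by rw [← h2, ← mul_assoc, hyr]⟩ (by rw [← h2, ← mul_assoc, hPr, zero_mul])
  obtain ⟨z, hz, hzc, ⟨w, hw1, hw2⟩, b, hb1, hb2⟩ := hC _ _ hr hPp
  have hc' : ∀ x, (1 - z) * x = x * (1 - z) := fun x => by
    rw [sub_mul, mul_sub, hzc, one_mul, mul_one]
  have hcut := hH.cut hz.one_sub hc'
  have hbpi : b * star b * b = b := by rw [mul_assoc, hb1, hP.pi hcut.1 hb1]
  have hb0 : b * star b = 0 := hno _ (Halv.equiv hbpi (hb1 ▸ hcut)) (by rw [← mul_assoc, hb2])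
  have hzP : (1 - z) * P = 0 := by rw [← hb1, ← hbpi, hb0, zero_mul, mul_zero]
  have hz' : IsStarProjection ((1 - z) * y) := hz.one_sub.mul hy (hc' _)
  have hrz : (y - P) * ((1 - z) * y) = (1 - z) * y := by
    rw [← mul_assoc, ← hc', mul_sub, hzP, sub_zero, mul_assoc, y1]
  have h0 : (1 - z) * y = 0 := by
    refine hinf _ hz' (fun a => by rw [mul_assoc, hyc, ← mul_assoc, hc' a, mul_assoc]) ?_
      (by rw [hyc, mul_assoc, y1])
    by_contra hnf
    obtain ⟨E, hE0, hE, hcE⟩ := halv_of_inf hP hA hz' hnf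
    exact hE0 (hno E hE (by rw [← hcE, ← mul_assoc, hrz]))
  have hzr : z * (y - P) = y - P := by
    have : (1 - z) * (y - P) = 0 := by rw [mul_sub, h0, hzP, sub_self]
    rw [sub_mul, one_mul, sub_eq_zero] at this
    exact this.symm
  obtain ⟨-, s, t, h1, h2, h3, h4, h5⟩ := hH
  have h6 : star t * s = 0 := by simpa using star_zero_of h5
  obtain ⟨u, hu⟩ : ∃ u, u = s + t * w := ⟨_, rfl⟩
  have u1 : star u * u = y := by
    rw [hu, star_add, star_mul, add_mul, mul_add, mul_add, h1, ← mul_assoc, h5, mul_assoc _ _ s, h6,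
      mul_assoc (star w), ← mul_assoc (star t), h2, hw2, hw1, hzr]
    simp
  have u2 : P * u = u := by rw [hu, mul_add, h3, ← mul_assoc, h4]
  have e : ∀ a b : A, star (a * u) * (b * u) = star u * (star a * b * u) := fun a b => by
    simp only [star_mul, mul_assoc]
  refine ⟨hy, s * u, t * u, by rw [e, h1, u2, u1], by rw [e, h2, u2, u1], ?_, ?_,
    by rw [e, h5, zero_mul, mul_zero]⟩
  · rw [← h3, ← mul_assoc, ← mul_assoc, hyP]
  · rw [← h4, ← mul_assoc, ← mul_assoc, hyP]

/-- Infinitely many isometries with orthogonal ranges. -/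
theorem Halv.isoms {y : A} (h : Halv y) : ∃ t : ℕ → A, (∀ i, star (t i) * t i = y) ∧
    (∀ i, y * t i = t i) ∧ ∀ i j, i ≠ j → star (t i) * t j = 0 := by
  obtain ⟨-, s, t, h1, h2, h3, h4, h5⟩ := h
  have hc0 : ∀ (j : ℕ) (x : A), y * x = x → y * (t ^ j * x) = t ^ j * x := fun j x hx => by
    cases j with
    | zero => simpa using hx
    | succ j => rw [pow_succ', mul_assoc, ← mul_assoc, h4]
  have hiso : ∀ (j : ℕ) (x : A), y * x = x → star (t ^ j) * (t ^ j * x) = x := fun j x hx => by
    induction j with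
    | zero => simp
    | succ j ih => rw [pow_succ', star_mul, mul_assoc, mul_assoc, ← mul_assoc (star t), h2,
        hc0 j x hx, ih]
  have t2 : ∀ i j, i < j → star (t ^ i * s) * (t ^ j * s) = 0 := fun i j hij => by
    obtain ⟨k, rfl⟩ := Nat.exists_eq_add_of_lt hij
    rw [star_mul, add_assoc, pow_add, mul_assoc, mul_assoc, hiso i _ (hc0 _ s h3),
      pow_succ', ← mul_assoc, ← mul_assoc, h5, zero_mul, zero_mul]
  refine ⟨fun j => t ^ j * s, fun j => ?_, fun j => hc0 j s h3, fun i j hij => ?_⟩
  · rw [star_mul, mul_assoc, hiso j s h3, h1]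
  · rcases hij.lt_or_gt with h | h
    · exact t2 i j h
    · simpa using star_zero_of (t2 j i h)

/-- Type decomposition: a finite central projection `z` whose complement carries infinitely many
isometries with orthogonal ranges. -/
theorem fin_half (hP : Proper A) (hA : Add A) (hC : Cmp A) :
    ∃ z : A, IsStarProjection z ∧ (∀ a, z * a = a * z) ∧ Fint z ∧ ∃ t : ℕ → A,
      (∀ i, star (t i) * t i = 1 - z) ∧ (∀ i, (1 - z) * t i = t i) ∧
        ∀ i j, i ≠ j → star (t i) * t j = 0 := by
  obtain ⟨z, hz, hc, hf, hmax⟩ := exists_zf hA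
  refine ⟨z, hz, hc, hf, (half hP hA hC hz.one_sub
    (fun x => by rw [sub_mul, mul_sub, hc, one_mul, mul_one]) fun c h1 h2 h3 h4 =>
      hmax c h1 h2 h3 ?_).isoms⟩
  rw [← h4, ← mul_assoc, mul_sub, mul_one, hz.isIdempotentElem.eq, sub_self, zero_mul]

end Lib.MP_08bba9_an.W
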