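import Pool.Agent.Lib.MP_08bba9_an.W.Vn2
import Pool.Agent.Lib.MP_08bba9_an.W.Half

/-! The strong sum of an orthogonal family of partial isometries. -/

set_option linter.unusedSectionVars false

noncomputable section

namespace Pool.Agent.Lib.MP_08bba9_an.W

open Filter Topology
open scoped InnerProductSpace

variable {H : Type*} [NormedAddCommGroup H] [InnerProductSpace ℂ H] [CompleteSpace H]
variable {M : StarSubalgebra ℂ (H →L[ℂ] H)} {ι : Type*}

theorem sum_mul_star {u : ι → H →L[ℂ] H} (h2 : ∀ i j, i ≠ j → u i * star (u j) = 0)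
    {F : Finset ι} {i : ι} (hi : i ∈ F) : (∑ j ∈ F, u j) * star (u i) = u i * star (u i) := by
  rw [Finset.sum_mul]
  exact Finset.sum_eq_single i (fun j _ hj => h2 j i hj) fun h => absurd hi h

theorem star_mul_sum {u : ι → H →L[ℂ] H} (h1 : ∀ i j, i ≠ j → star (u i) * u j = 0)
    {F : Finset ι} {i : ι} (hi : i ∈ F) : star (u i) * (∑ j ∈ F, u j) = star (u i) * u i := by
  rw [Finset.mul_sum]
  exact Finset.sum_eq_single i (fun j _ hj => h1 i j (Ne.symm hj)) fun h => absurd hi h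

/-- a finite orthogonal sum of partial isometries is a partial isometry -/
theorem PI.sum {u : ι → H →L[ℂ] H} (hp : ∀ i, PI (u i))
    (h1 : ∀ i j, i ≠ j → Star.star (u i) * u j = 0)
    (h2 : ∀ i j, i ≠ j → u i * Star.star (u j) = 0) (F : Finset ι) : PI (∑ j ∈ F, u j) := by
  rw [PI, star_sum, Finset.mul_sum F (fun i => Star.star (u i)), Finset.sum_mul]
  refine Finset.sum_congr rfl fun i hi => ?_
  rw [sum_mul_star h2 hi, mul_assoc, star_mul_sum h1 hi, (hp i).mul_init]

theorem exists_slim_sum {u : ι → H →L[ℂ] H} {C : ℝ} (hC : ∀ F : Finset ι, ‖∑ j ∈ F, u j‖ ≤ C)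
    (h2 : ∀ i j, i ≠ j → u i * star (u j) = 0) :
    ∃ T, SLim atTop (fun F : Finset ι => ∑ j ∈ F, u j) T := by
  classical
  refine exists_slim hC (⨆ i, LinearMap.range ((star (u i) : H →L[ℂ] H) : H →ₗ[ℂ] H)) ?_ ?_
  · intro ξ hξ
    induction hξ using Submodule.iSup_induction' with
    | mem i x hx =>
      obtain ⟨η, rfl⟩ := hx
      refine ⟨(u i * star (u i)) η, tendsto_const_nhds.congr' ?_⟩
      filter_upwards [eventually_ge_atTop ({i} : Finset ι)] with F hF
      exact (DFunLike.congr_fun (sum_mul_star h2 (hF (Finset.mem_singleton_self i))) η).symm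
    | zero => exact ⟨0, by simp⟩
    | add x y _ _ hx hy =>
      obtain ⟨a, ha⟩ := hx
      obtain ⟨b, hb⟩ := hy
      exact ⟨a + b, by simpa only [map_add] using ha.add hb⟩
  · intro ξ hξ
    have h0 : ∀ i, u i ξ = 0 := fun i => by
      have := mem_range_orth.1 (Submodule.orthogonal_le (le_iSup
        (fun i => LinearMap.range ((star (u i) : H →L[ℂ] H) : H →ₗ[ℂ] H)) i) hξ)
      rwa [star_star] at this
    exact ⟨0, by simp [h0]⟩

/-- the strong sum of an orthogonal family of partial isometries, indexed form -/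
theorem IsVN.add_family (hM : IsVN M) (u : ι → H →L[ℂ] H) (hu : ∀ i, u i ∈ M)
    (hp : ∀ i, PI (u i)) (h1 : ∀ i j, i ≠ j → star (u i) * u j = 0)
    (h2 : ∀ i j, i ≠ j → u i * star (u j) = 0) :
    ∃ s ∈ M, SLim atTop (fun F : Finset ι => ∑ j ∈ F, u j) s ∧
      SLim atTop (fun F : Finset ι => star (∑ j ∈ F, u j)) (star s) ∧ PI s ∧
      (∀ i, s * (star (u i) * u i) = u i) ∧ (∀ i, u i * star (u i) * s = u i) ∧
      (∀ x : H →L[ℂ] H, (∀ i, x * u i = 0) → x * s = 0) ∧
      ∀ x : H →L[ℂ] H, (∀ i, u i * x = 0) → s * x = 0 := by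
  classical
  have hn : ∀ F : Finset ι, ‖∑ j ∈ F, u j‖ ≤ 1 := fun F => (PI.sum hp h1 h2 F).norm_le
  obtain ⟨s, hs⟩ := exists_slim_sum hn h2
  obtain ⟨t, ht⟩ := exists_slim_sum (u := fun i => star (u i)) (C := 1)
    (fun F => by rw [← star_sum, norm_star]; exact hn F)
    (fun i j hij => by rw [star_star]; exact h1 i j hij)
  have ht' : SLim atTop (fun F : Finset ι => star (∑ j ∈ F, u j)) t := by
    simpa only [star_sum] using ht
  obtain rfl := hs.star_eq ht'
  refine ⟨s, hM.mem_of_slim (fun F => sum_mem fun i _ => hu i) hn hs ht', hs, ht', ?_,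
    fun i => ?_, fun i => ?_, fun x hx => ?_, fun x hx => ?_⟩
  · have e1 := SLim.mul (C := 1) hn hs (SLim.mul (C := 1) (fun F => by
      rw [norm_star]; exact hn F) ht' hs)
    rw [PI, mul_assoc]
    exact e1.unique (hs.congr' (Eventually.of_forall fun F => (PI.sum hp h1 h2 F).mul_init.symm))
  · refine (hs.mul_const _).unique ((SLim.const _).congr' ?_)
    filter_upwards [eventually_ge_atTop ({i} : Finset ι)] with F hF
    rw [← mul_assoc, sum_mul_star h2 (hF (Finset.mem_singleton_self i)), (hp i).fin_mul]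
  · refine (hs.const_mul _).unique ((SLim.const _).congr' ?_)
    filter_upwards [eventually_ge_atTop ({i} : Finset ι)] with F hF
    rw [mul_assoc, star_mul_sum h1 (hF (Finset.mem_singleton_self i)), (hp i).mul_init]
  · refine (hs.const_mul _).unique ((SLim.const _).congr' (Eventually.of_forall fun F => ?_))
    simp only [Finset.mul_sum, hx, Finset.sum_const_zero]
  · refine (hs.mul_const _).unique ((SLim.const _).congr' (Eventually.of_forall fun F => ?_))
    simp only [Finset.sum_mul, hx, Finset.sum_const_zero]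

/-- (ADD) inside the algebra `M` -/
theorem IsVN.add_coe (hM : IsVN M) (S : Set M) (hp : ∀ v ∈ S, v * star v * v = v)
    (ho : ∀ v ∈ S, ∀ w ∈ S, v ≠ w → star v * w = 0 ∧ v * star w = 0) :
    ∃ s : M, (∀ v ∈ S, s * (star v * v) = v ∧ v * star v * s = v) ∧
      (∀ x : M, (∀ v ∈ S, x * v = 0) → x * s = 0) ∧
      ∀ x : M, (∀ v ∈ S, v * x = 0) → s * x = 0 := by
  obtain ⟨s, hs, -, -, -, a1, a2, a3, a4⟩ := hM.add_family (ι := S) (fun v => (v.1 : H →L[ℂ] H))
    (fun v => v.1.2) (fun v => congrArg Subtype.val (hp v.1 v.2))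
    (fun v w h => congrArg Subtype.val (ho v.1 v.2 w.1 w.2 fun e => h (Subtype.ext e)).1)
    (fun v w h => congrArg Subtype.val (ho v.1 v.2 w.1 w.2 fun e => h (Subtype.ext e)).2)
  refine ⟨⟨s, hs⟩, fun v hv => ⟨Subtype.ext (a1 ⟨v, hv⟩), Subtype.ext (a2 ⟨v, hv⟩)⟩,
    fun x hx => Subtype.ext (a3 x fun v => congrArg Subtype.val (hx v.1 v.2)),
    fun x hx => Subtype.ext (a4 x fun v => congrArg Subtype.val (hx v.1 v.2))⟩

/-- (POL) inside the algebra `M` -/
theorem IsVN.pol_coe (hM : IsVN M) (x : M) (h0 : x ≠ 0) :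
    ∃ v : M, v ≠ 0 ∧ v * star v * v = v ∧ (∀ y : M, y * x = 0 → y * v = 0) ∧
      ∀ y : M, x * y = 0 → v * y = 0 := by
  obtain ⟨v, hv, a0, a1, a2, a3⟩ := hM.pol x.2 fun h => h0 (Subtype.ext h)
  exact ⟨⟨v, hv⟩, fun h => a0 (congrArg Subtype.val h), Subtype.ext a1,
    fun y hy => Subtype.ext (a2 y (congrArg Subtype.val hy)),
    fun y hy => Subtype.ext (a3 y (congrArg Subtype.val hy))⟩

/-- (RK) inside the algebra `M` -/
theorem IsVN.rk_coe (hM : IsVN M) (x : M) :
    ∃ p : M, IsStarProjection p ∧ p * x = x ∧ ∀ y : M, y * x = 0 → y * p = 0 := by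
  have h := hM.lp_pj x.2
  exact ⟨⟨lp (x : H →L[ℂ] H), h.1⟩, ⟨Subtype.ext h.idem, Subtype.ext h.star_eq⟩,
    Subtype.ext (lp_mul _), fun y hy => Subtype.ext (mul_lp_eq_zero (congrArg Subtype.val hy))⟩

theorem coe_star_mul_self (x : M) (h : star x * x = 0) : x = 0 :=
  Subtype.ext ((CStarRing.star_mul_self_eq_zero_iff (x : H →L[ℂ] H)).1 (congrArg Subtype.val h))

theorem coe_proper (M : StarSubalgebra ℂ (H →L[ℂ] H)) : _root_.Lib.MP_08bba9_an.W.Proper M :=
  coe_star_mul_self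

theorem IsVN.hAdd (hM : IsVN M) : _root_.Lib.MP_08bba9_an.W.Add M := fun S hS => by
  obtain ⟨s, a1, a2, a3⟩ := hM.add_coe S hS.1 hS.2
  exact ⟨s, fun v hv => (a1 v hv).1, fun v hv => (a1 v hv).2, a2, a3⟩

theorem IsVN.hPol (hM : IsVN M) : _root_.Lib.MP_08bba9_an.W.Pol M := hM.pol_coe

theorem IsVN.hCmp (hM : IsVN M) : _root_.Lib.MP_08bba9_an.W.Cmp M :=
  _root_.Lib.MP_08bba9_an.W.cmp_of hM.hAdd hM.hPol

/-- the finite central part and the halving isometries on its complement -/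
theorem IsVN.fin_half (hM : IsVN M) :
    ∃ z : M, IsStarProjection z ∧ (∀ a, z * a = a * z) ∧ _root_.Lib.MP_08bba9_an.W.Fint z ∧
      ∃ t : ℕ → M, (∀ i, star (t i) * t i = 1 - z) ∧ (∀ i, (1 - z) * t i = t i) ∧
        ∀ i j, i ≠ j → star (t i) * t j = 0 :=
  _root_.Lib.MP_08bba9_an.W.fin_half (coe_proper M) hM.hAdd hM.hCmp

end Pool.Agent.Lib.MP_08bba9_an.W
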