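import Pool.Agent.Lib.MP_08bba9_an.W.Bridge
import Pool.Agent.Lib.MP_08bba9_an.K.Disp

/-! The structure `K.Hyp` from the polar form, comparison and almost tracial states. -/

open scoped ComplexOrder

namespace Pool.Agent.Lib.MP_08bba9_an.W

variable {M : Type*} [CStarAlgebra M]

theorem hyp_of (U : Set M) (h1 : (1 : M) ∈ U) (h0 : (0 : M) ∉ U)
    (hmul : ∀ z ∈ U, ∀ y ∈ U, z * y ∈ U)
    (hU : ∀ z ∈ U, IsStarProjection z ∧ ∀ x, z * x = x * z)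
    (hD : ∀ z : M, IsStarProjection z → (∀ x, z * x = x * z) → z ∈ U ∨ 1 - z ∈ U)
    {zf : M} (hf : zf ∈ U)
    (hR : ∀ T : M, ∃ v : M, IsStarProjection (v * star v) ∧ v * star v * T = T ∧
      (∀ x, x * T = 0 → x * (v * star v) = 0) ∧ ∀ x, T * x = 0 → v * x = 0)
    (hC : ∀ p q : M, IsStarProjection p → IsStarProjection q → ∃ z : M, IsStarProjection z ∧
      (∀ x, z * x = x * z) ∧ (∃ v, star v * v = z * p ∧ q * v = v) ∧
      ∃ w, star w * w = (1 - z) * q ∧ p * w = w)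
    (hTR : ∀ z : M, IsStarProjection z → (∀ x, z * x = x * z) → z ≠ 0 → zf * z = z →
      ∀ ε : ℝ, 0 < ε → ∃ ρ : M →L[ℂ] ℂ, (∀ x, 0 ≤ ρ (star x * x)) ∧ ρ 1 = 1 ∧
      ρ z = 1 ∧ ∀ x, (ρ (star x * x)).re ≤ (1 + ε) * (ρ (x * star x)).re) :
    ∃ τ : M →L[ℂ] ℂ, K.Hyp U τ := by
  obtain ⟨τ, a, -, c, d, e, f⟩ := finBridge U h1 h0 hmul hU hD hf
    (fun p q hp hq => join_of_polar hR hp hq) hC hTR
  exact ⟨τ, fun z hz => (hU z hz).1, fun z hz => (hU z hz).2, h1, hmul, d, c,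
    fun x => (Complex.nonneg_iff.1 (a x)).1, Br.herm a, e, f⟩

end Pool.Agent.Lib.MP_08bba9_an.W
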