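import Pool.Agent.Lib.MP_08bba9_an.W.WA
import Pool.Agent.Lib.MP_08bba9_an.K.End

/-! Both alternatives of the dichotomy pass to smaller central projections. -/

noncomputable section

namespace Pool.Agent.Lib.MP_08bba9_an.W

open K

variable {M : Type*} [CStarAlgebra M]

theorem pinf_her {z c : M} (hc : IsStarProjection c) (hz : c * z = c)
    (h : PInf z) : PInf c := by
  obtain ⟨t, h1, h2⟩ := h
  have e : ∀ i j, star (t i * c) * (t j * c) = c * (star (t i) * t j) * c := fun i j => by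
    rw [star_mul, hc.isSelfAdjoint.star_eq]
    simp only [mul_assoc]
  refine ⟨fun i => t i * c, fun i => ?_, fun i j hij => ?_⟩
  · rw [e, h1, hz, hc.isIdempotentElem.eq]
  · rw [e, h2 i j hij, mul_zero, zero_mul]

theorem kp_her {R I : Type*} [Fintype R] {a : R → M} {Y : I → R → M} {z c : M} {ε : ℝ}
    (hc : IsStarProjection c) (hz : c * z = c) (h : KP a Y z ε) : KP a Y c ε := by
  obtain ⟨N, hN, u, hu, h⟩ := h
  refine ⟨N, hN, u, hu, fun r i => le_trans (Finset.sum_le_sum fun w _ => ?_) (h r i)⟩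
  rw [← hz, mul_assoc]
  exact (norm_mul_le _ _).trans (mul_le_of_le_one_left (norm_nonneg _) hc.norm_le)

theorem WA.dich_of (hW : WA M) {R I : Type*} [Fintype R] (a : R → M) (Y : I → R → M) {ε : ℝ}
    (hk : ∀ (U : Set M) (τ : M →L[ℂ] ℂ), Hyp U τ → ∃ z ∈ U, KP a Y z ε) :
    ∃ (k : ℕ) (c : Fin k → M), IsPart c ∧ ∀ j, PInf (c j) ∨ KP a Y (c j) ε := by
  obtain ⟨zf, h1, h2, h3, h4⟩ := hW.split
  refine part_fin (fun z => PInf z ∨ KP a Y z ε) (fun z c hc _ hz h => ?_) (fun U hU => ?_)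
  · exact h.imp (pinf_her hc hz) (kp_her hc hz)
  · rcases hU.tot zf h1 h2 with h | h
    · obtain ⟨τ, hτ⟩ := h4 U hU h
      obtain ⟨z, hz, hz'⟩ := hk U τ hτ
      exact ⟨z, hz, Or.inr hz'⟩
    · exact ⟨_, h, Or.inl h3⟩

/-- a finite partition of unity in central projections that are properly infinite or have the norm
property -/
theorem WA.dich {M : Type*} [CStarAlgebra M] (hW : WA M)
    {R I : Type} [Fintype R] [Nonempty R] [Fintype I] (a : R → M) (Y : I → R → M) {d : M}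
    (hd : star d = d ∧ d * d = 1) (ha : ∀ r, a r ∈ unitary M) (hY : ∀ i r, ‖Y i r‖ ≤ 1)
    (hdY : ∀ i r, d * Y i r * d = -Y i r) {ε : ℝ} (hε : 0 < ε) :
    ∃ (k : ℕ) (c : Fin k → M), IsPart c ∧ ∀ j, PInf (c j) ∨ KP a Y (c j) ε :=
  hW.dich_of a Y fun _ _ h => kend h hW.rk a Y hd ha hY hdY hε

end Pool.Agent.Lib.MP_08bba9_an.W
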