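import Pool.Agent.Lib.MP_08bba9_an.W.Vn1

/-! The universal representation and the algebra of bounded strong star limits. -/

set_option linter.unusedSectionVars false

noncomputable section

namespace Pool.Agent.Lib.MP_08bba9_an.W

open Filter Topology
open scoped InnerProductSpace ComplexOrder

universe u

theorem exists_univ (D : Type u) [CStarAlgebra D] [PartialOrder D] [StarOrderedRing D] :
    ∃ (H : Type u) (_ : NormedAddCommGroup H) (_ : InnerProductSpace ℂ H) (_ : CompleteSpace H)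
      (π : D →⋆ₐ[ℂ] (H →L[ℂ] H)), ∀ f : D →L[ℂ] ℂ, (∀ c, 0 ≤ c → 0 ≤ f c) →
        ∃ ξ : H, ∀ x, (f (star x * x)).re = ‖π x ξ‖ ^ 2 := by
  classical
  let H := _root_.lp (fun f : D →ₚ[ℂ] ℂ => f.GNS) 2
  have hb : ∀ (a : D) (f : D →ₚ[ℂ] ℂ), ‖f.gnsStarAlgHom a‖ ≤ ‖a‖ := fun a f =>
    NonUnitalStarAlgHom.norm_apply_le f.gnsStarAlgHom a
  let P : D → H →L[ℂ] H := fun a => _root_.lp.mapCLM 2 (fun f => f.gnsStarAlgHom a) (norm_nonneg a) (hb a)
  have hP : ∀ a (x : H) f, P a x f = f.gnsStarAlgHom a (x f) := fun _ _ _ => rfl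
  have ext : ∀ S T : H →L[ℂ] H, (∀ x f, S x f = T x f) → S = T := fun S T h =>
    ContinuousLinearMap.ext fun x => _root_.lp.ext (funext (h x))
  let π : D →⋆ₐ[ℂ] (H →L[ℂ] H) :=
    { toFun := P
      map_one' := ext _ _ fun x f => by rw [hP, map_one]; rfl
      map_mul' := fun a b => ext _ _ fun x f => by rw [hP, map_mul]; rfl
      map_zero' := ext _ _ fun x f => by rw [hP, map_zero]; rfl
      map_add' := fun a b => ext _ _ fun x f => by rw [hP, map_add]; rfl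
      commutes' := fun r => ext _ _ fun x f => by
        rw [hP, AlgHomClass.commutes, Algebra.algebraMap_eq_smul_one,
          Algebra.algebraMap_eq_smul_one]; rfl
      map_star' := fun a => by
        rw [ContinuousLinearMap.star_eq_adjoint, ContinuousLinearMap.eq_adjoint_iff]
        intro x y
        rw [_root_.lp.inner_eq_tsum, _root_.lp.inner_eq_tsum]
        refine tsum_congr fun f => ?_
        rw [hP, hP, map_star, ContinuousLinearMap.star_eq_adjoint,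
          ContinuousLinearMap.adjoint_inner_left] }
  refine ⟨H, inferInstance, inferInstance, inferInstance, π, fun f hf => ?_⟩
  let g : D →ₚ[ℂ] ℂ := PositiveLinearMap.mk₀ f.toLinearMap hf
  refine ⟨_root_.lp.single 2 g ((g.toPreGNS 1 : g.PreGNS) : g.GNS), fun x => ?_⟩
  have e : π x (_root_.lp.single 2 g ((g.toPreGNS 1 : g.PreGNS) : g.GNS)) =
      _root_.lp.single 2 g ((g.toPreGNS x : g.PreGNS) : g.GNS) := by
    refine _root_.lp.ext (funext fun k => ?_)
    change P x _ k = _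
    rw [hP]
    by_cases hk : k = g
    · subst hk
      rw [_root_.lp.single_apply_self, _root_.lp.single_apply_self]
      change g.gnsNonUnitalStarAlgHom x _ = _
      rw [PositiveLinearMap.gnsNonUnitalStarAlgHom_apply_coe]
      simp
    · rw [_root_.lp.single_apply_ne _ _ _ hk, _root_.lp.single_apply_ne _ _ _ hk, map_zero]
  rw [e, _root_.lp.norm_single (by norm_num), UniformSpace.Completion.norm_coe]
  have := congrArg Complex.re (g.preGNS_norm_sq (g.toPreGNS x))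
  rw [← Complex.ofReal_pow, Complex.ofReal_re] at this
  exact this.symm

theorem clamp {D : Type*} [CStarAlgebra D] (a : D) (k : ℕ) : ∃ r : D, star r = r ∧ ‖r‖ ≤ 1 ∧
    ‖a * r‖ ≤ 2 ∧ r = 1 - r * ((1 / 4 : ℂ) • (star a * a)) ^ (k + 1) := by
  let _ := CStarAlgebra.spectralOrder D
  let _ := CStarAlgebra.spectralOrderedRing D
  set h := star a * a with hh
  have h0 : 0 ≤ h := star_mul_self_nonneg a
  have hs : IsSelfAdjoint h := h0.isSelfAdjoint
  have hsp : ∀ t ∈ spectrum ℝ h, 0 ≤ t := fun t ht => spectrum_nonneg_of_nonneg h0 ht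
  let g : ℝ → ℝ := fun t => (1 + (t / 4) ^ (k + 1))⁻¹
  have hpos : ∀ t : ℝ, 0 ≤ t → 1 ≤ 1 + (t / 4) ^ (k + 1) := fun t ht =>
    le_add_of_nonneg_right (by positivity)
  have hg : ContinuousOn g (spectrum ℝ h) :=
    ContinuousOn.inv₀ (by fun_prop) fun t ht => by linarith [hpos t (hsp t ht)]
  have g0 : ∀ t : ℝ, 0 ≤ t → 0 ≤ g t ∧ g t ≤ 1 := fun t ht =>
    ⟨by positivity, inv_le_one_of_one_le₀ (hpos t ht)⟩
  have hr : star (cfc g h) = cfc g h := (cfc_predicate g h : IsSelfAdjoint _).star_eq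
  refine ⟨cfc g h, hr, norm_cfc_le zero_le_one fun t ht => ?_, ?_, ?_⟩
  · rw [Real.norm_of_nonneg (g0 t (hsp t ht)).1]; exact (g0 t (hsp t ht)).2
  · have e : star (a * cfc g h) * (a * cfc g h) = cfc (fun t => g t * t * g t) h := by
      rw [cfc_mul _ _ h, cfc_mul _ _ h, cfc_id' ℝ h, star_mul, hr, hh]
      simp only [mul_assoc]
    have e2 : ‖cfc (fun t => g t * t * g t) h‖ ≤ 4 := norm_cfc_le (by norm_num) fun t ht => by
      have t0 := hsp t ht
      obtain ⟨a1, a2⟩ := g0 t t0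
      rw [Real.norm_of_nonneg (by positivity)]
      have a3 : g t * t ≤ 4 := by
        rcases le_total t 4 with p | p
        · nlinarith
        · have b1 : t / 4 ≤ (t / 4) ^ (k + 1) := le_self_pow₀ (by linarith) (by omega)
          change (1 + (t / 4) ^ (k + 1))⁻¹ * t ≤ 4
          rw [inv_mul_le_iff₀ (by linarith [hpos t t0])]
          linarith
      nlinarith [mul_nonneg a1 t0]
    rw [← e, CStarRing.norm_star_mul_self] at e2
    nlinarith [norm_nonneg (a * cfc g h)]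
  · have e1 : ((1 / 4 : ℂ) • h) ^ (k + 1) = cfc (fun t : ℝ => (t / 4) ^ (k + 1)) h := by
      rw [cfc_pow _ _ h]
      congr 1
      have : cfc (fun t : ℝ => t / 4) h = cfc (fun t : ℝ => (1 / 4 : ℝ) • t) h :=
        cfc_congr fun t _ => by simp; ring
      rw [this, cfc_smul (1 / 4 : ℝ) (fun t : ℝ => t) h, cfc_id' ℝ h, ← Complex.coe_smul]
      norm_num
    have hp : ContinuousOn (fun t : ℝ => (t / 4) ^ (k + 1)) (spectrum ℝ h) := by fun_prop
    have e2 : cfc g h * cfc (fun t : ℝ => (t / 4) ^ (k + 1)) h =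
        cfc (fun t : ℝ => g t * (t / 4) ^ (k + 1)) h := (cfc_mul g _ h hg hp).symm
    have e3 : cfc (fun t : ℝ => g t + g t * (t / 4) ^ (k + 1)) h =
        cfc g h + cfc (fun t : ℝ => g t * (t / 4) ^ (k + 1)) h := cfc_add h g _ hg (hg.mul hp)
    have e4 : cfc (fun t : ℝ => g t + g t * (t / 4) ^ (k + 1)) h = cfc (1 : ℝ → ℝ) h :=
      cfc_congr fun t ht => by
        have := hpos t (hsp t ht)
        simp only [g, Pi.one_apply]
        field_simp
    rw [e1, e2]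
    exact eq_sub_of_add_eq (by rw [← e3, e4, cfc_one ℝ h])

variable {H : Type*} [NormedAddCommGroup H] [InnerProductSpace ℂ H] [CompleteSpace H]
  {D : Type*} [CStarAlgebra D]

theorem SLim.add {ι : Type*} {l : Filter ι} {a b : ι → H →L[ℂ] H} {S T : H →L[ℂ] H}
    (h1 : SLim l a S) (h2 : SLim l b T) : SLim l (fun i => a i + b i) (S + T) :=
  fun ξ => (h1 ξ).add (h2 ξ)

theorem SLim.smul {ι : Type*} {l : Filter ι} {a : ι → H →L[ℂ] H} {S : H →L[ℂ] H}
    (h1 : SLim l a S) (c : ℂ) : SLim l (fun i => c • a i) (c • S) :=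
  fun ξ => (h1 ξ).const_smul c

theorem SLim.pow {ι : Type*} {l : Filter ι} {a : ι → H →L[ℂ] H} {S : H →L[ℂ] H} {C : ℝ}
    (hC : ∀ i, ‖a i‖ ≤ C) (h1 : SLim l a S) (k : ℕ) : SLim l (fun i => a i ^ k) (S ^ k) := by
  induction k with
  | zero => simpa using SLim.const (l := l) (1 : H →L[ℂ] H)
  | succ k ih => simpa [pow_succ'] using SLim.mul hC h1 ih

/-- `T` is approximated in the strong star sense by images of elements of norm at most `C`. -/
def App (π : D →⋆ₐ[ℂ] (H →L[ℂ] H)) (C : ℝ) (T : H →L[ℂ] H) : Prop :=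
  ∀ (s : Finset H) (ε : ℝ), 0 < ε → ∃ a : D, ‖a‖ ≤ C ∧
    ∀ ξ ∈ s, ‖π a ξ - T ξ‖ ≤ ε ∧ ‖(star (π a)) ξ - (star T) ξ‖ ≤ ε

/-- A bounded net of `D` that converges to `T` in the strong star sense. -/
def Net (ρ : D → H →L[ℂ] H) (C : ℝ) (T : H →L[ℂ] H) (a : Finset H × ℕ → D) : Prop :=
  (∀ i, ‖a i‖ ≤ C) ∧ SLim atTop (fun i => ρ (a i)) T ∧
    SLim atTop (fun i => star (ρ (a i))) (star T)

variable {π : D →⋆ₐ[ℂ] (H →L[ℂ] H)} {C : ℝ} {T : H →L[ℂ] H}

instance neBot_idx (X : Type*) : (atTop : Filter (Finset X × ℕ)).NeBot := by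
  classical exact atTop_neBot

theorem app_iff : App π C T ↔ ∃ a, Net π C T a := by
  constructor
  · intro h
    choose a h1 h2 using fun i : Finset H × ℕ => h i.1 (1 / ((i.2 : ℝ) + 1)) Nat.one_div_pos_of_nat
    have key : ∀ (ξ : H) (f : Finset H × ℕ → H) (y : H),
        (∀ i, ξ ∈ i.1 → ‖f i - y‖ ≤ 1 / ((i.2 : ℝ) + 1)) → Tendsto f atTop (𝓝 y) := by
      intro ξ f y hf
      rw [tendsto_iff_norm_sub_tendsto_zero]
      have t1 : Tendsto (fun i : Finset H × ℕ => 1 / ((i.2 : ℝ) + 1)) atTop (𝓝 0) :=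
        tendsto_one_div_add_atTop_nhds_zero_nat.comp (by rw [← prod_atTop_atTop_eq]; exact tendsto_snd)
      refine squeeze_zero' (Eventually.of_forall fun _ => norm_nonneg _) ?_ t1
      filter_upwards [eventually_ge_atTop (({ξ}, 0) : Finset H × ℕ)] with i hi
      exact hf i (hi.1 (Finset.mem_singleton_self ξ))
    exact ⟨a, h1, fun ξ => key ξ _ _ fun i hi => (h2 i ξ hi).1,
      fun ξ => key ξ _ _ fun i hi => (h2 i ξ hi).2⟩
  · rintro ⟨a, h0, h1, h2⟩ s ε hε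
    have h : ∀ᶠ i in atTop, ∀ ξ ∈ s,
        ‖π (a i) ξ - T ξ‖ ≤ ε ∧ ‖(star (π (a i))) ξ - (star T) ξ‖ ≤ ε := by
      rw [Filter.eventually_all_finset]
      intro ξ _
      filter_upwards [(Metric.tendsto_nhds.1 (h1 ξ)) ε hε, (Metric.tendsto_nhds.1 (h2 ξ)) ε hε]
        with i x y
      rw [dist_eq_norm] at x y
      exact ⟨x.le, y.le⟩
    obtain ⟨i, hi⟩ := h.exists
    exact ⟨a i, h0 i, hi⟩

theorem norm_pi_le (π : D →⋆ₐ[ℂ] (H →L[ℂ] H)) (a : D) : ‖π a‖ ≤ ‖a‖ :=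
  NonUnitalStarAlgHom.norm_apply_le π a

theorem App.smul (h : App π C T) (c : ℂ) : App π (‖c‖ * C) (c • T) := by
  obtain ⟨a, h0, h1, h2⟩ := app_iff.1 h
  refine app_iff.2 ⟨fun i => c • a i, fun i => ?_, ?_, ?_⟩
  · rw [norm_smul]; gcongr; exact h0 i
  · simpa only [map_smul] using h1.smul c
  · simpa only [map_smul, star_smul] using h2.smul (star c)

theorem App.two (h : App π C T) (hT : ‖T‖ ≤ 1) : App π 2 T := by
  obtain ⟨a, h0, h1, h2⟩ := app_iff.1 h
  intro s ε hε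
  set K : ℝ := ∑ ξ ∈ s, ‖ξ‖ + 1 with hK
  have hs : 0 ≤ ∑ ξ ∈ s, ‖ξ‖ := Finset.sum_nonneg fun _ _ => norm_nonneg _
  have hK0 : 0 < K := by rw [hK]; linarith
  obtain ⟨k, hk⟩ := exists_pow_lt_of_lt_one (show 0 < ε / 8 / K by positivity)
    (show (1 / 4 : ℝ) < 1 by norm_num)
  have b1 : ∀ i, ‖π (a i)‖ ≤ C := fun i => (norm_pi_le π _).trans (h0 i)
  have b2 : ∀ i, ‖star (π (a i))‖ ≤ C := fun i => by rw [norm_star]; exact b1 i
  set P : (H →L[ℂ] H) → H →L[ℂ] H := fun x => ((1 / 4 : ℂ) • (star x * x)) ^ (k + 1) with hP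
  have b3 : ∀ (x : H →L[ℂ] H) (B : ℝ), ‖x‖ ≤ B → ‖(1 / 4 : ℂ) • (star x * x)‖ ≤ 1 / 4 * (B * B) :=
    fun x B hx => by
      rw [norm_smul, CStarRing.norm_star_mul_self]
      have := norm_nonneg x
      have := this.trans hx
      gcongr
      simp
  have l1 : SLim atTop (fun i => P (π (a i))) (P T) :=
    SLim.pow (fun i => b3 _ C (b1 i)) ((SLim.mul b2 h2 h1).smul _) _
  have l2 : SLim atTop (fun i => P (π (a i)) * star (π (a i))) (P T * star T) :=
    SLim.mul (C := (1 / 4 * (C * C)) ^ (k + 1)) (fun i => (norm_pow_le' _ k.succ_pos).trans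
      (pow_le_pow_left₀ (norm_nonneg _) (b3 _ C (b1 i)) _)) l1 h2
  have n1 : ‖P T‖ ≤ ε / 8 / K := by
    refine ((norm_pow_le' _ k.succ_pos).trans (pow_le_pow_left₀ (norm_nonneg _) (b3 T 1 hT) _)).trans ?_
    rw [mul_one, mul_one]
    exact (pow_le_pow_of_le_one (by norm_num) (by norm_num) k.le_succ).trans hk.le
  have n2 : ‖P T * star T‖ ≤ ε / 8 / K :=
    (norm_mul_le _ _).trans ((mul_le_of_le_one_right (norm_nonneg _) (by rwa [norm_star])).trans n1)
  have key : ∀ ξ ∈ s, ∀ b : H →L[ℂ] H, ‖b‖ ≤ ε / 8 / K → ‖b ξ‖ < ε / 4 := fun ξ hξ b hb => by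
    have hξK : ‖ξ‖ ≤ K := by
      have := Finset.single_le_sum (f := fun ξ : H => ‖ξ‖) (fun _ _ => norm_nonneg _) hξ
      rw [hK]; linarith
    calc ‖b ξ‖ ≤ ‖b‖ * ‖ξ‖ := b.le_opNorm ξ
      _ ≤ ε / 8 / K * K := by gcongr
      _ = ε / 8 := by field_simp
      _ < ε / 4 := by linarith
  have hev : ∀ᶠ i in atTop, ∀ ξ ∈ s, ‖π (a i) ξ - T ξ‖ ≤ ε / 2 ∧
      ‖(star (π (a i))) ξ - (star T) ξ‖ ≤ ε / 2 ∧ ‖P (π (a i)) ξ‖ < ε / 4 ∧
      ‖(P (π (a i)) * star (π (a i))) ξ‖ < ε / 4 := by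
    rw [Filter.eventually_all_finset]
    intro ξ hξ
    filter_upwards [(Metric.tendsto_nhds.1 (h1 ξ)) _ (half_pos hε),
      (Metric.tendsto_nhds.1 (h2 ξ)) _ (half_pos hε),
      (l1 ξ).norm.eventually (gt_mem_nhds (key ξ hξ _ n1)),
      (l2 ξ).norm.eventually (gt_mem_nhds (key ξ hξ _ n2))] with i x y z w
    rw [dist_eq_norm] at x y
    exact ⟨x.le, y.le, z, w⟩
  obtain ⟨i, hi⟩ := hev.exists
  obtain ⟨r, r1, r2, r3, r4⟩ := clamp (a i) k
  have r5 : π r = 1 - π r * P (π (a i)) := by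
    conv_lhs => rw [r4]
    simp only [hP, map_sub, map_one, map_mul, map_pow, map_smul, map_star]
  refine ⟨a i * r, r3, fun ξ hξ => ?_⟩
  obtain ⟨c1, c2, c3, c4⟩ := hi ξ hξ
  constructor
  · have e : π (a i * r) ξ - T ξ = (π (a i) ξ - T ξ) - π (a i * r) (P (π (a i)) ξ) := by
      conv_lhs => rw [map_mul, r5, mul_sub, mul_one, ← mul_assoc, ← map_mul]
      simp only [sub_apply, mul_apply_eq_comp]
      abel
    have := ((π (a i * r)).le_opNorm (P (π (a i)) ξ)).trans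
      (mul_le_mul_of_nonneg_right ((norm_pi_le π _).trans r3) (norm_nonneg _))
    rw [e]
    refine (norm_sub_le _ _).trans (by linarith)
  · have e : star (π (a i * r)) ξ - star T ξ = (star (π (a i)) ξ - star T ξ) -
        π r ((P (π (a i)) * star (π (a i))) ξ) := by
      conv_lhs => rw [map_mul, star_mul, ← map_star π r, r1, r5, sub_mul, one_mul, mul_assoc]
      simp only [sub_apply, mul_apply_eq_comp]
      abel
    have := ((π r).le_opNorm ((P (π (a i)) * star (π (a i))) ξ)).trans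
      (mul_le_mul_of_nonneg_right ((norm_pi_le π _).trans r2) (norm_nonneg _))
    rw [e]
    refine (norm_sub_le _ _).trans (by linarith)

theorem app_pi (π : D →⋆ₐ[ℂ] (H →L[ℂ] H)) (a : D) : App π ‖a‖ (π a) :=
  fun _ _ hε => ⟨a, le_rfl, fun _ _ => by simp [hε.le]⟩

theorem App.norm (h : App π C T) : App π (2 * ‖T‖) T := by
  rcases eq_or_ne T 0 with rfl | h0
  · simpa using app_pi π 0
  have hp : 0 < ‖T‖ := norm_pos_iff.2 h0
  have h1 := ((h.smul ((‖T‖ : ℂ)⁻¹)).two (by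
    rw [norm_smul, norm_inv, Complex.norm_real, norm_norm, inv_mul_cancel₀ hp.ne'])).smul (‖T‖ : ℂ)
  rwa [smul_smul, mul_inv_cancel₀ (by exact_mod_cast hp.ne'), one_smul, Complex.norm_real,
    norm_norm, mul_comm] at h1

/-- The algebra of strong star limits of bounded nets. -/
def lims (π : D →⋆ₐ[ℂ] (H →L[ℂ] H)) : StarSubalgebra ℂ (H →L[ℂ] H) where
  carrier := {T | ∃ C, App π C T}
  mul_mem' := by
    rintro S T ⟨B, hS⟩ ⟨C, hT⟩
    obtain ⟨a, a0, a1, a2⟩ := app_iff.1 hS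
    obtain ⟨b, b0, b1, b2⟩ := app_iff.1 hT
    refine ⟨B * C, app_iff.2 ⟨fun i => a i * b i, fun i => (norm_mul_le _ _).trans
      (mul_le_mul (a0 i) (b0 i) (norm_nonneg _) ((norm_nonneg _).trans (a0 i))), ?_, ?_⟩⟩
    · simpa only [map_mul] using SLim.mul (fun i => (norm_pi_le π _).trans (a0 i)) a1 b1
    · simpa only [map_mul, star_mul] using SLim.mul
        (fun i => (norm_star _).trans_le ((norm_pi_le π _).trans (b0 i))) b2 a2
  add_mem' := by
    rintro S T ⟨B, hS⟩ ⟨C, hT⟩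
    obtain ⟨a, a0, a1, a2⟩ := app_iff.1 hS
    obtain ⟨b, b0, b1, b2⟩ := app_iff.1 hT
    refine ⟨B + C, app_iff.2 ⟨fun i => a i + b i, fun i => (norm_add_le _ _).trans
      (add_le_add (a0 i) (b0 i)), ?_, ?_⟩⟩
    · simpa only [map_add] using a1.add b1
    · simpa only [map_add, star_add] using a2.add b2
  algebraMap_mem' r := ⟨_, by
    have := app_pi π (algebraMap ℂ D r)
    rwa [AlgHomClass.commutes] at this⟩
  star_mem' := by
    rintro T ⟨C, hT⟩
    obtain ⟨a, a0, a1, a2⟩ := app_iff.1 hT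
    refine ⟨C, app_iff.2 ⟨fun i => star (a i), fun i => (norm_star _).trans_le (a0 i), ?_, ?_⟩⟩
    · simpa only [map_star] using a2
    · simpa only [map_star, star_star] using a1

theorem lims_isVN (π : D →⋆ₐ[ℂ] (H →L[ℂ] H)) : IsVN (lims π) := by
  intro T C h
  refine ⟨2 * C, fun s ε hε => ?_⟩
  obtain ⟨b, ⟨B, hB⟩, b1, b2⟩ := h s _ (half_pos hε)
  obtain ⟨a, a1, a2⟩ := hB.norm s _ (half_pos hε)
  refine ⟨a, by linarith, fun ξ hξ => ⟨?_, ?_⟩⟩
  · linarith [norm_sub_le_norm_sub_add_norm_sub (π a ξ) (b ξ) (T ξ), (a2 ξ hξ).1, (b2 ξ hξ).1]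
  · linarith [norm_sub_le_norm_sub_add_norm_sub (star (π a) ξ) (star b ξ) (star T ξ),
      (a2 ξ hξ).2, (b2 ξ hξ).2]

end Pool.Agent.Lib.MP_08bba9_an.W
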