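import Mathlib

/-! A weak Grothendieck inequality for bounded bilinear forms on unital C⋆-algebras. -/

open Complex Filter Topology
open scoped ComplexOrder ComplexStarModule

namespace Pool.Agent.Lib.MP_08bba9_an.W

namespace Gro

section one
variable {A : Type*} [CStarAlgebra A] [PartialOrder A] [StarOrderedRing A]

lemma norm_le_one {c : A} (h0 : 0 ≤ c) (h1 : c ≤ 1) : ‖c‖ ≤ 1 :=
  (CStarAlgebra.norm_le_one_iff_of_nonneg c h0).2 h1

lemma le_one {c : A} (h0 : 0 ≤ c) (h1 : ‖c‖ ≤ 1) : c ≤ 1 :=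
  (CStarAlgebra.norm_le_one_iff_of_nonneg c h0).1 h1

lemma sq_le {c : A} (h0 : 0 ≤ c) (h1 : ‖c‖ ≤ 1) : c * c ≤ c := by
  have h : Commute c (1 - c) := (Commute.one_right c).sub_right (Commute.refl c)
  have := h.mul_nonneg h0 (sub_nonneg.2 (le_one h0 h1))
  rwa [mul_sub, mul_one, sub_nonneg] at this

lemma sa_sq_nonneg {a : A} (ha : IsSelfAdjoint a) : 0 ≤ a * a := by
  simpa [ha.star_eq] using star_mul_self_nonneg a

lemma sa_norm_le {a : A} (ha : IsSelfAdjoint a) (h : a * a ≤ 1) : ‖a‖ ≤ 1 := by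
  have h1 := norm_le_one (sa_sq_nonneg ha) h
  rw [ha.norm_mul_self] at h1
  exact (sq_le_one_iff₀ (norm_nonneg _)).1 h1

omit [PartialOrder A] [StarOrderedRing A] in
lemma smul_unitary {w : A} (hw : w ∈ unitary A) {z : ℂ} (hz : star z * z = 1) :
    z • w ∈ unitary A := by
  constructor
  · rw [star_smul, smul_mul_smul_comm, hz, hw.1, one_smul]
  · rw [star_smul, smul_mul_smul_comm, mul_comm z, hz, hw.2, one_smul]

lemma exists_sqrt {b : A} (hb : IsSelfAdjoint b) (h1 : ‖b‖ ≤ 1) : ∃ s : A, 0 ≤ s ∧ ‖s‖ ≤ 1 ∧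
    1 - s ≤ b * b ∧ s + I • b ∈ unitary A ∧ s - I • b ∈ unitary A ∧
    b + I • s ∈ unitary A ∧ b - I • s ∈ unitary A := by
  have hbb : b * b ≤ 1 := le_one (sa_sq_nonneg hb) (by
    rw [hb.norm_mul_self]; exact (sq_le_one_iff₀ (norm_nonneg _)).2 h1)
  have h0 : 0 ≤ 1 - b ^ 2 := by rw [sq]; exact sub_nonneg.2 hbb
  set s := CFC.sqrt (1 - b ^ 2) with hs
  have s0 : 0 ≤ s := CFC.sqrt_nonneg _
  have ss : s * s = 1 - b * b := by rw [hs, CFC.sqrt_mul_sqrt_self _ h0, sq]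
  have s1 : ‖s‖ ≤ 1 := sa_norm_le s0.isSelfAdjoint (by
    rw [ss]; exact sub_le_self _ (sa_sq_nonneg hb))
  have hw : b + I • s ∈ unitary A := hb.self_add_I_smul_cfcSqrt_sub_sq_mem_unitary b h1
  have hw' : b - I • s ∈ unitary A := by
    have := Unitary.star_mem hw
    rwa [star_add, star_smul, hb.star_eq, s0.isSelfAdjoint.star_eq, Complex.star_def, conj_I,
      neg_smul, ← sub_eq_add_neg] at this
  refine ⟨s, s0, s1, ?_, ?_, ?_, hw, hw'⟩
  · have := sq_le s0 s1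
    rw [ss] at this
    exact sub_le_comm.1 this
  · have := smul_unitary hw' (z := I) (by simp)
    rwa [smul_sub, smul_smul, I_mul_I, neg_smul, one_smul, sub_neg_eq_add, add_comm] at this
  · have := smul_unitary hw (z := -I) (by simp)
    rwa [smul_add, smul_smul, neg_mul, I_mul_I, neg_neg, one_smul, neg_smul, add_comm,
      ← sub_eq_add_neg] at this

lemma exists_sqrt_t {b : A} (hb : IsSelfAdjoint b) (h1 : ‖b‖ ≤ 1) {t : ℝ} (t0 : 0 < t)
    (t1 : t ≤ 1) : ∃ s : A, ‖1 - s‖ ≤ t ^ 2 ∧ s + I • (t : ℂ) • b ∈ unitary A ∧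
      s - I • (t : ℂ) • b ∈ unitary A := by
  have hb' : IsSelfAdjoint ((t : ℂ) • b) := by
    rw [IsSelfAdjoint, star_smul, hb.star_eq]; simp
  have hn : ‖(t : ℂ) • b‖ ≤ t := by
    rw [norm_smul, Complex.norm_real, Real.norm_of_nonneg t0.le]
    exact mul_le_of_le_one_right t0.le h1
  obtain ⟨s, s0, s1, s2, s3, s4, -⟩ := exists_sqrt hb' (hn.trans t1)
  refine ⟨s, ?_, s3, s4⟩
  refine (CStarAlgebra.norm_le_norm_of_nonneg_of_le (sub_nonneg.2 (le_one s0 s1)) s2).trans ?_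
  rw [hb'.norm_mul_self]
  exact pow_le_pow_left₀ (norm_nonneg _) hn 2

lemma refl_sa {c : A} (h0 : 0 ≤ c) (h1 : ‖c‖ ≤ 1) :
    IsSelfAdjoint (1 - (2 : ℂ) • c) ∧ ‖1 - (2 : ℂ) • c‖ ≤ 1 := by
  have ha : IsSelfAdjoint (1 - (2 : ℂ) • c) := by
    rw [IsSelfAdjoint, star_sub, star_one, star_smul, h0.isSelfAdjoint.star_eq]; simp
  refine ⟨ha, sa_norm_le ha ?_⟩
  have e : (1 - (2 : ℂ) • c) * (1 - (2 : ℂ) • c) =
      1 - ((c - c * c) + (c - c * c) + (c - c * c) + (c - c * c)) := by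
    rw [two_smul]; noncomm_ring
  have := sub_nonneg.2 (sq_le h0 h1)
  rw [e]
  exact sub_le_self _ (add_nonneg (add_nonneg (add_nonneg this this) this) this)

omit [PartialOrder A] [StarOrderedRing A] in
lemma norm_le_of_unitary {E : Type*} [SeminormedAddCommGroup E] [NormedSpace ℂ E]
    (T : A →L[ℂ] E) {m : ℝ} (h : ∀ u ∈ unitary A, ‖T u‖ ≤ m) (x : A) : ‖T x‖ ≤ 2 * m * ‖x‖ := by
  obtain ⟨u, c, hx, hc⟩ := CStarAlgebra.exists_sum_four_unitary x
  have h1 : T x = ∑ i, c i • T (u i) := by conv_lhs => rw [hx]; simp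
  rw [h1]
  refine (norm_sum_le _ _).trans ((Finset.sum_le_card_nsmul _ _ (‖x‖ / 2 * m) ?_).trans ?_)
  · intro i _
    rw [norm_smul]
    exact mul_le_mul (hc i) (h _ (u i).2) (norm_nonneg _) (by positivity)
  · simp; linarith

/-- almost positive functionals -/
structure Ap (ε : ℝ) (f : A →L[ℂ] ℂ) : Prop where
  re : ∀ c : A, 0 ≤ c → ‖c‖ ≤ 1 → -ε ≤ (f c).re
  im : ∀ a : A, IsSelfAdjoint a → ‖a‖ ≤ 1 → ∀ t : ℝ, 0 < t → t ≤ 1 →
    -(ε + 2 * t ^ 2) ≤ t * (f a).im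
  nm : ‖f‖ ≤ 2

lemma sa_le (f : A →L[ℂ] ℂ) (h : ∀ u ∈ unitary A, ‖f u‖ ≤ 1) {y : A} (hy : IsSelfAdjoint y)
    (h1 : ‖y‖ ≤ 1) : (f y).re ≤ 1 := by
  obtain ⟨s, -, -, -, -, -, s5, s6⟩ := exists_sqrt hy h1
  have a1 := (re_le_norm _).trans (h _ s5)
  have a2 := (re_le_norm _).trans (h _ s6)
  simp only [map_add, map_sub, add_re, sub_re] at a1 a2
  linarith

lemma ap_of {ε : ℝ} (f : A →L[ℂ] ℂ) (h : ∀ u ∈ unitary A, ‖f u‖ ≤ 1) (h1 : 1 - ε ≤ (f 1).re) :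
    Ap ε f := by
  have hn : ∀ x, ‖f x‖ ≤ 2 * ‖x‖ := fun x => by simpa using norm_le_of_unitary f h x
  have hε : 0 ≤ ε := by linarith [(re_le_norm _).trans (h 1 (one_mem _))]
  refine ⟨fun c c0 c1 => ?_, fun a ha a1 t t0 t1 => ?_, f.opNorm_le_bound (by norm_num) hn⟩
  · have := sa_le f h (refl_sa c0 c1).1 (refl_sa c0 c1).2
    simp only [map_sub, map_smul, sub_re, smul_eq_mul, mul_re, re_ofNat, im_ofNat] at this
    linarith
  · obtain ⟨s, s1, s2, -⟩ := exists_sqrt_t ha a1 t0 t1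
    have b1 := (re_le_norm _).trans (h _ s2)
    have b2 := (re_le_norm _).trans (hn (1 - s))
    simp only [map_add, map_sub, map_smul, add_re, sub_re, smul_eq_mul, mul_re, I_re, I_im,
      mul_im, ofReal_re, ofReal_im] at b1 b2
    linarith

lemma Ap.conj {ε : ℝ} {f : A →L[ℂ] ℂ} (h : Ap ε f) {u : A} (hu : u ∈ unitary A) :
    Ap ε (f ∘L ContinuousLinearMap.mulLeftRight ℂ A (star u) u) := by
  have hn : ∀ x : A, ‖star u * x * u‖ = ‖x‖ := fun x => by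
    rw [CStarRing.norm_mul_mem_unitary _ hu, CStarRing.norm_mem_unitary_mul _ (Unitary.star_mem hu)]
  refine ⟨fun c c0 c1 => h.re _ (star_left_conjugate_nonneg c0 u) ((hn c).trans_le c1),
    fun a ha a1 t t0 t1 => h.im _ (ha.conjugate' u) ((hn a).trans_le a1) t t0 t1,
    ContinuousLinearMap.opNorm_le_bound _ (by norm_num) fun x => ?_⟩
  calc _ ≤ ‖f‖ * ‖star u * x * u‖ := f.le_opNorm _
    _ ≤ _ := by rw [hn]; exact mul_le_mul_of_nonneg_right h.nm (norm_nonneg _)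

lemma exists_lim (f : ℕ → A →L[ℂ] ℂ) (h : ∀ n : ℕ, Ap (1 / ((n : ℝ) + 1)) (f n)) :
    ∃ g : A →L[ℂ] ℂ, (∀ c, 0 ≤ c → 0 ≤ g c) ∧
      ∀ x, Tendsto (fun n => f n x) (hyperfilter ℕ) (𝓝 (g x)) := by
  have hK := WeakDual.isCompact_closedBall (𝕜 := ℂ) (E := A) 0 2
  obtain ⟨g, -, hg⟩ := hK.ultrafilter_le_nhds
    ((hyperfilter ℕ).map fun n => StrongDual.toWeakDual (f n)) (by
      rw [Ultrafilter.coe_map, le_principal_iff, mem_map]
      exact univ_mem' fun n => by simpa using (h n).nm)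
  have hx : ∀ x, Tendsto (fun n => f n x) (hyperfilter ℕ) (𝓝 (g x)) := fun x =>
    ((WeakDual.eval_continuous x).tendsto g).comp hg
  have h0 : Tendsto (fun n : ℕ => 1 / ((n : ℝ) + 1)) (hyperfilter ℕ) (𝓝 0) :=
    tendsto_one_div_add_atTop_nhds_zero_nat.mono_left Nat.hyperfilter_le_atTop
  have him : ∀ a : A, IsSelfAdjoint a → ‖a‖ ≤ 1 → 0 ≤ (g a).im := by
    intro a ha a1
    refine le_of_forall_pos_le_add fun d d0 => ?_
    have t0 : 0 < min 1 (d / 2) := lt_min one_pos (by linarith)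
    have b1 : -(0 + 2 * min 1 (d / 2) ^ 2) ≤ min 1 (d / 2) * (g a).im :=
      le_of_tendsto_of_tendsto' ((h0.add_const _).neg)
        (((continuous_im.tendsto _).comp (hx a)).const_mul _)
        fun n => (h n).im a ha a1 _ t0 (min_le_left _ _)
    have b2 := min_le_right 1 (d / 2)
    by_contra hlt
    nlinarith
  have hpos : ∀ c : A, 0 ≤ c → ‖c‖ ≤ 1 → 0 ≤ g c := by
    intro c c0 c1
    have b1 : -0 ≤ (g c).re := le_of_tendsto_of_tendsto' h0.neg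
      ((continuous_re.tendsto _).comp (hx c)) fun n => (h n).re c c0 c1
    have b2 := him c c0.isSelfAdjoint c1
    have b3 := him (-c) c0.isSelfAdjoint.neg (by rwa [norm_neg])
    rw [map_neg, neg_im] at b3
    exact Complex.nonneg_iff.2 ⟨by linarith, by linarith⟩
  refine ⟨WeakDual.toStrongDual g, fun c c0 => ?_, hx⟩
  rcases eq_or_ne c 0 with rfl | hc
  · simp
  · have hn : 0 < ‖c‖ := norm_pos_iff.2 hc
    have b1 := hpos ((‖c‖⁻¹ : ℝ) • c) (smul_nonneg (by positivity) c0) (by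
      rw [norm_smul, norm_inv, norm_norm, inv_mul_cancel₀ hn.ne'])
    have e : g c = (‖c‖ : ℂ) * g ((‖c‖⁻¹ : ℝ) • c) := by
      rw [← Complex.coe_smul, map_smul, smul_eq_mul, ← mul_assoc, ← ofReal_mul,
        mul_inv_cancel₀ hn.ne']; simp
    show 0 ≤ g c
    rw [e]
    exact mul_nonneg (by exact_mod_cast hn.le) b1

end one

section two
variable {A B : Type*} [CStarAlgebra A] [PartialOrder A] [StarOrderedRing A]
  [CStarAlgebra B] [PartialOrder B] [StarOrderedRing B]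
  {W : A →L[ℂ] B →L[ℂ] ℂ} {ε : ℝ}

omit [PartialOrder A] [StarOrderedRing A] [PartialOrder B] [StarOrderedRing B] in
lemma norm_bil {m : ℝ} (h : ∀ u ∈ unitary A, ∀ v ∈ unitary B, ‖W u v‖ ≤ m) (a : A) (b : B) :
    ‖W a b‖ ≤ 4 * m * ‖a‖ * ‖b‖ := by
  have := norm_le_of_unitary (W.flip b) (m := 2 * m * ‖b‖)
    (fun u hu => norm_le_of_unitary (W u) (h u hu) b) a
  calc _ ≤ _ := this
    _ = _ := by ring

lemma est_side (h : ∀ u ∈ unitary A, ∀ v ∈ unitary B, ‖W u v‖ ≤ 1) (h1 : 1 - ε ≤ (W 1 1).re)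
    {c : A} (c0 : 0 ≤ c) (c1 : ‖c‖ ≤ 1) {b : B} (hb : IsSelfAdjoint b) (b1 : ‖b‖ ≤ 1) {t : ℝ}
    (t0 : 0 < t) (t1 : t ≤ 1) : t * (W c b).im ≤ (W c 1).re + ε + 8 * t ^ 2 ∧
      -(t * (W c b).re) ≤ (W c 1).re + 2 * ε + 4 * t ^ 2 := by
  obtain ⟨s, s1, s2, s3⟩ := exists_sqrt_t hb b1 t0 t1
  have hs : ∀ a : A, ‖a‖ ≤ 1 → |(W a 1).re - (W a s).re| ≤ 4 * t ^ 2 := by
    intro a a1
    have e1 := (abs_re_le_norm _).trans (norm_bil h a (1 - s))
    rw [map_sub, sub_re] at e1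
    refine e1.trans ?_
    have := mul_le_mul a1 s1 (norm_nonneg _) zero_le_one
    linarith
  constructor
  · have a1 := sa_le (W.flip (s + I • (t : ℂ) • b)) (fun u hu => h u hu _ s2)
      (refl_sa c0 c1).1 (refl_sa c0 c1).2
    have a2 := (re_le_norm _).trans (h 1 (one_mem _) _ s3)
    have a3 := abs_le.1 (hs c c1)
    have a4 := abs_le.1 (hs 1 (norm_le_one zero_le_one le_rfl))
    simp only [ContinuousLinearMap.flip_apply, map_add, map_sub, map_smul,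
      sub_apply, add_apply, smul_apply, add_re, sub_re,
      smul_eq_mul, mul_re, I_re, I_im, mul_im, ofReal_re, ofReal_im, re_ofNat, im_ofNat,
      sub_im, add_im] at a1 a2
    linarith
  · obtain ⟨r, r0, r1, r2, r3, r4, -⟩ := exists_sqrt c0.isSelfAdjoint c1
    have a1 := (re_le_norm _).trans (h _ r3 _ s2)
    have a2 := (re_le_norm _).trans (h _ r4 _ s3)
    have a3 := abs_le.1 (hs r r1)
    have p0 : 0 ≤ c - (1 - r) := sub_nonneg.2 (r2.trans (sq_le c0 c1))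
    have a4 := (ap_of (W.flip 1) (fun u hu => h u hu 1 (one_mem _)) h1).re _ p0
      (norm_le_one p0 ((sub_le_self _ (sub_nonneg.2 (le_one r0 r1))).trans (le_one c0 c1)))
    simp only [ContinuousLinearMap.flip_apply, map_add, map_sub, map_smul,
      sub_apply, add_apply,
      smul_apply, add_re, sub_re,
      smul_eq_mul, mul_re, I_re, I_im, mul_im, ofReal_re, ofReal_im,
      sub_im, add_im] at a1 a2 a4
    linarith

lemma est_pos (h : ∀ u ∈ unitary A, ∀ v ∈ unitary B, ‖W u v‖ ≤ 1) (h1 : 1 - ε ≤ (W 1 1).re)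
    {c : A} (c0 : 0 ≤ c) (c1 : ‖c‖ ≤ 1) {b : B} (hb : IsSelfAdjoint b) (b1 : ‖b‖ ≤ 1) {t : ℝ}
    (t0 : 0 < t) (t1 : t ≤ 1) : t ^ 3 * ‖W c b‖ ≤ (W (c * c) 1).re + 4 * ε + 13 * t ^ 4 := by
  have hε : 0 ≤ ε := by linarith [(re_le_norm _).trans (h 1 (one_mem _) 1 (one_mem _))]
  obtain ⟨a1, a2⟩ := est_side h h1 c0 c1 hb b1 t0 t1
  obtain ⟨a3, a4⟩ := est_side h h1 c0 c1 hb.neg (by rwa [norm_neg]) t0 t1
  rw [map_neg] at a3 a4
  rw [neg_im] at a3
  rw [neg_re] at a4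
  have a5 : t * ‖W c b‖ ≤ 2 * (W c 1).re + 3 * ε + 12 * t ^ 2 := by
    have e1 := mul_le_mul_of_nonneg_left (norm_le_abs_re_add_abs_im (W c b)) t0.le
    have e2 : t * |(W c b).re| ≤ (W c 1).re + 2 * ε + 4 * t ^ 2 := by
      rcases abs_cases (W c b).re with ⟨e, -⟩ | ⟨e, -⟩ <;> rw [e] <;> linarith
    have e3 : t * |(W c b).im| ≤ (W c 1).re + ε + 8 * t ^ 2 := by
      rcases abs_cases (W c b).im with ⟨e, -⟩ | ⟨e, -⟩ <;> rw [e] <;> linarith
    linarith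
  have d0 : 0 < t ^ 2 := by positivity
  have d1 : t ^ 2 ≤ 1 := pow_le_one₀ t0.le t1
  set z : A := ((t ^ 2 : ℝ) : ℂ) • (1 : A) - c with hz
  have hp : (0 : A) ≤ ((t ^ 2 : ℝ) : ℂ) • (1 : A) := by
    rw [Complex.coe_smul]; exact smul_nonneg d0.le zero_le_one
  have hp1 : ‖((t ^ 2 : ℝ) : ℂ) • (1 : A)‖ ≤ 1 := by
    rw [norm_smul, Complex.norm_real, Real.norm_of_nonneg d0.le]
    exact mul_le_one₀ d1 (norm_nonneg _) (norm_le_one zero_le_one le_rfl)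
  have zs : IsSelfAdjoint z := hp.isSelfAdjoint.sub c0.isSelfAdjoint
  have z1 : ‖z‖ ≤ 1 := by
    have e : z = (2⁻¹ : ℂ) • ((1 - (2 : ℂ) • c) - (1 - (2 : ℂ) • (((t ^ 2 : ℝ) : ℂ) • (1 : A)))) := by
      rw [hz]; module
    have := norm_sub_le (1 - (2 : ℂ) • c) (1 - (2 : ℂ) • (((t ^ 2 : ℝ) : ℂ) • (1 : A)))
    rw [e, norm_smul]
    simp only [norm_inv, Complex.norm_ofNat]
    linarith [(refl_sa c0 c1).2, (refl_sa hp hp1).2]
  have a6 := (ap_of (W.flip 1) (fun u hu => h u hu 1 (one_mem _)) h1).re _ (sa_sq_nonneg zs) (by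
    rw [zs.norm_mul_self]; exact pow_le_one₀ (norm_nonneg _) z1)
  have e : z * z = ((t ^ 4 : ℝ) : ℂ) • (1 : A) - ((2 * t ^ 2 : ℝ) : ℂ) • c + c * c := by
    simp only [hz, mul_sub, sub_mul, smul_mul_assoc, mul_smul_comm, one_mul, mul_one]
    push_cast; module
  rw [e] at a6
  simp only [ContinuousLinearMap.flip_apply, map_add, map_sub, map_smul,
    sub_apply, add_apply,
    smul_apply, add_re, sub_re, smul_eq_mul, mul_re, ofReal_re,
    ofReal_im] at a6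
  have a7 : (W 1 1).re ≤ 1 := (re_le_norm _).trans (h 1 (one_mem _) 1 (one_mem _))
  have a8 := mul_le_mul_of_nonneg_left a5 d0.le
  have a9 := mul_le_mul_of_nonneg_left a7 (by positivity : 0 ≤ t ^ 4)
  have a10 := mul_le_mul_of_nonneg_right d1 hε
  nlinarith

lemma est_sa (h : ∀ u ∈ unitary A, ∀ v ∈ unitary B, ‖W u v‖ ≤ 1) (h1 : 1 - ε ≤ (W 1 1).re)
    {a : A} (ha : IsSelfAdjoint a) (a1 : ‖a‖ ≤ 1) {b : B} (b1 : ‖b‖ ≤ 1) {t : ℝ}
    (t0 : 0 < t) (t1 : t ≤ 1) :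
    t ^ 3 * ‖W a b‖ ≤ 2 * (W (a * a) 1).re + 16 * ε + 52 * t ^ 4 := by
  have p1 := (CStarAlgebra.norm_posPart_le a).trans a1
  have n1 := (CStarAlgebra.norm_negPart_le a).trans a1
  have r1 : ‖(ℜ b : B)‖ ≤ 1 := (realPart.norm_le b).trans b1
  have i1 : ‖(ℑ b : B)‖ ≤ 1 := (imaginaryPart.norm_le b).trans b1
  have e1 := est_pos h h1 (CFC.posPart_nonneg a) p1 (ℜ b).2 r1 t0 t1
  have e2 := est_pos h h1 (CFC.posPart_nonneg a) p1 (ℑ b).2 i1 t0 t1
  have e3 := est_pos h h1 (CFC.negPart_nonneg a) n1 (ℜ b).2 r1 t0 t1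
  have e4 := est_pos h h1 (CFC.negPart_nonneg a) n1 (ℑ b).2 i1 t0 t1
  have e5 : a * a = a⁺ * a⁺ + a⁻ * a⁻ := by
    conv_lhs => rw [← CFC.posPart_sub_negPart a ha]
    rw [mul_sub, sub_mul, sub_mul, CFC.posPart_mul_negPart, CFC.negPart_mul_posPart]; abel
  have e6 : ‖W a b‖ ≤ ‖W a⁺ (ℜ b)‖ + ‖W a⁺ (ℑ b)‖ + (‖W a⁻ (ℜ b)‖ + ‖W a⁻ (ℑ b)‖) := by
    have k : ∀ c : A, ‖W c b‖ ≤ ‖W c (ℜ b)‖ + ‖W c (ℑ b)‖ := fun c => by
      conv_lhs => rw [← realPart_add_I_smul_imaginaryPart b, map_add, map_smul]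
      refine (norm_add_le _ _).trans (le_of_eq ?_)
      rw [norm_smul, norm_I, one_mul]
    conv_lhs => rw [← CFC.posPart_sub_negPart a ha, map_sub, sub_apply]
    exact (norm_sub_le _ _).trans (add_le_add (k _) (k _))
  have e7 := mul_le_mul_of_nonneg_left e6 (by positivity : 0 ≤ t ^ 3)
  rw [e5, map_add, add_apply, add_re]
  linarith

lemma est_all (h : ∀ u ∈ unitary A, ∀ v ∈ unitary B, ‖W u v‖ ≤ 1) (h1 : 1 - ε ≤ (W 1 1).re)
    {y : A} (y1 : ‖y‖ ≤ 1) {b : B} (b1 : ‖b‖ ≤ 1) {t : ℝ} (t0 : 0 < t) (t1 : t ≤ 1) :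
    t ^ 3 * ‖W y b‖ ≤ (W (star y * y) 1).re + (W (y * star y) 1).re + 32 * ε + 104 * t ^ 4 := by
  have e1 := est_sa h h1 (ℜ y).2 ((realPart.norm_le y).trans y1) b1 t0 t1
  have e2 := est_sa h h1 (ℑ y).2 ((imaginaryPart.norm_le y).trans y1) b1 t0 t1
  have e3 : star y * y + y * star y =
      (2 : ℂ) • ((ℜ y : A) * (ℜ y : A)) + (2 : ℂ) • ((ℑ y : A) * (ℑ y : A)) := by
    have hs : star y = (ℜ y : A) - I • (ℑ y : A) := by
      conv_lhs => rw [← realPart_add_I_smul_imaginaryPart y, star_add, star_smul,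
        (ℜ y).2.star_eq, (ℑ y).2.star_eq, Complex.star_def, conj_I, neg_smul, ← sub_eq_add_neg]
    have hy := (realPart_add_I_smul_imaginaryPart y).symm
    generalize (ℜ y : A) = p at hs hy
    generalize (ℑ y : A) = q at hs hy
    rw [hs, hy]
    simp only [mul_add, add_mul, mul_sub, sub_mul, smul_mul_assoc, mul_smul_comm, smul_smul,
      I_mul_I, smul_add, smul_sub]
    module
  have e4 : ‖W y b‖ ≤ ‖W (ℜ y) b‖ + ‖W (ℑ y) b‖ := by
    conv_lhs => rw [← realPart_add_I_smul_imaginaryPart y, map_add, map_smul,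
      add_apply, smul_apply]
    refine (norm_add_le _ _).trans (le_of_eq ?_)
    rw [norm_smul, norm_I, one_mul]
  have e5 := congrArg (fun z => (W z 1).re) e3
  simp only [map_add, map_smul, add_apply, smul_apply,
    add_re, smul_eq_mul, mul_re, re_ofNat, im_ofNat] at e5
  have e7 := mul_le_mul_of_nonneg_left e4 (by positivity : 0 ≤ t ^ 3)
  linarith

end two

end Gro

open Gro in
/-- quantitative form -/
theorem weakGro {A B : Type*} [CStarAlgebra A] [PartialOrder A] [StarOrderedRing A]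
    [CStarAlgebra B] (V : A →L[ℂ] B →L[ℂ] ℂ) :
    ∃ f g : A →L[ℂ] ℂ, (∀ c, 0 ≤ c → 0 ≤ f c) ∧ (∀ c, 0 ≤ c → 0 ≤ g c) ∧
      ∀ x : A, ‖x‖ ≤ 1 → ∀ t : ℝ, 0 < t → t ≤ 1 →
        t ^ 3 * ‖V x‖ ≤ ‖V‖ * ((f (star x * x)).re + (g (x * star x)).re + 104 * t ^ 4) := by
  let _ := CStarAlgebra.spectralOrder B
  let _ := CStarAlgebra.spectralOrderedRing B
  set S : Set ℝ := {r | ∃ u ∈ unitary A, ∃ v ∈ unitary B, r = ‖V u v‖} with hS
  have hb : ∀ r ∈ S, r ≤ ‖V‖ := by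
    rintro r ⟨u, hu, v, hv, rfl⟩
    have a1 : ‖u‖ ≤ 1 := by
      have := CStarRing.norm_mul_mem_unitary (1 : A) hu
      rw [one_mul] at this; rw [this]; exact norm_le_one zero_le_one le_rfl
    have a2 : ‖v‖ ≤ 1 := by
      have := CStarRing.norm_mul_mem_unitary (1 : B) hv
      rw [one_mul] at this; rw [this]; exact norm_le_one zero_le_one le_rfl
    exact (V.le_opNorm₂ u v).trans (by
      rw [mul_assoc]
      exact mul_le_of_le_one_right V.opNorm_nonneg (mul_le_one₀ a1 (norm_nonneg _) a2))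
  have hne : S.Nonempty := ⟨_, 1, one_mem _, 1, one_mem _, rfl⟩
  set m := sSup S with hm
  have hle : ∀ u ∈ unitary A, ∀ v ∈ unitary B, ‖V u v‖ ≤ m :=
    fun u hu v hv => le_csSup ⟨_, hb⟩ ⟨u, hu, v, hv, rfl⟩
  have hmV : m ≤ ‖V‖ := csSup_le hne hb
  have m0 : 0 ≤ m := (norm_nonneg _).trans (hle 1 (one_mem _) 1 (one_mem _))
  rcases m0.eq_or_lt with m0 | m0
  · refine ⟨0, 0, fun _ _ => le_rfl, fun _ _ => le_rfl, fun x _ t t0 _ => ?_⟩
    have : V x = 0 := by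
      ext b
      have := norm_bil hle x b
      rw [← m0] at this
      simpa using this
    rw [this, norm_zero, mul_zero]
    simp only [zero_apply, zero_re]
    positivity
  have hex : ∀ n : ℕ, ∃ (u : A) (W : A →L[ℂ] B →L[ℂ] ℂ), u ∈ unitary A ∧
      (∀ u ∈ unitary A, ∀ v ∈ unitary B, ‖W u v‖ ≤ 1) ∧ 1 - 1 / ((n : ℝ) + 1) ≤ (W 1 1).re ∧
      ∀ x b, ‖b‖ ≤ 1 → ∃ b', ‖b'‖ ≤ 1 ∧ ‖V x b‖ = m * ‖W (star u * x) b'‖ := by
    intro n
    have hp : (0 : ℝ) < 1 / ((n : ℝ) + 1) := by positivity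
    obtain ⟨r, ⟨u, hu, v, hv, rfl⟩, hr⟩ := exists_lt_of_lt_csSup hne
      (b := m * (1 - 1 / ((n : ℝ) + 1))) (by rw [← hm]; nlinarith)
    obtain ⟨θ, hθ, hθ'⟩ := Complex.exists_norm_eq_mul_self (V u v)
    have hc : ‖θ / (m : ℂ)‖ = 1 / m := by
      rw [norm_div, hθ, Complex.norm_real, Real.norm_of_nonneg m0.le]
    refine ⟨u, (θ / (m : ℂ)) • V.bilinearComp (ContinuousLinearMap.mul ℂ A u)
      (ContinuousLinearMap.mul ℂ B v), hu, fun u' hu' v' hv' => ?_, ?_, fun x b b1 =>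
      ⟨star v * b, ?_, ?_⟩⟩
    · show ‖(θ / (m : ℂ)) * V (u * u') (v * v')‖ ≤ 1
      rw [norm_mul, hc, one_div, inv_mul_le_one₀ m0]
      exact hle _ (mul_mem hu hu') _ (mul_mem hv hv')
    · show _ ≤ ((θ / (m : ℂ)) * V (u * 1) (v * 1)).re
      rw [mul_one, mul_one, div_mul_eq_mul_div, ← hθ', ← ofReal_div, ofReal_re, le_div_iff₀ m0]
      linarith
    · rwa [CStarRing.norm_mem_unitary_mul _ (Unitary.star_mem hv)]
    · show _ = m * ‖(θ / (m : ℂ)) * V (u * (star u * x)) (v * (star v * b))‖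
      rw [← mul_assoc u, ← mul_assoc v, hu.2, hv.2, one_mul, one_mul, norm_mul, hc]
      field_simp
  choose u W hu hW h1 hx using hex
  have ap : ∀ n : ℕ, Ap (1 / ((n : ℝ) + 1)) ((W n).flip 1) :=
    fun n => ap_of _ (fun u' hu' => hW n u' hu' 1 (one_mem _)) (h1 n)
  obtain ⟨f, f0, hf⟩ := exists_lim _ ap
  obtain ⟨g, g0, hg⟩ := exists_lim _ fun n => (ap n).conj (hu n)
  refine ⟨f, g, f0, g0, fun x x1 t t0 t1 => ?_⟩
  have h0 : Tendsto (fun n : ℕ => 1 / ((n : ℝ) + 1)) (hyperfilter ℕ) (𝓝 0) :=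
    tendsto_one_div_add_atTop_nhds_zero_nat.mono_left Nat.hyperfilter_le_atTop
  set F := (f (star x * x)).re + (g (x * star x)).re + 104 * t ^ 4 with hF
  have F0 : 0 ≤ F := add_nonneg (add_nonneg (Complex.nonneg_iff.1 (f0 _ (star_mul_self_nonneg x))).1
    (Complex.nonneg_iff.1 (g0 _ (mul_star_self_nonneg x))).1) (by positivity)
  have t3 : 0 < t ^ 3 := by positivity
  have key : ∀ b, ‖b‖ ≤ 1 → t ^ 3 * ‖V x b‖ ≤ m * F := by
    intro b b1
    have lim := (((((continuous_re.tendsto _).comp (hf (star x * x))).add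
      ((continuous_re.tendsto _).comp (hg (x * star x)))).add (h0.const_mul 32)).add_const
      (104 * t ^ 4)).const_mul m
    rw [mul_zero, add_zero] at lim
    refine ge_of_tendsto' lim fun n => ?_
    obtain ⟨b', b1', e⟩ := hx n x b b1
    have y1 : ‖star (u n) * x‖ ≤ 1 := by
      rwa [CStarRing.norm_mem_unitary_mul _ (Unitary.star_mem (hu n))]
    have := mul_le_mul_of_nonneg_left (est_all (hW n) (h1 n) y1 b1' t0 t1) m0.le
    have e1 : star (star (u n) * x) * (star (u n) * x) = star x * x := by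
      rw [star_mul, star_star, mul_assoc, ← mul_assoc (u n), (hu n).2, one_mul]
    have e2 : star (u n) * x * star (star (u n) * x) = star (u n) * (x * star x) * u n := by
      rw [star_mul, star_star]; noncomm_ring
    rw [e1, e2] at this
    rw [e]
    calc t ^ 3 * (m * ‖W n (star (u n) * x) b'‖) = m * (t ^ 3 * ‖W n (star (u n) * x) b'‖) := by
          ring
      _ ≤ _ := this
  have h2 : ‖V x‖ ≤ m * F / t ^ 3 := by
    refine ContinuousLinearMap.opNorm_le_of_unit_norm (by positivity) fun b b1 => ?_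
    rw [le_div_iff₀ t3, mul_comm]; exact key b b1.le
  rw [le_div_iff₀ t3, mul_comm] at h2
  exact h2.trans (mul_le_mul_of_nonneg_right hmV F0)

/-- qualitative form: `V` is uniformly continuous on the unit ball for two GNS seminorms -/
theorem weakGro' {A B : Type*} [CStarAlgebra A] [PartialOrder A] [StarOrderedRing A]
    [CStarAlgebra B] (V : A →L[ℂ] B →L[ℂ] ℂ) :
    ∃ f g : A →L[ℂ] ℂ, (∀ c, 0 ≤ c → 0 ≤ f c) ∧ (∀ c, 0 ≤ c → 0 ≤ g c) ∧
      ∀ ε : ℝ, 0 < ε → ∃ δ : ℝ, 0 < δ ∧ ∀ x : A, ‖x‖ ≤ 1 → (f (star x * x)).re ≤ δ →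
        (g (x * star x)).re ≤ δ → ‖V x‖ ≤ ε := by
  obtain ⟨f, g, f0, g0, h⟩ := weakGro V
  refine ⟨f, g, f0, g0, fun ε ε0 => ?_⟩
  have hV : 0 < 106 * (‖V‖ + 1) := by positivity
  set t := min 1 (ε / (106 * (‖V‖ + 1))) with ht
  have t0 : 0 < t := lt_min one_pos (by positivity)
  have t2 : t * (106 * (‖V‖ + 1)) ≤ ε := (le_div_iff₀ hV).1 (min_le_right _ _)
  refine ⟨t ^ 4, by positivity, fun x x1 a1 a2 => ?_⟩
  have b1 := h x x1 t t0 (min_le_left _ _)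
  have t3 : 0 < t ^ 3 := by positivity
  refine le_of_mul_le_mul_left (b1.trans ?_) t3
  calc _ ≤ ‖V‖ * (106 * t ^ 4) := mul_le_mul_of_nonneg_left (by linarith) V.opNorm_nonneg
    _ ≤ (‖V‖ + 1) * (106 * t ^ 4) := by gcongr; linarith
    _ = t ^ 3 * (t * (106 * (‖V‖ + 1))) := by ring
    _ ≤ _ := mul_le_mul_of_nonneg_left t2 t3.le

end Pool.Agent.Lib.MP_08bba9_an.W
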