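import Pool.Agent.Lib.MP_08bba9_an.W.Add

/-! Comparison, finiteness and halving in an algebra of operators closed under bounded strong
star limits, in operator words. -/

set_option linter.unusedSectionVars false

namespace Pool.Agent.Lib.MP_08bba9_an.W

open _root_.Lib.MP_08bba9_an.W (Fint rem_equiv)

variable {H : Type*} [NormedAddCommGroup H] [InnerProductSpace ℂ H] [CompleteSpace H]
variable {M : StarSubalgebra ℂ (H →L[ℂ] H)}

theorem pj_coe {p : M} : Pj M (p : H →L[ℂ] H) ↔ IsStarProjection p :=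
  ⟨fun h => ⟨Subtype.ext h.idem, Subtype.ext h.star_eq⟩,
    fun h => ⟨p.2, congrArg Subtype.val h.isIdempotentElem.eq,
      congrArg Subtype.val h.isSelfAdjoint.star_eq⟩⟩

theorem cen_coe {z : M} :
    Cen M (z : H →L[ℂ] H) ↔ IsStarProjection z ∧ ∀ a : M, z * a = a * z :=
  ⟨fun h => ⟨pj_coe.1 h.1, fun a => Subtype.ext (h.2 a a.2).symm⟩,
    fun h => ⟨pj_coe.2 h.1, fun a ha => (congrArg Subtype.val (h.2 ⟨a, ha⟩)).symm⟩⟩

theorem finP_coe {z : M} : FinP M (z : H →L[ℂ] H) ↔ Fint z :=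
  ⟨fun h v h1 h2 => Subtype.ext (h v v.2 (congrArg Subtype.val h1) (congrArg Subtype.val h2)),
    fun h v hv h1 h2 => congrArg Subtype.val (h ⟨v, hv⟩ (Subtype.ext h1) (Subtype.ext h2))⟩

/-- (CMP) -/
theorem IsVN.cmpOp (hM : IsVN M) {p q : H →L[ℂ] H}
    (hp : Pj M p) (hq : Pj M q) :
    ∃ z, Cen M z ∧ Sub M (z * p) (z * q) ∧ Sub M ((1 - z) * q) ((1 - z) * p) := by
  obtain ⟨z, hz, hc, ⟨v, h1, h2⟩, w, h3, h4⟩ := hM.hCmp ⟨p, hp.1⟩ ⟨q, hq.1⟩ (pj_coe.1 hp)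
    (pj_coe.1 hq)
  have hc' : ∀ x, (1 - z) * x = x * (1 - z) := fun x => by
    rw [sub_mul, mul_sub, hc, one_mul, mul_one]
  have key : ∀ c r u : M, IsStarProjection c → (∀ x, c * x = x * c) → IsStarProjection r →
      star u * u = c * r → c * u = u := fun c r u k1 k2 k3 k4 => by
    have := (coe_proper M).pi (k1.mul k3 (k2 _)) k4
    rw [← this, k2, mul_assoc, mul_assoc, ← k2, ← mul_assoc c, k1.isIdempotentElem.eq]
  have e1 := key z _ v hz hc (pj_coe.1 hp) h1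
  have e2 := key (1 - z) _ w hz.one_sub hc' (pj_coe.1 hq) h3
  refine ⟨z, cen_coe.2 ⟨hz, hc⟩, ⟨v, v.2, congrArg Subtype.val h1, ?_⟩,
    w, w.2, congrArg Subtype.val h3, ?_⟩
  · have : z * ⟨q, hq.1⟩ * v = v := by rw [mul_assoc, h2, e1]
    exact congrArg Subtype.val this
  · have : (1 - z) * ⟨p, hp.1⟩ * w = w := by rw [mul_assoc, h4, e2]
    exact congrArg Subtype.val this

/-- Remainders of equivalent finite projections are equivalent. -/
theorem IsVN.remOp (hM : IsVN M)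
    {p q v : H →L[ℂ] H} (hp : Pj M p) (he : Eqv M p q) (hf : FinP M q) (hv : v ∈ M) (hpi : PI v)
    (hvp : v * p = v) (hqv : q * v = v) : Eqv M (p - star v * v) (q - v * star v) := by
  have hq := he.pj hp
  obtain ⟨u, hu, h1, h2⟩ := he
  obtain ⟨w, h3, h4⟩ := rem_equiv (coe_proper M) hM.hCmp (p := ⟨p, hp.1⟩) (q := ⟨q, hq.1⟩)
    (u := ⟨u, hu⟩) (v := ⟨v, hv⟩) (pj_coe.1 hp) (pj_coe.1 hq) (finP_coe.1 hf) (Subtype.ext h1)
    (Subtype.ext h2) (Subtype.ext hpi) (Subtype.ext hvp) (Subtype.ext hqv)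
  exact ⟨w, w.2, congrArg Subtype.val h3, congrArg Subtype.val h4⟩

end Pool.Agent.Lib.MP_08bba9_an.W
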