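import Pool.Agent.Lib.MP_08bba9_an.W.Vn2

/-! The layer cake estimate: from isometric pieces to arbitrary elements of a corner. -/

noncomputable section

namespace Pool.Agent.Lib.MP_08bba9_an.W

open scoped InnerProductSpace ComplexOrder

namespace Lay

variable {A : Type*} [CStarAlgebra A] [PartialOrder A] [StarOrderedRing A]

/-- the positive portion of `a - t` -/
def pp (t : ℝ) (a : A) : A := cfc (fun s : ℝ => max (s - t) 0) a

omit [PartialOrder A] [StarOrderedRing A] in
theorem pp_fac {t : ℝ} (ht : 0 < t) {a : A} (ha : IsSelfAdjoint a) : ∃ h, pp t a = a * h := by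
  have hc : Continuous fun s : ℝ => max (s - t) 0 / max s t :=
    Continuous.div (by fun_prop) (by fun_prop) fun s => (lt_of_lt_of_le ht (le_max_right _ _)).ne'
  refine ⟨cfc (fun s : ℝ => max (s - t) 0 / max s t) a, ?_⟩
  conv_rhs => enter [1]; rw [← cfc_id' ℝ a]
  rw [← cfc_mul _ _ _ (by fun_prop) hc.continuousOn, pp]
  refine cfc_congr fun s _ => ?_
  rcases le_total s t with h | h
  · simp [h]
  · have : s ≠ 0 := (lt_of_lt_of_le ht h).ne'
    simp only [max_eq_left h]
    field_simp

theorem step_le {t η : ℝ} (hη : 0 < η) {a f : A} (hf : IsStarProjection f)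
    (h1 : f * pp t a = pp t a) : pp t a - pp (t + η) a ≤ η • f := by
  have hc : Continuous fun s : ℝ => η / max (s - t) η :=
    Continuous.div (by fun_prop) (by fun_prop) fun s => (lt_of_lt_of_le hη (le_max_right _ _)).ne'
  set φ := pp t a - pp (t + η) a with hφ
  have e0 : φ = cfc (fun s : ℝ => max (s - t) 0 - max (s - (t + η)) 0) a := by
    rw [cfc_sub _ _ _ (by fun_prop) (by fun_prop)]; rfl
  have e1 : φ = pp t a * cfc (fun s : ℝ => η / max (s - t) η) a := by
    rw [e0, pp, ← cfc_mul _ _ _ (by fun_prop) hc.continuousOn]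
    refine cfc_congr fun s _ => ?_
    rcases le_total (s - t) 0 with h | h
    · simp only [max_eq_right h, max_eq_right (show s - (t + η) ≤ 0 by linarith)]; simp
    · rcases le_total (s - t) η with h' | h'
      · simp only [max_eq_left h, max_eq_right h', max_eq_right (show s - (t + η) ≤ 0 by linarith)]
        field_simp; ring
      · have : s - t ≠ 0 := (lt_of_lt_of_le hη h').ne'
        simp only [max_eq_left h, max_eq_left h', max_eq_left (show 0 ≤ s - (t + η) by linarith)]
        field_simp; ring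
  have e2 : f * φ = φ := by rw [e1, ← mul_assoc, h1]
  have sa : IsSelfAdjoint φ := e0 ▸ IsSelfAdjoint.cfc
  have e3 : φ * f = φ := by
    simpa only [star_mul, sa.star_eq, hf.isSelfAdjoint.star_eq] using congrArg star e2
  have le : φ ≤ algebraMap ℝ A η := by
    rw [e0]
    by_cases ha : IsSelfAdjoint a
    · refine cfc_le_algebraMap _ _ _ (fun s _ => ?_) (by fun_prop) ha
      rcases le_total (s - t) 0 with h | h
      · rw [max_eq_right h]; linarith [le_max_right (s - (t + η)) 0]
      · rw [max_eq_left h]; linarith [le_max_left (s - (t + η)) 0]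
    · rw [cfc_apply_of_not_predicate a ha, Algebra.algebraMap_eq_smul_one]
      exact smul_nonneg hη.le zero_le_one
  have := star_left_conjugate_le_conjugate le f
  rwa [hf.isSelfAdjoint.star_eq, e2, e3, Algebra.algebraMap_eq_smul_one, mul_smul_comm, mul_one,
    smul_mul_assoc, hf.isIdempotentElem.eq] at this

theorem le_step {t η : ℝ} (hη : 0 < η) {a f : A} (ha : IsSelfAdjoint a) (hf : IsStarProjection f)
    (h2 : ∀ x, x * pp (t + η) a = 0 → x * f = 0) : η • f ≤ pp t a - pp (t + η) a := by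
  set φ := pp t a - pp (t + η) a with hφ
  have e0 : φ = cfc (fun s : ℝ => max (s - t) 0 - max (s - (t + η)) 0) a := by
    rw [cfc_sub _ _ _ (by fun_prop) (by fun_prop)]; rfl
  have e1 : (algebraMap ℝ A η - φ) * pp (t + η) a = 0 := by
    rw [e0, pp, ← cfc_const η a, ← cfc_sub _ _ _ (by fun_prop) (by fun_prop),
      ← cfc_mul _ _ _ (by fun_prop) (by fun_prop), ← cfc_const_zero ℝ a]
    refine cfc_congr fun s _ => ?_
    rcases le_total (s - (t + η)) 0 with h | h
    · simp only [max_eq_right h, mul_zero]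
    · simp only [max_eq_left h, max_eq_left (show 0 ≤ s - t by linarith)]; ring
  have e2 : φ * f = η • f := by
    have := h2 _ e1
    rw [sub_mul, sub_eq_zero, Algebra.algebraMap_eq_smul_one, smul_mul_assoc, one_mul] at this
    exact this.symm
  have sa : IsSelfAdjoint φ := e0 ▸ IsSelfAdjoint.cfc
  have e3 : f * φ = η • f := by
    simpa only [star_mul, sa.star_eq, hf.isSelfAdjoint.star_eq, star_smul, star_trivial]
      using congrArg star e2
  have p0 : 0 ≤ φ := by
    rw [e0]
    exact cfc_nonneg fun s _ => sub_nonneg.2 (max_le_max (by linarith) le_rfl)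
  have := star_left_conjugate_nonneg p0 (1 - f)
  rw [hf.one_sub.isSelfAdjoint.star_eq, sub_mul, one_mul, e3, mul_sub, mul_one, sub_mul, e2,
    smul_mul_assoc, hf.isIdempotentElem.eq, sub_self, sub_zero] at this
  exact sub_nonneg.1 this

theorem pp_zero {a : A} (ha : 0 ≤ a) : pp 0 a = a := by
  conv_rhs => rw [← cfc_id' ℝ a]
  exact cfc_congr fun s hs => by simpa using spectrum_nonneg_of_nonneg ha hs

omit [PartialOrder A] [StarOrderedRing A] in
theorem pp_big {a : A} {t : ℝ} (h : ‖a‖ ≤ t) : pp t a = 0 := by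
  rw [pp, ← cfc_const_zero ℝ a]
  refine cfc_congr fun s hs => ?_
  rcases subsingleton_or_nontrivial A with _ | _
  · simp at hs
  · have := (le_abs_self s).trans (spectrum.norm_le_norm_of_mem hs)
    exact max_eq_right (by linarith)

theorem pp_nonneg (t : ℝ) (a : A) : 0 ≤ pp t a := cfc_nonneg fun _ _ => le_max_right _ _

/-- both layer cake inequalities -/
theorem cake {a : A} (ha : 0 ≤ a) {η : ℝ} (hη : 0 < η) (J : ℕ) (hJ : ‖a‖ ≤ (J + 1 : ℕ) * η)
    (f : ℕ → A) (hf : ∀ j, IsStarProjection (f j))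
    (h1 : ∀ j : ℕ, f j * pp ((j + 1 : ℕ) * η) a = pp ((j + 1 : ℕ) * η) a)
    (h2 : ∀ (j : ℕ) x, x * pp ((j + 1 : ℕ) * η) a = 0 → x * f j = 0) :
    a ≤ η • (1 : A) + ∑ j ∈ Finset.range J, η • f j ∧ ∑ j ∈ Finset.range J, η • f j ≤ a := by
  have c : ∀ j : ℕ, ((j + 1 : ℕ) : ℝ) * η = j * η + η := fun j => by push_cast; ring
  constructor
  · have e := Finset.sum_range_sub' (fun j : ℕ => pp (j * η) a) (J + 1)
    rw [Finset.sum_range_succ', pp_big hJ, sub_zero] at e
    simp only [Nat.cast_zero, zero_mul, pp_zero ha] at e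
    rw [← e, add_comm]
    refine add_le_add ?_ (Finset.sum_le_sum fun j _ => ?_)
    · have := step_le (t := 0) hη (a := a) (IsStarProjection.one A) (one_mul _)
      simpa [pp_zero ha] using this
    · rw [c (j + 1)]
      exact step_le hη (hf j) (h1 j)
  · have e := Finset.sum_range_sub' (fun j : ℕ => pp (j * η) a) J
    simp only [Nat.cast_zero, zero_mul, pp_zero ha] at e
    refine le_trans (Finset.sum_le_sum fun j _ => ?_) (e.le.trans (sub_le_self _ (pp_nonneg _ _)))
    rw [c j]
    exact le_step hη ha.isSelfAdjoint (hf j) fun x hx => h2 j x (by rwa [c j])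

end Lay

open Lay

variable {H : Type*} [NormedAddCommGroup H] [InnerProductSpace ℂ H] [CompleteSpace H]
variable {M : StarSubalgebra ℂ (H →L[ℂ] H)}

/-- Layer cake for a functional that is monotone. -/
theorem IsVN.layer_fun (hM : IsVN M) {g : H →L[ℂ] H} (hg : Pj M g) (F : (H →L[ℂ] H) →ₗ[ℝ] ℝ)
    (hF : ∀ a, 0 ≤ a → 0 ≤ F a) {c : ℝ} (hc : 0 ≤ c)
    (h : ∀ y ∈ M, PI y → y * g = y → g * y = y → F (star y * y) ≤ c * F (y * star y)) :
    ∀ x ∈ M, x * g = x → g * x = x → F (star x * x) ≤ c * F (x * star x) := by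
  intro x hx x1 x2
  have mono : ∀ a b, a ≤ b → F a ≤ F b := fun a b e => by
    have := hF _ (sub_nonneg.2 e)
    rwa [map_sub, sub_nonneg] at this
  obtain ⟨v, hv, v1, v2, v3, v4⟩ := hM.polar hx
  set a := star x * x with ha
  have a0 : 0 ≤ a := star_mul_self_nonneg x
  have aM : a ∈ M := mul_mem (star_mem hx) hx
  have pv : PI v := PI.of_init (v1 ▸ lp_proj _)
  have e1 : v * a * star v = x * star x := by
    have s1 : star (cfc Real.sqrt a) = cfc Real.sqrt a := (IsSelfAdjoint.cfc).star_eq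
    have s2 : star x * x = cfc Real.sqrt a * cfc Real.sqrt a := by
      conv_lhs => enter [1]; rw [← v3]
      rw [star_mul, s1, mul_assoc, v4]
    conv_lhs => rw [ha, s2]
    conv_rhs => rw [← v3, star_mul, s1]
    simp only [mul_assoc]
  have gx : g * star x = star x := by
    simpa only [star_mul, hg.star_eq] using congrArg star x1
  have gv : g * v = v := by
    rw [← pv.fin_mul, ← mul_assoc, v2, mul_lp_of_mul x2]
  refine le_of_forall_pos_le_add fun ε hε => ?_
  have F1 : 0 ≤ F 1 := hF _ zero_le_one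
  set η := ε / (F 1 + 1) with hη
  have η0 : 0 < η := by positivity
  obtain ⟨J, hJ⟩ := exists_nat_ge (‖a‖ / η)
  rw [div_le_iff₀ η0] at hJ
  let f : ℕ → H →L[ℂ] H := fun j => lp (pp ((j + 1 : ℕ) * η) a)
  obtain ⟨c1, c2⟩ := cake a0 η0 J (hJ.trans (by push_cast; nlinarith)) f (fun j => lp_proj _)
    (fun j => lp_mul _) fun j y hy => mul_lp_eq_zero hy
  have key : ∀ j, F (f j) ≤ c * F (v * f j * star v) := fun j => by
    have fp : Pj M (f j) := hM.lp_pj (hM.cfc_mem _ aM)
    obtain ⟨k, hk⟩ := pp_fac (t := (j + 1 : ℕ) * η) (by positivity) a0.isSelfAdjoint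
    have sup : ∀ p, p * star x = star x → p * f j = f j := fun p hp =>
      mul_lp_of_mul (by rw [hk, ha, ← mul_assoc, ← mul_assoc, hp])
    have i1 : star (v * f j) * (v * f j) = f j := by
      rw [star_mul, fp.star_eq, mul_assoc, ← mul_assoc (star v), v1, sup _ (lp_mul _), fp.idem]
    have i2 : v * f j * star (v * f j) = v * f j * star v := by
      rw [star_mul, fp.star_eq, ← mul_assoc, mul_assoc v, fp.idem]
    have := h (v * f j) (mul_mem hv fp.1) (PI.of_init (i1.symm ▸ fp.2))
      (by rw [mul_assoc, fp.flip hg (sup g gx)]) (by rw [← mul_assoc, gv])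
    rwa [i1, i2] at this
  have d1 := mono _ _ c1
  have d2 := mono _ _ (star_right_conjugate_le_conjugate c2 v)
  rw [e1, Finset.mul_sum, Finset.sum_mul, map_sum] at d2
  rw [map_add, map_sum, map_smul] at d1
  simp only [mul_smul_comm, smul_mul_assoc, map_smul, smul_eq_mul] at d1 d2
  have d3 : ∑ j ∈ Finset.range J, η * F (f j) ≤
      c * ∑ j ∈ Finset.range J, η * F (v * f j * star v) := by
    rw [Finset.mul_sum]
    refine Finset.sum_le_sum fun j _ => ?_
    nlinarith [key j]
  have d4 : η * F 1 ≤ ε := by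
    rw [hη, div_mul_eq_mul_div, div_le_iff₀ (by positivity)]
    nlinarith
  nlinarith [mul_le_mul_of_nonneg_left d2 hc]

/-- Layer cake for a vector functional. -/
theorem IsVN.layer (hM : IsVN M) {g : H →L[ℂ] H} (hg : Pj M g) (ξ : H) {c : ℝ} (hc : 0 ≤ c)
    (h : ∀ y ∈ M, PI y → y * g = y → g * y = y → ‖y ξ‖ ^ 2 ≤ c * ‖star y ξ‖ ^ 2) :
    ∀ x ∈ M, x * g = x → g * x = x → ‖x ξ‖ ^ 2 ≤ c * ‖star x ξ‖ ^ 2 := by
  let F : (H →L[ℂ] H) →ₗ[ℝ] ℝ :=
    { toFun := fun a => (⟪ξ, a ξ⟫_ℂ).re
      map_add' := fun a b => by simp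
      map_smul' := fun r a => by
        rw [← Complex.coe_smul, smul_apply, inner_smul_right]
        simp }
  have e : ∀ y : H →L[ℂ] H, F (star y * y) = ‖y ξ‖ ^ 2 := fun y => by
    change (⟪ξ, star y (y ξ)⟫_ℂ).re = _
    rw [ContinuousLinearMap.star_eq_adjoint, ContinuousLinearMap.adjoint_inner_right]
    exact inner_self_eq_norm_sq (𝕜 := ℂ) _
  have e' : ∀ y : H →L[ℂ] H, F (y * star y) = ‖star y ξ‖ ^ 2 := fun y => by
    simpa only [star_star] using e (star y)
  have hF : ∀ a, 0 ≤ a → 0 ≤ F a := fun a ha => by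
    obtain ⟨b, rfl⟩ := CStarAlgebra.nonneg_iff_eq_star_mul_self.1 ha
    rw [e]; positivity
  intro x hx x1 x2
  rw [← e, ← e']
  exact hM.layer_fun hg F hF hc (fun y a b c d => by rw [e, e']; exact h y a b c d) x hx x1 x2

end Pool.Agent.Lib.MP_08bba9_an.W
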