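import Pool.Agent.Lib.MP_08bba9_an.W.HalfVn

/-! A central piece of a finite central projection is a finite sum of subcopies of a given
nonzero projection. -/

set_option linter.unusedSectionVars false

namespace Lib.MP_08bba9_an.W

variable {A : Type*} [Ring A] [StarRing A]

/-- A finite projection has no infinite sequence of orthogonal copies of a nonzero projection. -/
theorem no_seq (hP : Proper A) (hA : Add A) {z g : A} (hz : IsStarProjection z) (hf : Fint z)
    (hg : IsStarProjection g) (v : ℕ → A) (h1 : ∀ n, star (v n) * v n = g)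
    (h2 : ∀ n, z * v n = v n) (h3 : ∀ i j, i ≠ j → star (v i) * v j = 0) : g = 0 := by
  have g2 := hg.isSelfAdjoint.star_eq
  have z2 := hz.isSelfAdjoint.star_eq
  have t4 : ∀ j, v j * g = v j := fun j => hP.pi hg (h1 j)
  have t5 : ∀ j, g * star (v j) = star (v j) := fun j => by simpa [g2] using congrArg star (t4 j)
  have hO : Orth (Set.range fun j => v (j + 1) * star (v j)) := by
    refine ⟨?_, ?_⟩
    · rintro _ ⟨j, rfl⟩
      simp only [star_mul, star_star, mul_assoc]
      rw [← mul_assoc (star (v (j + 1))), h1, t5, ← mul_assoc (star (v j)), h1, t5]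
    · rintro _ ⟨i, rfl⟩ _ ⟨j, rfl⟩ hne
      have hij : i ≠ j := fun h => hne (by rw [h])
      simp only [star_mul, star_star, mul_assoc]
      rw [← mul_assoc (star (v (i + 1))), h3 _ _ (by omega), ← mul_assoc (star (v i)), h3 _ _ hij]
      simp
  obtain ⟨σ, hσ⟩ := hA _ hO
  have s1 : ∀ j, star σ * σ * v j = v j := fun j => by
    have := congrArg (star (v (j + 1)) * ·) (hσ.mul_init hO ⟨j, rfl⟩)
    simp only [← mul_assoc, h1, t5] at this
    simpa [mul_assoc] using congrArg star this
  have s3 : σ * z = σ := hσ.fixR (by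
    rintro _ ⟨j, rfl⟩
    have := congrArg star (h2 j)
    rw [star_mul, z2] at this
    rw [mul_assoc, this])
  have hE : Fint (star σ * σ) := Fint.sub hP hz hf (proj_init (hσ.pi hO)) (by
    have := congrArg star s3
    rw [star_mul, z2] at this
    rw [← mul_assoc, this])
  have s4 := hE σ rfl (hσ.fixL (by
    rintro _ ⟨j, rfl⟩
    rw [← mul_assoc, s1]))
  have s5 := hσ.annL (star (v 0)) (by
    rintro _ ⟨j, rfl⟩
    rw [← mul_assoc, h3 _ _ (by omega), zero_mul])
  rw [← h1 0, ← s1 0]
  nth_rewrite 2 [← s4]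
  rw [s1 0, ← mul_assoc, ← mul_assoc, s5, zero_mul, zero_mul]

theorem spread (hP : Proper A) (hA : Add A) (hC : Cmp A) {z g : A} (hz : IsStarProjection z)
    (hzc : ∀ a, z * a = a * z) (hf : Fint z) (hg : IsStarProjection g) (h0 : g ≠ 0) :
    ∃ (c : A) (n : ℕ) (w : Fin n → A), IsStarProjection c ∧ (∀ a, c * a = a * c) ∧ z * c = c ∧
      (z * g = g → c * g ≠ 0) ∧
      (∀ i, w i * star (w i) * w i = w i ∧ w i * g = w i ∧ c * w i = w i) ∧
      ∑ i, w i * star (w i) = c := by
  classical
  have g2 := hg.isSelfAdjoint.star_eq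
  have z1 := hz.isIdempotentElem.eq
  obtain ⟨S, hST, hO, e, hes, hep, hev, hmax⟩ := exists_max_proj hA
    {p | IsStarProjection p ∧ ∃ v, star v * v = g ∧ v * star v = p ∧ z * v = v} fun _ h => h.1
  choose v h1 h2 h3 using fun p : S => (hST p.2).2
  have t4 : ∀ p, v p * g = v p := fun p => hP.pi hg (h1 p)
  have t6 : ∀ p : S, p * v p = v p := fun p => by rw [← h2, mul_assoc, h1, t4]
  have hfin : Finite S := by
    by_contra hinf
    have : Infinite S := not_finite_iff_infinite.1 hinf
    refine h0 (no_seq hP hA hz hf hg (fun n => v (Infinite.natEmbedding S n)) (fun n => h1 _)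
      (fun n => h3 _) fun i j hij => ?_)
    have := (hO.2 _ (Infinite.natEmbedding S i).2 _ (Infinite.natEmbedding S j).2 fun h =>
      hij ((Infinite.natEmbedding S).injective (Subtype.ext h))).1
    rw [← t6 (Infinite.natEmbedding S i), ← t6 (Infinite.natEmbedding S j), star_mul, mul_assoc,
      ← mul_assoc (star (Infinite.natEmbedding S i : A)), this, zero_mul, mul_zero]
  have := Fintype.ofFinite S
  have hsum : ∑ p : S, (p : A) = e := by
    have a1 : (∑ p : S, (p : A)) * e = e := hes.fixL fun q hq => by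
      rw [Finset.sum_mul, Finset.sum_eq_single ⟨q, hq⟩ (fun p _ hp => ?_) (by simp)]
      · exact (hST hq).1.isIdempotentElem.eq
      · have := (hO.2 p p.2 q hq fun h => hp (Subtype.ext h)).1
        rwa [(hST p.2).1.isSelfAdjoint.star_eq] at this
    rw [← a1, Finset.sum_mul]
    exact Finset.sum_congr rfl fun p _ => (hev p p.2).2.symm
  have hze : z * e = e := hes.fixL fun p hp => by
    have := h2 ⟨p, hp⟩
    rw [← show _ = p from this, ← mul_assoc, h3]
  have hr : IsStarProjection (z - e) := hep.sub_of_mul_eq_right hz hze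
  obtain ⟨c, hc, hcc, ⟨a, ha1, ha2⟩, b, hb1, hb2⟩ := hC _ _ hr hg
  have c1 := hc.isIdempotentElem.eq
  have c2 := hc.isSelfAdjoint.star_eq
  have ha3 := hP.pi (hc.mul hr (hcc _)) ha1
  have hcz : ∀ x, c * z * x = x * (c * z) := fun x => by
    rw [mul_assoc, hzc, ← mul_assoc, hcc x, mul_assoc]
  have hcp : IsStarProjection (c * z) := hc.mul hz (hcc _)
  obtain ⟨w, hw0, hw1⟩ : ∃ w : Option S → A, w none = star a ∧ ∀ p, w (some p) = c * v p :=
    ⟨fun o => o.elim (star a) fun p => c * v p, rfl, fun _ => rfl⟩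
  have hww : ∀ p : S, c * v p * star (c * v p) = c * p := fun p => by
    rw [star_mul, c2, mul_assoc, ← mul_assoc (v p), h2, ← hcc, ← mul_assoc, c1]
  refine ⟨c * z, _, w ∘ (Fintype.equivFin (Option S)).symm, hcp, hcz,
    by rw [hzc, mul_assoc, z1], fun hzg hcg => h0 ?_, fun i => ?_, ?_⟩
  · rw [mul_assoc, hzg] at hcg
    rw [sub_mul, one_mul, hcg, sub_zero] at hb1
    have hbg := hP.pi hg hb1
    have hpi : b * star b * b = b := by rw [mul_assoc, hb1, hbg]
    have := hmax (b * star b) ⟨proj_fin hpi, b, hb1, rfl, by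
      rw [← hb2, ← mul_assoc, mul_sub, z1, hze]⟩ (by
      rw [← hb2, ← mul_assoc, ← mul_assoc, mul_sub, ← hzc, hze, hep.isIdempotentElem.eq, sub_self,
        zero_mul, zero_mul])
    rw [← hb1, ← hpi, this, zero_mul, mul_zero]
  · rw [Function.comp_apply]
    cases (Fintype.equivFin (Option S)).symm i with
    | none =>
      rw [hw0, star_star]
      refine ⟨pi_star (by rw [mul_assoc, ha1, ha3]), by simpa [g2] using congrArg star ha2, ?_⟩
      have : a * (c * z) = a := by
        rw [← ha3, mul_assoc, ← hcz, mul_assoc, ← mul_assoc z, hzc c, mul_assoc c z, mul_sub z, z1,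
          hze, ← mul_assoc c, c1]
      have := congrArg star this
      rwa [star_mul, hcp.isSelfAdjoint.star_eq] at this
    | some p =>
      rw [hw1, hww]
      refine ⟨?_, by rw [mul_assoc, t4], ?_⟩
      · rw [mul_assoc, ← mul_assoc (p : A), ← hcc, mul_assoc, t6, ← mul_assoc, c1]
      · rw [mul_assoc, ← mul_assoc z, hzc c, mul_assoc, h3, ← mul_assoc, c1]
  · rw [show (∑ i, (w ∘ (Fintype.equivFin (Option S)).symm) i *
        star ((w ∘ (Fintype.equivFin (Option S)).symm) i)) = ∑ o, w o * star (w o) from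
      (Fintype.equivFin (Option S)).symm.sum_comp fun o => w o * star (w o)]
    simp only [Fintype.sum_option, hw0, hw1, hww, star_star]
    rw [← Finset.mul_sum, hsum, ha1, ← mul_add, sub_add_cancel]

end Lib.MP_08bba9_an.W

namespace Pool.Agent.Lib.MP_08bba9_an.W

variable {H : Type*} [NormedAddCommGroup H] [InnerProductSpace ℂ H] [CompleteSpace H]
variable {M : StarSubalgebra ℂ (H →L[ℂ] H)}

/-- a central piece of a finite central projection is a finite sum of subcopies of `g` -/
theorem IsVN.spreadOp (hM : IsVN M) {z g : H →L[ℂ] H} (hz : Cen M z) (hf : FinP M z) (hg : Pj M g)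
    (h0 : g ≠ 0) (hzg : z * g = g) : ∃ (c : H →L[ℂ] H) (n : ℕ) (w : Fin n → H →L[ℂ] H),
      Cen M c ∧ c * g ≠ 0 ∧ z * c = c ∧
      (∀ i, w i ∈ M ∧ PI (w i) ∧ w i * g = w i ∧ c * w i = w i) ∧
      ∑ i, w i * star (w i) = c := by
  have hz' := cen_coe.1 (show Cen M ((⟨z, hz.1.1⟩ : M) : H →L[ℂ] H) from hz)
  obtain ⟨c, n, w, h1, h2, h3, h4, h5, h6⟩ := _root_.Lib.MP_08bba9_an.W.spread (coe_proper M)
    hM.hAdd hM.hCmp (z := ⟨z, hz.1.1⟩) (g := ⟨g, hg.1⟩) hz'.1 hz'.2 (finP_coe.1 hf) (pj_coe.1 hg)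
    fun h => h0 (congrArg Subtype.val h)
  refine ⟨c, n, fun i => w i, cen_coe.2 ⟨h1, h2⟩, fun h => h4 (Subtype.ext hzg) (Subtype.ext h),
    congrArg Subtype.val h3, fun i => ⟨(w i).2, congrArg Subtype.val (h5 i).1,
      congrArg Subtype.val (h5 i).2.1, congrArg Subtype.val (h5 i).2.2⟩, ?_⟩
  simpa using congrArg Subtype.val h6

end Pool.Agent.Lib.MP_08bba9_an.W
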