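import Mathlib

/-! Approximate traces, part A: abstract hypotheses, the exhaustion lemma for pairs of equivalent
projections and the equivalence of remainders. -/

open scoped ComplexOrder

namespace Pool.Agent.Lib.MP_08bba9_an.W.Tr

variable {M : Type*} [CStarAlgebra M]

/-- `v` is isometric on the range of `star v`. -/
def PI (v : M) : Prop := v * (star v * v) = v

/-- `w` extends `v`. -/
def Ext (v w : M) : Prop := v = w * (star v * v)

lemma as {a b c : M} (h : a * b = c) (x : M) : a * (b * x) = c * x := by
  rw [← mul_assoc, h]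

lemma st {a b c : M} (h : a * b = c) : star b * star a = star c := by
  rw [← star_mul, h]

lemma PI.adj {v : M} (h : PI v) : PI (star v) := by
  have := congrArg star h
  simpa [PI, mul_assoc] using this

lemma PI.init {v : M} (h : PI v) : IsStarProjection (star v * v) := by
  refine ⟨?_, IsSelfAdjoint.star_mul_self v⟩
  change star v * v * (star v * v) = star v * v
  rw [mul_assoc, h]

lemma PI.fin {v : M} (h : PI v) : IsStarProjection (v * star v) := by
  simpa using h.adj.init

lemma pi_of {v p : M} (hp : IsStarProjection p) (h : star v * v = p) : PI v := by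
  have hpp : p * p = p := hp.isIdempotentElem
  have hs : star p = p := hp.isSelfAdjoint
  have h0 : star (v * p - v) * (v * p - v) = 0 := by
    simp only [star_sub, star_mul, hs, sub_mul, mul_sub, mul_assoc, as h, h, hpp]
    simp
  have := (CStarRing.star_mul_self_eq_zero_iff _).1 h0
  rw [PI, h]
  exact sub_eq_zero.1 this

lemma pi_of' {v q : M} (hq : IsStarProjection q) (h : v * star v = q) : PI v := by
  have := (pi_of (v := star v) hq (by simpa using h)).adj
  simpa using this

lemma PI.zero_of_init {v : M} (h : star v * v = 0) : v = 0 :=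
  (CStarRing.star_mul_self_eq_zero_iff _).1 h

lemma PI.zero_of_fin {v : M} (h : v * star v = 0) : v = 0 :=
  (CStarRing.mul_star_self_eq_zero_iff _).1 h

lemma pi_proj {p : M} (hp : IsStarProjection p) : PI p :=
  pi_of hp (by rw [hp.isSelfAdjoint.star_eq]; exact hp.isIdempotentElem)

lemma Ext.refl' {v : M} (h : PI v) : Ext v v := h.symm

lemma Ext.init {v w : M} (hv : PI v) (hw : PI w) (h : Ext v w) :
    star w * w * (star v * v) = star v * v := by
  set p := star v * v with hp
  set e := star w * w with he
  have pp : p * p = p := hv.init.isIdempotentElem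
  have ps : star p = p := hv.init.isSelfAdjoint
  have ee : e * e = e := hw.init.isIdempotentElem
  have es : star e = e := hw.init.isSelfAdjoint
  have h1 : p * (e * p) = p := by
    have h2 : v = w * p := h
    calc p * (e * p) = star (w * p) * (w * p) := by
          rw [star_mul, ps, he]; simp only [mul_assoc]
      _ = p := by rw [← h2]
  have h0 : star (e * p - p) * (e * p - p) = 0 := by
    simp only [star_sub, star_mul, ps, es, sub_mul, mul_sub, mul_assoc, as ee, h1, pp]
    simp
  exact sub_eq_zero.1 (PI.zero_of_init h0)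

lemma Ext.trans' {u v w : M} (hu : PI u) (hv : PI v) (h1 : Ext u v) (h2 : Ext v w) : Ext u w := by
  have h3 := h1.init hu hv
  have h4 : v = w * (star v * v) := h2
  have h5 : u = v * (star u * u) := h1
  calc u = v * (star u * u) := h5
    _ = w * (star v * v) * (star u * u) := by rw [← h4]
    _ = w * (star u * u) := by rw [mul_assoc, h3]

variable [PartialOrder M] [StarOrderedRing M]

/-- The facts about a von Neumann algebra, a finite central projection `z` and a normal positive
functional `r` that the construction of an approximate trace uses. -/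
structure Hyp (z : M) (r : M →L[ℂ] ℂ) : Prop where
  zp : IsStarProjection z
  zc : ∀ x, z * x = x * z
  pos : ∀ c, 0 ≤ c → 0 ≤ r c
  rz : 0 < (r z).re
  rk : ∀ T : M, ∃ R, IsStarProjection R ∧ R * T = T ∧ ∀ x, x * T = 0 → x * R = 0
  pol : ∀ x : M, ∃ v, PI v ∧ star v * v * (star x * x) = star x * x ∧
    v * (star x * x) * star v = x * star x ∧ (∀ y, y * x = 0 → y * v = 0) ∧
    ∀ y, x * y = 0 → v * y = 0
  cmp : ∀ p q : M, IsStarProjection p → IsStarProjection q → ∃ c v w : M, IsStarProjection c ∧
    (∀ x, c * x = x * c) ∧ star v * v = c * p ∧ q * v = v ∧ star w * w = (1 - c) * q ∧ p * w = w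
  fin : ∀ q v : M, IsStarProjection q → z * q = q → star v * v = q → q * v = v → v * star v = q
  ch : ∀ C : Set M, C.Nonempty → (∀ v ∈ C, PI v) → IsChain Ext C → ∃ w, PI w ∧ (∀ v ∈ C, Ext v w) ∧
    (∀ y, (∀ v ∈ C, y * v = 0) → y * w = 0) ∧ (∀ y, (∀ v ∈ C, v * y = 0) → w * y = 0) ∧
    ∀ δ : ℝ, 0 < δ → ∃ v ∈ C, (r (w * star w)).re ≤ (r (v * star v)).re + δ

variable {z : M} {r : M →L[ℂ] ℂ}

omit [StarOrderedRing M] in
lemma Hyp.nn (h : Hyp z r) {c : M} (hc : 0 ≤ c) : 0 ≤ (r c).re := (h.pos c hc).1

lemma Hyp.mono (h : Hyp z r) {a b : M} (hab : a ≤ b) : (r a).re ≤ (r b).re := by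
  have := h.nn (sub_nonneg.2 hab)
  rw [map_sub, Complex.sub_re] at this
  linarith

/-- The exhaustion lemma for pairs. -/
lemma Hyp.exhaust (h : Hyp z r) {p q : M} (hp : IsStarProjection p) (hq : IsStarProjection q)
    {l : ℝ} (hl : 0 < l) :
    ∃ v, PI v ∧ v * p = v ∧ q * v = v ∧ l * (r (v * star v)).re ≤ (r (star v * v)).re ∧
      ∀ y, PI y → y ≠ 0 → y * (p - star v * v) = y → (q - v * star v) * y = y →
        (r (star y * y)).re < l * (r (y * star y)).re := by
  let S : Set M := {v | PI v ∧ v * p = v ∧ q * v = v ∧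
    l * (r (v * star v)).re ≤ (r (star v * v)).re}
  have h0 : (0 : M) ∈ S := ⟨by simp [PI], by simp, by simp, by simp⟩
  obtain ⟨m, hm⟩ := exists_maximal_of_chains_bounded (α := S) (r := fun a b => Ext a.1 b.1)
    (fun c hc => by
      rcases c.eq_empty_or_nonempty with rfl | hne
      · exact ⟨⟨0, h0⟩, by simp⟩
      have hch : IsChain Ext (Subtype.val '' c) := by
        rintro _ ⟨a, ha, rfl⟩ _ ⟨b, hb, rfl⟩ hab
        exact hc ha hb (fun e => hab (congrArg _ e))
      obtain ⟨w, hw, hub, hl', hr', hn⟩ := h.ch _ (hne.image _)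
        (by rintro _ ⟨a, -, rfl⟩; exact a.2.1) hch
      refine ⟨⟨w, hw, ?_, ?_, ?_⟩, fun a ha => hub _ ⟨a, ha, rfl⟩⟩
      · have := hr' (1 - p) (by rintro _ ⟨a, -, rfl⟩; rw [mul_sub, mul_one, a.2.2.1, sub_self])
        rw [mul_sub, mul_one, sub_eq_zero] at this
        exact this.symm
      · have := hl' (1 - q) (by rintro _ ⟨a, -, rfl⟩; rw [sub_mul, one_mul, a.2.2.2.1, sub_self])
        rw [sub_mul, one_mul, sub_eq_zero] at this
        exact this.symm
      · refine le_of_forall_pos_le_add fun δ hδ => ?_
        obtain ⟨_, ⟨a, ha, rfl⟩, hv⟩ := hn (δ / l) (div_pos hδ hl)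
        have h1 := a.2.2.2.2
        have h2 : (r (star a.1 * a.1)).re ≤ (r (star w * w)).re :=
          h.mono (a.2.1.init.le_of_mul_eq_right hw.init ((hub _ ⟨a, ha, rfl⟩).init a.2.1 hw))
        have h3 := mul_le_mul_of_nonneg_left hv hl.le
        rw [mul_add, mul_div_cancel₀ _ hl.ne'] at h3
        linarith)
    (fun {a b c} hab hbc => Ext.trans' a.2.1 b.2.1 hab hbc)
  obtain ⟨v, hv, hvp, hqv, hvl⟩ := m
  refine ⟨v, hv, hvp, hqv, hvl, fun y hy hy0 hyp hqy => ?_⟩
  by_contra hlt
  rw [not_lt] at hlt
  have hv' : star v * (v * star v) = star v := by simpa [PI] using hv.adj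
  have vv : v * (star v * v) = v := hv
  have a1 : star v * q = star v := by
    have := st hqv
    rwa [hq.isSelfAdjoint.star_eq] at this
  have a2 : p * star v = star v := by
    have := st hvp
    rwa [hp.isSelfAdjoint.star_eq] at this
  have e1 : star v * y = 0 := by
    rw [← hqy, ← mul_assoc, mul_sub, a1, hv', sub_self, zero_mul]
  have e2 : y * star v = 0 := by
    rw [← hyp, mul_assoc, sub_mul, a2, mul_assoc, ← mul_assoc (star v), mul_assoc, hv', sub_self,
      mul_zero]
  have e3 : star y * v = 0 := by simpa using st e1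
  have e4 : v * star y = 0 := by simpa using st e2
  have i1 : star (v + y) * (v + y) = star v * v + star y * y := by
    rw [star_add, add_mul, mul_add, mul_add, e1, e3]; simp
  have i2 : (v + y) * star (v + y) = v * star v + y * star y := by
    rw [star_add, add_mul, mul_add, mul_add, e2, e4]; simp
  have yy : y * (star y * y) = y := hy
  have pp : p * p = p := hp.isIdempotentElem
  have qq : q * q = q := hq.isIdempotentElem
  have b1 : y * p = y := by
    rw [← hyp, mul_assoc, sub_mul, pp, mul_assoc, hvp]
  have b2 : q * y = y := by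
    rw [← hqy, ← mul_assoc, mul_sub, qq, ← mul_assoc, hqv]
  have hS : v + y ∈ S := by
    refine ⟨?_, by rw [add_mul, hvp, b1], by rw [mul_add, hqv, b2], ?_⟩
    · rw [PI, i1, add_mul, mul_add, mul_add, vv, yy, as e4, as e2]; simp
    · rw [i1, i2, map_add, map_add, Complex.add_re, Complex.add_re, mul_add]
      linarith
  have h1 : Ext v (v + y) := by
    rw [Ext, add_mul, vv, as e2]; simp
  have h2 : Ext (v + y) v := hm ⟨_, hS⟩ h1
  rw [Ext, i1, mul_add, vv, as e4, zero_mul] at h2
  exact hy0 (add_left_cancel h2)

omit [StarOrderedRing M] in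
lemma Hyp.half (h : Hyp z r) {p q u v c a : M} (hp : IsStarProjection p) (hq : IsStarProjection q)
    (hz : z * q = q) (hu : star u * u = p) (hu' : u * star u = q) (hv : PI v) (hvp : v * p = v)
    (hqv : q * v = v) (hc : IsStarProjection c) (hcc : ∀ x, c * x = x * c)
    (ha : star a * a = c * (p - star v * v)) (hqa : (q - v * star v) * a = a) :
    a * star a = c * (q - v * star v) := by
  have pp : p * p = p := hp.isIdempotentElem
  have qq : q * q = q := hq.isIdempotentElem
  have cc : c * c = c := hc.isIdempotentElem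
  have cs : star c = c := hc.isSelfAdjoint
  have hv' : star v * (v * star v) = star v := by simpa [PI] using hv.adj
  have vv : v * (star v * v) = v := hv
  have a1 : star v * q = star v := by
    have := st hqv
    rwa [hq.isSelfAdjoint.star_eq] at this
  have a2 : p * star v = star v := by
    have := st hvp
    rwa [hp.isSelfAdjoint.star_eq] at this
  have hp' : IsStarProjection (p - star v * v) :=
    hv.init.sub_of_mul_eq_left hp (by rw [mul_assoc, hvp])
  have ha0 : PI a := pi_of (hc.mul hp' (hcc _)) ha
  have ha1 : a * (c * (p - star v * v)) = a := by rw [← ha]; exact ha0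
  have ca : c * a = a := by
    rw [← ha1, ← mul_assoc, hcc a, mul_assoc, as cc]
  have ap : a * p = a := by
    rw [← ha1, mul_assoc, mul_assoc, sub_mul, pp, mul_assoc, hvp]
  have qa : q * a = a := by
    rw [← hqa, ← mul_assoc, mul_sub, qq, ← mul_assoc, hqv]
  have e1 : star v * a = 0 := by
    rw [← hqa, ← mul_assoc, mul_sub, a1, hv', sub_self, zero_mul]
  have e2 : a * star v = 0 := by
    rw [← ha1, mul_assoc, mul_assoc, sub_mul, a2, mul_assoc, hv', sub_self, mul_zero, mul_zero]
  have e3 : star a * v = 0 := by simpa using st e1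
  have e4 : v * star a = 0 := by simpa using st e2
  set s := c * v + a with hs
  have ss : star s = c * star v + star a := by rw [hs, star_add, star_mul, cs, hcc]
  have i1 : star s * s = c * p := by
    rw [ss, hs, add_mul, mul_add, mul_add, ha, mul_assoc c _ a, e1, hcc v, as e3, mul_assoc,
      ← mul_assoc (star v), ← hcc, as cc, mul_sub]
    simp
  have i2 : s * star s = c * (v * star v) + a * star a := by
    rw [ss, hs, add_mul, mul_add, mul_add, mul_assoc c _ (star a), e4, hcc (star v), as e2,
      mul_assoc, ← mul_assoc v, ← hcc, as cc]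
    simp
  have sp : s * p = s := by rw [hs, add_mul, mul_assoc, hvp, ap]
  have hupu : u * (p * star u) = q := by
    have : PI u := pi_of hp hu
    rw [← mul_assoc, ← hu, this, hu']
  have key := h.fin (c * q) (s * star u) (hc.mul hq (hcc _))
    (by rw [← mul_assoc, ← hcc z, mul_assoc, hz])
    (by rw [star_mul, star_star, mul_assoc, as i1, ← mul_assoc, ← mul_assoc, ← hcc u, mul_assoc,
      mul_assoc, hupu])
    (by rw [← mul_assoc, hs, mul_add, mul_assoc c q a, qa, ca, mul_assoc, ← mul_assoc q, ← hcc q,
      mul_assoc, hqv, as cc])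
  rw [star_mul, star_star, mul_assoc, as hu, as sp, i2] at key
  rw [mul_sub, ← key]
  abel

omit [StarOrderedRing M] in
/-- Remainders of equivalent finite projections are equivalent. -/
lemma Hyp.rem (h : Hyp z r) {p q u v : M} (hp : IsStarProjection p) (hq : IsStarProjection q)
    (hz : z * q = q) (hu : star u * u = p) (hu' : u * star u = q) (hv : PI v) (hvp : v * p = v)
    (hqv : q * v = v) : ∃ y, star y * y = p - star v * v ∧ y * star y = q - v * star v := by
  have hp' : IsStarProjection (p - star v * v) :=
    hv.init.sub_of_mul_eq_left hp (by rw [mul_assoc, hvp])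
  have hq' : IsStarProjection (q - v * star v) :=
    hv.fin.sub_of_mul_eq_right hq (by rw [← mul_assoc, hqv])
  obtain ⟨c, a, b, hc, hcc, ha, hqa, hb, hpb⟩ := h.cmp _ _ hp' hq'
  have h1 := h.half hp hq hz hu hu' hv hvp hqv hc hcc ha hqa
  have hqu : q * u = u := by rw [← hu', mul_assoc]; exact pi_of' hq hu'
  have hzp : z * p = p := by
    rw [← hu, ← mul_assoc, h.zc, mul_assoc, ← hqu, as hz]
  have hcc' : ∀ x, (1 - c) * x = x * (1 - c) := fun x => by
    rw [sub_mul, mul_sub, hcc, one_mul, mul_one]
  have h2 := h.half (u := star u) (v := star v) (a := b) hq hp hzp (by rw [star_star, hu'])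
    (by rw [star_star, hu]) hv.adj (by simpa [hq.isSelfAdjoint.star_eq] using st hqv)
    (by simpa [hp.isSelfAdjoint.star_eq] using st hvp) hc.one_sub hcc'
    (by rw [star_star]; exact hb) (by rw [star_star]; exact hpb)
  rw [star_star] at h2
  have ca : c * a = a := by
    have : a * (c * (p - star v * v)) = a := by
      rw [← ha]; exact pi_of (hc.mul hp' (hcc _)) ha
    rw [← this, ← mul_assoc, hcc a, mul_assoc, as hc.isIdempotentElem]
  have bc : b * c = 0 := by
    have : b * ((1 - c) * (q - v * star v)) = b := by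
      rw [← hb]; exact pi_of (hc.one_sub.mul hq' (hcc' _)) hb
    rw [← this, mul_assoc, mul_assoc, ← hcc, as hc.one_sub_mul_self]
    simp
  have e1 : b * a = 0 := by rw [← ca, as bc, zero_mul]
  have e2 : a * b = 0 := by rw [← ca, hcc a, mul_assoc, hcc b, bc, mul_zero]
  have e3 : star a * star b = 0 := by simpa using st e1
  have e4 : star b * star a = 0 := by simpa using st e2
  refine ⟨a + star b, ?_, ?_⟩
  · rw [star_add, star_star, add_mul, mul_add, mul_add, e3, e1, ha, h2]
    simp [sub_mul]
  · rw [star_add, star_star, add_mul, mul_add, mul_add, e2, e4, hb, h1]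
    simp [sub_mul]

end Pool.Agent.Lib.MP_08bba9_an.W.Tr
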