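import Pool.Agent.Lib.MP_08bba9_an.W.TrA

/-! Approximate traces, part B: a corner on which the functional is almost tracial. -/

open scoped ComplexOrder

namespace Pool.Agent.Lib.MP_08bba9_an.W.Tr

variable {M : Type*} [CStarAlgebra M]

lemma flip {p q : M} (hp : IsStarProjection p) (hq : IsStarProjection q) (h : q * p = p) :
    p * q = p := by
  have := st h
  rwa [hp.isSelfAdjoint.star_eq, hq.isSelfAdjoint.star_eq] at this

lemma adj_mul {v q : M} (hq : IsStarProjection q) (h : q * v = v) : star v * q = star v := by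
  have := st h
  rwa [hq.isSelfAdjoint.star_eq] at this

lemma mul_adj {v p : M} (hp : IsStarProjection p) (h : v * p = v) : p * star v = star v := by
  have := st h
  rwa [hp.isSelfAdjoint.star_eq] at this

lemma PI.fin_mul {v : M} (h : PI v) : v * star v * v = v := by rw [mul_assoc]; exact h

variable [PartialOrder M] [StarOrderedRing M] {z : M} {r : M →L[ℂ] ℂ}

lemma Hyp.two (h : Hyp z r) {e : M} (he : IsStarProjection e) (hz : z * e = e)
    (hr : 0 < (r e).re) : ∃ u, PI u ∧ u ≠ 0 ∧ u * e = u ∧ e * u = u ∧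
      ∀ y, PI y → y ≠ 0 → y * (star u * u) = y → u * star u * y = y →
        (r (star y * y)).re < 2 * (r (y * star y)).re := by
  have ee : e * e = e := he.isIdempotentElem
  have es : star e * e = e := by rw [he.isSelfAdjoint.star_eq, ee]
  have es' : e * star e = e := by rw [he.isSelfAdjoint.star_eq, ee]
  obtain ⟨v, hv, hve, hev, hl, hall⟩ := h.exhaust he he (l := 2) two_pos
  obtain ⟨u, hu, hu'⟩ := h.rem he he hz es es' hv hve hev
  have hp' : IsStarProjection (e - star v * v) :=
    hv.init.sub_of_mul_eq_left he (by rw [mul_assoc, hve])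
  have hpi : PI u := pi_of hp' hu
  refine ⟨u, hpi, ?_, ?_, ?_, fun y hy hy0 h1 h2 => hall y hy hy0 (hu ▸ h1) (hu' ▸ h2)⟩
  · rintro rfl
    have h1 : star v * v = e := by
      rw [mul_zero] at hu; exact (sub_eq_zero.1 hu.symm).symm
    have h2 : v * star v = e := by
      rw [zero_mul] at hu'; exact (sub_eq_zero.1 hu'.symm).symm
    rw [h1, h2] at hl
    linarith
  · have : u * (e - star v * v) = u := by rw [← hu]; exact hpi
    rw [← this, mul_assoc, sub_mul, ee, mul_assoc, hve]
  · have : (e - v * star v) * u = u := by rw [← hu']; exact hpi.fin_mul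
    rw [← this, ← mul_assoc, mul_sub, ee, ← mul_assoc, hev]

lemma Hyp.faith (h : Hyp z r) : ∃ e, IsStarProjection e ∧ e ≠ 0 ∧ z * e = e ∧
    ∀ s, IsStarProjection s → s ≠ 0 → e * s = s → 0 < (r s).re := by
  obtain ⟨u, hu, hu0, -, hzu, hall⟩ := h.two h.zp h.zp.isIdempotentElem h.rz
  refine ⟨u * star u, hu.fin, fun e => hu0 (PI.zero_of_fin e), by rw [← mul_assoc, hzu],
    fun s hs hs0 hes => ?_⟩
  have ss : s * s = s := hs.isIdempotentElem
  have h1 : s * u * star (s * u) = s := by
    rw [star_mul, hs.isSelfAdjoint.star_eq, mul_assoc, ← mul_assoc u, hes, ss]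
  have h2 := hall (s * u) (pi_of' hs h1) (fun e => hs0 (by rw [← h1, e, zero_mul]))
    (by rw [mul_assoc, hu]) (by rw [← mul_assoc, hes])
  rw [h1] at h2
  have := h.nn (star_mul_self_nonneg (s * u))
  linarith

/-- a corner on which the functional is faithful and almost invariant under equivalence -/
lemma Hyp.corner (h : Hyp z r) {ε : ℝ} (hε : 0 < ε) : ∃ g, IsStarProjection g ∧ g ≠ 0 ∧ z * g = g ∧
    (∀ s, IsStarProjection s → s ≠ 0 → g * s = s → 0 < (r s).re) ∧
    ∀ y, PI y → y * g = y → g * y = y →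
      (r (star y * y)).re ≤ (1 + ε) * (r (y * star y)).re := by
  obtain ⟨e, he, he0, hze, hf⟩ := h.faith
  obtain ⟨u, hu, hu0, hue, heu, hall⟩ := h.two he hze (hf e he he0 he.isIdempotentElem)
  set p := star u * u with hp
  set q := u * star u with hq
  have ep : e * p = p := by rw [hp, ← mul_assoc, mul_adj he hue]
  have eq : e * q = q := by rw [hq, ← mul_assoc, heu]
  let T : Set M := {y | PI y ∧ y ≠ 0 ∧ y * p = y ∧ q * y = y}
  let f : M → ℝ := fun y => (r (star y * y)).re / (r (y * star y)).re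
  have hq0 : ∀ y ∈ T, 0 < (r (y * star y)).re := fun y hy =>
    hf _ hy.1.fin (fun e => hy.2.1 (PI.zero_of_fin e)) (by
      rw [← hy.2.2.2, mul_assoc q, as eq])
  have hp0 : ∀ y ∈ T, 0 < (r (star y * y)).re := fun y hy =>
    hf _ hy.1.init (fun e => hy.2.1 (PI.zero_of_init e)) (by
      rw [← mul_assoc, ← mul_adj hu.init hy.2.2.1, as ep])
  have hb : BddAbove (f '' T) := ⟨2, by
    rintro _ ⟨y, hy, rfl⟩
    exact (div_le_iff₀ (hq0 y hy)).2 (hall y hy.1 hy.2.1 hy.2.2.1 hy.2.2.2).le⟩
  have huT : u ∈ T := ⟨hu, hu0, hu, hu.fin_mul⟩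
  set μ := sSup (f '' T) with hμ
  have hle : ∀ y ∈ T, (r (star y * y)).re ≤ μ * (r (y * star y)).re := fun y hy =>
    (div_le_iff₀ (hq0 y hy)).1 (le_csSup hb ⟨y, hy, rfl⟩)
  have hμ0 : 0 < μ := lt_of_lt_of_le (div_pos (hp0 u huT) (hq0 u huT)) (le_csSup hb ⟨u, huT, rfl⟩)
  have h1ε : 0 < 1 + ε := by linarith
  obtain ⟨_, ⟨y₀, hy₀, rfl⟩, hlt⟩ := exists_lt_of_lt_csSup (s := f '' T) (b := μ / (1 + ε))
    ⟨_, u, huT, rfl⟩ (by rw [← hμ, div_lt_iff₀ h1ε]; nlinarith)
  have hlt' : μ / (1 + ε) * (r (y₀ * star y₀)).re < (r (star y₀ * y₀)).re :=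
    (lt_div_iff₀ (hq0 _ hy₀)).1 hlt
  obtain ⟨hy, -, hyp, hqy⟩ := hy₀
  have hl : 0 < (1 + ε) / μ := div_pos h1ε hμ0
  obtain ⟨v, hv, hvq, hpv, hlv, hrem⟩ := h.exhaust hy.fin hy.init hl
  have pp3 : p * (star y₀ * y₀) = star y₀ * y₀ := by rw [← mul_assoc, mul_adj hu.init hyp]
  have qq3 : q * (y₀ * star y₀) = y₀ * star y₀ := by rw [← mul_assoc, hqy]
  have zp3 : z * (star y₀ * y₀) = star y₀ * y₀ := by rw [← pp3, ← ep, mul_assoc e, as hze]
  obtain ⟨s, hs, hs'⟩ := h.rem (u := star y₀) hy.fin hy.init zp3 (by rw [star_star])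
    (by rw [star_star]) hv hvq hpv
  set g := star y₀ * y₀ - v * star v with hg
  set g' := y₀ * star y₀ - star v * v with hg'
  have gP : IsStarProjection g := hv.fin.sub_of_mul_eq_right hy.init (by rw [← mul_assoc, hpv])
  have gP' : IsStarProjection g' := hv.init.sub_of_mul_eq_left hy.fin (by rw [mul_assoc, hvq])
  have hsP : PI s := pi_of gP' hs
  have p3g : star y₀ * y₀ * g = g := by
    rw [hg, mul_sub, hy.init.isIdempotentElem.eq, ← mul_assoc _ v, hpv]
  have q3g : y₀ * star y₀ * g' = g' := by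
    rw [hg', mul_sub, hy.fin.isIdempotentElem.eq, ← mul_assoc _ (star v), mul_adj hy.fin hvq]
  have pg : p * g = g := by rw [← p3g, as pp3]
  have qg : q * g' = g' := by rw [← q3g, as qq3]
  have eg : e * g = g := by rw [← pg, as ep]
  have sg : s * g' = s := by rw [← hs]; exact hsP
  have gs : g * s = s := by rw [← hs']; exact hsP.fin_mul
  refine ⟨g, gP, fun g0 => ?_, by rw [← eg, as hze], fun t ht ht0 hgt => hf t ht ht0 (by
    rw [← hgt, as eg]), fun y hyP hyg hgy => ?_⟩
  · have s0 : s = 0 := PI.zero_of_fin (hs'.trans g0)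
    have h1 : star v * v = y₀ * star y₀ := by
      rw [s0, mul_zero] at hs; exact (sub_eq_zero.1 hs.symm).symm
    have h2 : v * star v = star y₀ * y₀ := (sub_eq_zero.1 g0).symm
    rw [h1, h2, div_mul_eq_mul_div, div_le_iff₀ hμ0] at hlv
    rw [div_mul_eq_mul_div, div_lt_iff₀ h1ε] at hlt'
    linarith
  rcases eq_or_ne y 0 with rfl | hy0
  · simp
  have a1 : star (star s * y) * (star s * y) = star y * y := by
    rw [star_mul, star_star, mul_assoc, as hs', hgy]
  have a2 : star s * y * star (star s * y) = star s * (y * star y) * s := by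
    rw [star_mul, star_star]; simp only [mul_assoc]
  have hA := hle (star s * y) ⟨pi_of hyP.init a1,
    fun e0 => hy0 (PI.zero_of_init (by rw [← a1, e0, mul_zero])),
    by rw [mul_assoc, ← hyg, mul_assoc y, flip gP hu.init pg],
    by rw [← mul_adj gP' sg, mul_assoc g', as qg]⟩
  rw [a1, a2] at hA
  have qq : y * star y * (y * star y) = y * star y := hyP.fin.isIdempotentElem
  have qs : star (y * star y) = y * star y := hyP.fin.isSelfAdjoint
  have gq : g * (y * star y) = y * star y := by rw [← mul_assoc, hgy]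
  have b1 : star (y * star y * s) * (y * star y * s) = star s * (y * star y) * s := by
    rw [star_mul, qs, mul_assoc, as qq, ← mul_assoc]
  have b2 : y * star y * s * star (y * star y * s) = y * star y := by
    rw [star_mul, qs, mul_assoc, as hs', gq, qq]
  have hB := hrem (y * star y * s) (pi_of' hyP.fin b2)
    (fun e0 => hy0 (PI.zero_of_fin (by rw [← b2, e0, zero_mul])))
    (by rw [mul_assoc, sg]) (by rw [as gq])
  rw [b1, b2] at hB
  have := mul_le_mul_of_nonneg_left hB.le hμ0.le
  rw [← mul_assoc μ, mul_div_cancel₀ _ hμ0.ne'] at this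
  linarith

lemma Hyp.halve (h : Hyp z r) {a s : M} (h0 : 0 ≤ a) (h1 : a ≤ 1)
    (hs : s * a = a) : ∃ p b : M, IsStarProjection p ∧ s * p = p ∧ 0 ≤ b ∧ b ≤ 1 ∧ s * b = b ∧
      a + a = p + b := by
  have ha : IsSelfAdjoint a := h0.isSelfAdjoint
  set d : M := a + a - 1 with hd
  have hdsa : IsSelfAdjoint d := (ha.add ha).sub (IsSelfAdjoint.one M)
  obtain ⟨p, hp, hpd, hk⟩ := h.rk d⁺
  have e0 : d⁺ - d⁻ = d := CFC.posPart_sub_negPart d hdsa
  have P0 : 0 ≤ d⁺ := CFC.posPart_nonneg d
  have N0 : 0 ≤ d⁻ := CFC.negPart_nonneg d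
  have np : d⁻ * p = 0 := hk _ (CFC.negPart_mul_posPart d)
  have ps : star p = p := hp.isSelfAdjoint
  have pp : p * p = p := hp.isIdempotentElem
  have pn : p * d⁻ = 0 := by
    have := st np
    rwa [ps, N0.isSelfAdjoint.star_eq, star_zero] at this
  have dp : d⁺ * p = d⁺ := by
    have := st hpd
    rwa [ps, P0.isSelfAdjoint.star_eq] at this
  have sp : s * p = p := by
    have h2 : (1 - s) * d = -(1 - s) := by
      rw [hd, mul_sub, mul_add, sub_mul, one_mul, hs]; simp
    have h3 : (1 - s) * d⁺ * (d⁺ + 1) = 0 := by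
      have h4 : d * d⁺ = d⁺ * d⁺ := by
        conv_lhs => rw [← e0]
        rw [e0, ← e0, sub_mul, e0, CFC.negPart_mul_posPart, sub_zero]
      rw [mul_add, mul_one, mul_assoc, ← h4, ← mul_assoc, h2, neg_mul, neg_add_cancel]
    have hu : IsUnit (d⁺ + 1) :=
      CStarAlgebra.isUnit_of_le 1 (le_add_of_nonneg_left P0)
    have h5 := hk _ (hu.mul_left_eq_zero.1 h3)
    rw [sub_mul, one_mul, sub_eq_zero] at h5
    exact h5.symm
  have aa : a + a = d⁺ - d⁻ + 1 := by rw [e0, hd]; abel
  refine ⟨p, a + a - p, hp, sp, ?_, ?_, by rw [mul_sub, mul_add, hs, sp], by abel⟩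
  · have h2 : a + a - p = star (1 - p) * (a + a) * (1 - p) + d⁺ := by
      rw [star_sub, star_one, ps, aa]
      simp only [mul_sub, sub_mul, mul_add, add_mul, one_mul, mul_one, hpd, dp, np, pn, pp,
        zero_mul]
      abel
    rw [h2]
    exact add_nonneg (star_left_conjugate_nonneg (add_nonneg h0 h0) _) P0
  · rw [← sub_nonneg]
    have h3 : (1 - a) + (1 - a) = 1 - (d⁺ - d⁻) := by rw [e0, hd]; abel
    have h2 : 1 - (a + a - p) = star p * ((1 - a) + (1 - a)) * p + d⁻ := by
      rw [ps, aa, h3]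
      simp only [mul_sub, sub_mul, mul_one, hpd, dp, pn, pp, zero_mul]
      abel
    rw [h2]
    have := sub_nonneg.2 h1
    exact add_nonneg (star_left_conjugate_nonneg (add_nonneg this this) _) N0

/-- from projections to all elements of the corner -/
lemma Hyp.layer (h : Hyp z r) {g : M} (hg : IsStarProjection g) {c : ℝ} (hc : 0 ≤ c)
    (H : ∀ y, PI y → y * g = y → g * y = y → (r (star y * y)).re ≤ c * (r (y * star y)).re)
    {x : M} (hxg : x * g = x) (hgx : g * x = x) :
    (r (star x * x)).re ≤ c * (r (x * star x)).re := by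
  obtain ⟨v, hv, hs, hvx, hl, hr⟩ := h.pol x
  have gv : g * v = v := by
    have := hl (1 - g) (by rw [sub_mul, one_mul, hgx, sub_self])
    rw [sub_mul, one_mul, sub_eq_zero] at this
    exact this.symm
  have vg : v * g = v := by
    have := hr (1 - g) (by rw [mul_sub, mul_one, hxg, sub_self])
    rw [mul_sub, mul_one, sub_eq_zero] at this
    exact this.symm
  have gs : g * (star v * v) = star v * v := by rw [← mul_assoc, mul_adj hg vg]
  have key : ∀ (n : ℕ) (a : M), 0 ≤ a → a ≤ 1 → star v * v * a = a →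
      (r a).re ≤ c * (r (v * a * star v)).re + (r 1).re * (1 / 2) ^ n := by
    intro n
    induction n with
    | zero =>
      intro a h0 h1 _
      have := h.mono h1
      have := mul_nonneg hc (h.nn (star_right_conjugate_nonneg h0 v))
      rw [pow_zero, mul_one]; linarith
    | succ n ih =>
      intro a h0 h1 ha
      obtain ⟨p, b, hp, sp, b0, b1, sb, e⟩ := h.halve h0 h1 ha
      have pp : p * p = p := hp.isIdempotentElem
      have y1 : star (v * p) * (v * p) = p := by
        rw [star_mul, hp.isSelfAdjoint.star_eq, mul_assoc, ← mul_assoc (star v), sp, pp]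
      have y2 : v * p * star (v * p) = v * p * star v := by
        rw [star_mul, hp.isSelfAdjoint.star_eq, mul_assoc, as pp, mul_assoc]
      have gp : g * p = p := by rw [← sp, as gs]
      have h2 := H (v * p) (pi_of hp y1) (by rw [mul_assoc, flip hp hg gp]) (by rw [as gv])
      rw [y1, y2] at h2
      have h3 := ih b b0 b1 sb
      have h4 : (r a).re + (r a).re = (r p).re + (r b).re := by
        rw [← Complex.add_re, ← map_add, e, map_add, Complex.add_re]
      have h5 : (r (v * a * star v)).re + (r (v * a * star v)).re =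
          (r (v * p * star v)).re + (r (v * b * star v)).re := by
        rw [← Complex.add_re, ← map_add, ← add_mul, ← mul_add, e, mul_add, add_mul, map_add,
          Complex.add_re]
      have h6 := congrArg (c * ·) h5
      simp only [mul_add] at h6
      rw [pow_succ]
      linarith
  have key2 : ∀ a : M, 0 ≤ a → a ≤ 1 → star v * v * a = a →
      (r a).re ≤ c * (r (v * a * star v)).re := fun a h0 h1 ha => by
    have ht : Filter.Tendsto (fun n : ℕ => c * (r (v * a * star v)).re + (r 1).re * (1 / 2) ^ n)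
        Filter.atTop (nhds (c * (r (v * a * star v)).re + (r 1).re * 0)) :=
      tendsto_const_nhds.add ((tendsto_pow_atTop_nhds_zero_of_lt_one (by norm_num)
        (by norm_num)).const_mul _)
    have := ge_of_tendsto' ht fun n => key n a h0 h1 ha
    simpa using this
  set t : ℝ := (‖star x * x‖ + 1)⁻¹ with ht
  have t0 : 0 < t := by positivity
  have x0 : 0 ≤ star x * x := star_mul_self_nonneg x
  have a0 : 0 ≤ t • (star x * x) := smul_nonneg t0.le x0
  have a1 : t • (star x * x) ≤ 1 := by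
    rw [← CStarAlgebra.norm_le_one_iff_of_nonneg _ a0, norm_smul, Real.norm_of_nonneg t0.le, ht,
      inv_mul_le_iff₀ (by positivity)]
    linarith
  have h7 := key2 _ a0 a1 (by rw [mul_smul_comm, hs])
  rw [mul_smul_comm, smul_mul_assoc, hvx, r.map_smul_of_tower, r.map_smul_of_tower,
    Complex.smul_re, Complex.smul_re, smul_eq_mul, smul_eq_mul, mul_left_comm] at h7
  exact le_of_mul_le_mul_left h7 t0

end Pool.Agent.Lib.MP_08bba9_an.W.Tr
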