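import Pool.Agent.Lib.MP_08bba9_an.W.TrB

/-! Approximate traces, part C: spreading the almost tracial corner over a central projection. -/

open scoped ComplexOrder

namespace Pool.Agent.Lib.MP_08bba9_an.W.Tr

variable {M : Type*} [CStarAlgebra M] [PartialOrder M] {z : M} {r : M →L[ℂ] ℂ}

/-- a finite projection does not dominate infinitely many orthogonal copies of `g ≠ 0` -/
lemma Hyp.no_seq (h : Hyp z r) {g : M} (hg : IsStarProjection g) (u : ℕ → M)
    (h1 : ∀ i, star (u i) * u i = g) (h2 : ∀ i j, i ≠ j → star (u i) * u j = 0)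
    (hz : ∀ i, z * u i = u i) : g = 0 := by
  have ug : ∀ i, u i * g = u i := fun i => by rw [← h1 i]; exact pi_of hg (h1 i)
  let v : ℕ → M := fun n => ∑ j ∈ Finset.range n, u (j + 1) * star (u j)
  let E : ℕ → M := fun n => ∑ j ∈ Finset.range n, u j * star (u j)
  have vu : ∀ n j, j < n → v n * u j = u (j + 1) := fun n j hj => by
    rw [Finset.sum_mul, Finset.sum_eq_single j (fun i _ hi => by rw [mul_assoc, h2 i j hi, mul_zero])
      (fun hn => absurd (Finset.mem_range.2 hj) hn), mul_assoc, h1, ug]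
  have Eu : ∀ n j, j < n → E n * u j = u j := fun n j hj => by
    rw [Finset.sum_mul, Finset.sum_eq_single j (fun i _ hi => by rw [mul_assoc, h2 i j hi, mul_zero])
      (fun hn => absurd (Finset.mem_range.2 hj) hn), mul_assoc, h1, ug]
  have vu' : ∀ n j, j < n → star (v n) * u (j + 1) = u j := fun n j hj => by
    rw [star_sum, Finset.sum_mul, Finset.sum_eq_single j (fun i _ hi => by
      rw [star_mul, star_star, mul_assoc, h2 _ _ (by omega), mul_zero])
      (fun hn => absurd (Finset.mem_range.2 hj) hn), star_mul, star_star, mul_assoc, h1, ug]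
  have vv : ∀ n, star (v n) * v n = E n := fun n => by
    conv_lhs => rw [show v n = ∑ j ∈ Finset.range n, u (j + 1) * star (u j) from rfl]
    rw [Finset.mul_sum]
    exact Finset.sum_congr rfl fun j hj => by
      rw [← mul_assoc]; exact congrArg (· * star (u j)) (vu' n j (Finset.mem_range.1 hj))
  have ext : ∀ n m, n ≤ m → Ext (v n) (v m) := fun n m hnm => by
    rw [Ext, vv, Finset.mul_sum]
    exact Finset.sum_congr rfl fun j hj => by
      rw [← mul_assoc, vu m j (lt_of_lt_of_le (Finset.mem_range.1 hj) hnm)]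
  have vP : ∀ n, PI (v n) := fun n => (ext n n le_rfl).symm
  obtain ⟨w, hw, hub, hl, -, -⟩ := h.ch (Set.range v) (Set.range_nonempty v)
    (by rintro _ ⟨n, rfl⟩; exact vP n) (by
      rintro _ ⟨n, rfl⟩ _ ⟨m, rfl⟩ -
      rcases le_total n m with hnm | hnm
      · exact Or.inl (ext n m hnm)
      · exact Or.inr (ext m n hnm))
  have Fu : ∀ j, star w * w * u j = u j := fun j => by
    have := (hub _ ⟨j + 1, rfl⟩).init (vP _) hw
    rw [vv] at this
    rw [← Eu (j + 1) j (Nat.lt_succ_self j), as this]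
  have kill : ∀ y : M, (∀ j, y * u (j + 1) = 0) → y * w = 0 := fun y hy =>
    hl y (by
      rintro _ ⟨n, rfl⟩
      rw [Finset.mul_sum]
      exact Finset.sum_eq_zero fun j _ => by rw [← mul_assoc, hy, zero_mul])
  have fix : ∀ y : M, (∀ j, y * u (j + 1) = u (j + 1)) → y * w = w := fun y hy => by
    have := kill (1 - y) fun j => by rw [sub_mul, one_mul, hy, sub_self]
    rw [sub_mul, one_mul, sub_eq_zero] at this
    exact this.symm
  have key := h.fin (star w * w) w hw.init
    (by rw [← mul_assoc, h.zc, mul_assoc, fix z fun j => hz _]) rfl (fix _ fun j => Fu _)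
  have k0 := kill (star (u 0)) fun j => h2 0 (j + 1) (by omega)
  have k1 := Fu 0
  rw [← key] at k1
  rw [← h1 0]
  calc star (u 0) * u 0 = star (u 0) * (w * star w * u 0) := by rw [k1]
    _ = 0 := by rw [mul_assoc, as k0, zero_mul]

lemma Hyp.spread (h : Hyp z r) {g : M} (hg : IsStarProjection g) (g0 : g ≠ 0) (hzg : z * g = g) :
    ∃ (t : Finset (Option M)) (w : Option M → M) (c : M), (∀ x, c * x = x * c) ∧
      ∑ i ∈ t, w i * star (w i) = c ∧
      (∀ i ∈ t, PI (w i) ∧ w i * g = w i ∧ z * w i = w i ∧ c * w i = w i) ∧ ∃ i ∈ t, w i ≠ 0 := by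
  classical
  obtain ⟨S, hS⟩ := zorn_subset {S : Set M | (∀ u ∈ S, star u * u = g ∧ z * u = u) ∧
      S.Pairwise fun a b => star a * b = 0} (fun c hc hch =>
    ⟨⋃₀ c, ⟨fun u ⟨t, ht, hu⟩ => (hc ht).1 u hu,
      hch.pairwise_sUnion.2 fun t ht => (hc ht).2⟩, fun s hs => Set.subset_sUnion_of_mem hs⟩)
  obtain ⟨⟨hS1, hS2⟩, hmax⟩ := hS
  have hfin : S.Finite := by
    by_contra hinf
    have hinf : S.Infinite := hinf
    let f := hinf.natEmbedding
    exact g0 (h.no_seq hg (fun n => f n) (fun n => (hS1 _ (f n).2).1)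
      (fun i j hij => hS2 (f i).2 (f j).2 fun e => hij (f.injective (Subtype.ext e)))
      fun n => (hS1 _ (f n).2).2)
  obtain ⟨s, rfl⟩ := hfin.exists_finset_coe
  have uP : ∀ u ∈ s, PI u := fun u hu => pi_of hg (hS1 u hu).1
  have ug : ∀ u ∈ s, u * g = u := fun u hu => by rw [← (hS1 u hu).1]; exact uP u hu
  set F := ∑ u ∈ s, u * star u with hF
  have Fu : ∀ u ∈ s, F * u = u := fun u hu => by
    rw [hF, Finset.sum_mul, Finset.sum_eq_single u
      (fun i hi hiu => by rw [mul_assoc, hS2 hi hu hiu, mul_zero]) (fun hn => absurd hu hn),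
      (uP u hu).fin_mul]
  have FP : IsStarProjection F := by
    refine ⟨?_, ?_⟩
    · change F * F = F
      conv_lhs => rw [hF, Finset.mul_sum]
      exact Finset.sum_congr rfl fun u hu => by rw [← mul_assoc, ← hF, Fu u hu]
    · rw [IsSelfAdjoint, hF, star_sum]
      exact Finset.sum_congr rfl fun u _ => by rw [star_mul, star_star]
  have zF : z * F = F := by
    rw [hF, Finset.mul_sum]
    exact Finset.sum_congr rfl fun u hu => by rw [← mul_assoc, (hS1 u hu).2]
  have RP : IsStarProjection (z - F) := FP.sub_of_mul_eq_right h.zp zF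
  have zz : z * z = z := h.zp.isIdempotentElem
  have zR : z * (z - F) = z - F := by rw [mul_sub, zz, zF]
  obtain ⟨c, a, b, hc, hcc, ha, hga, hb, hRb⟩ := h.cmp _ _ RP hg
  have cc : c * c = c := hc.isIdempotentElem
  have cg : c * g ≠ 0 := fun e => by
    rw [sub_mul, one_mul, e, sub_zero] at hb
    have ub : ∀ u ∈ s, star u * b = 0 := fun u hu => by
      rw [← hRb, ← mul_assoc, mul_sub, adj_mul h.zp (hS1 u hu).2, adj_mul FP (Fu u hu), sub_self,
        zero_mul]
    have hm : b ∈ (s : Set M) := by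
      refine hmax (y := insert b (s : Set M)) ⟨?_, ?_⟩ (Set.subset_insert _ _) (Set.mem_insert _ _)
      · rintro u (rfl | hu)
        · exact ⟨hb, by rw [← hRb, as zR]⟩
        · exact hS1 u hu
      · exact hS2.insert fun u hu _ => ⟨by simpa using st (ub u hu), ub u hu⟩
    exact g0 (hb.symm.trans (ub b hm))
  have aP : PI a := pi_of (hc.mul RP (hcc _)) ha
  have a1 : a * (c * (z - F)) = a := by rw [← ha]; exact aP
  have a2 : c * (z - F) * star a = star a := mul_adj (hc.mul RP (hcc _)) a1
  have hsum : ∑ i ∈ Finset.insertNone s, (fun o : Option M => o.elim (star a) (c * ·)) i *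
      star ((fun o : Option M => o.elim (star a) (c * ·)) i) = c * z := by
    rw [Finset.sum_insertNone]
    simp only [Option.elim_none, Option.elim_some, star_star]
    rw [ha, Finset.sum_congr rfl (g := fun u => c * (u * star u)) fun u _ => by
      rw [star_mul, hc.isSelfAdjoint.star_eq, ← hcc, mul_assoc, ← mul_assoc u, ← hcc, mul_assoc,
        as cc], ← Finset.mul_sum, ← hF, ← mul_add, sub_add_cancel]
  refine ⟨Finset.insertNone s, fun o => o.elim (star a) (c * ·), c * z,
    fun x => by rw [mul_assoc, h.zc, ← mul_assoc, hcc, mul_assoc], hsum, ?_, ?_⟩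
  · rintro (_ | u) hu
    · have za : z * star a = star a := by
        rw [← a2, mul_assoc, ← mul_assoc z, ← hcc, mul_assoc, as zR]
      refine ⟨aP.adj, adj_mul hg hga, za, ?_⟩
      change c * z * star a = star a
      rw [mul_assoc, za, ← a2, mul_assoc, as cc]
    · have hu : u ∈ s := Finset.some_mem_insertNone.1 hu
      have zu := (hS1 u hu).2
      have zcu : z * (c * u) = c * u := by rw [← mul_assoc, ← hcc, mul_assoc, zu]
      refine ⟨pi_of (hc.mul hg (hcc _)) ?_, ?_, zcu, ?_⟩
      · change star (c * u) * (c * u) = c * g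
        rw [star_mul, hc.isSelfAdjoint.star_eq, mul_assoc, as cc, ← mul_assoc, ← hcc, mul_assoc,
          (hS1 u hu).1]
      · change c * u * g = c * u
        rw [mul_assoc, ug u hu]
      · change c * z * (c * u) = c * u
        rw [mul_assoc, zcu, as cc]
  · by_contra hn
    push Not at hn
    rw [Finset.sum_eq_zero fun i hi => by simp only [hn i hi, zero_mul]] at hsum
    exact cg (by rw [← hzg, ← mul_assoc, ← hsum, zero_mul])

variable [StarOrderedRing M]

/-- (TR), abstract form -/
theorem Hyp.approx (h : Hyp z r) {ε : ℝ} (hε : 0 < ε) : ∃ ρ : M →L[ℂ] ℂ,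
    (∀ x, 0 ≤ ρ (star x * x)) ∧ ρ 1 = 1 ∧ ρ z = 1 ∧
      ∀ x, (ρ (star x * x)).re ≤ (1 + ε) * (ρ (x * star x)).re := by
  obtain ⟨g, hg, g0, hzg, hf, hH⟩ := h.corner hε
  obtain ⟨t, w, c, hcc, hsum, hw, i₀, hi₀, hw0⟩ := h.spread hg g0 hzg
  let ρ : M →L[ℂ] ℂ := ∑ i ∈ t, r.comp (ContinuousLinearMap.mulLeftRight ℂ M (star (w i)) (w i))
  have hρ : ∀ x, ρ x = ∑ i ∈ t, r (star (w i) * x * w i) := fun x => by
    simp [ρ]
  have hpos : ∀ x, 0 ≤ x → 0 ≤ ρ x := fun x hx => by
    rw [hρ]
    exact Finset.sum_nonneg fun i _ => h.pos _ (star_left_conjugate_nonneg hx _)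
  have hz1 : ρ z = ρ 1 := by
    rw [hρ, hρ]
    exact Finset.sum_congr rfl fun i hi => by rw [mul_assoc, (hw i hi).2.2.1, mul_one]
  have hN : 0 < (ρ 1).re := by
    rw [hρ, Complex.re_sum]
    refine Finset.sum_pos' (fun i _ => h.nn (star_left_conjugate_nonneg zero_le_one _))
      ⟨i₀, hi₀, ?_⟩
    rw [mul_one]
    exact hf _ (hw _ hi₀).1.init (fun e => hw0 (PI.zero_of_init e))
      (by rw [← mul_assoc, mul_adj hg (hw _ hi₀).2.1])
  have hN' : (((ρ 1).re : ℝ) : ℂ) = ρ 1 := by
    have := (Complex.nonneg_iff.1 (hpos 1 zero_le_one)).2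
    exact Complex.ext rfl (by rw [Complex.ofReal_im, this])
  have exp : ∀ x, (ρ (star x * x)).re = ∑ i ∈ t, ∑ j ∈ t,
      (r (star (star (w j) * x * w i) * (star (w j) * x * w i))).re := fun x => by
    rw [hρ, Complex.re_sum]
    refine Finset.sum_congr rfl fun i hi => ?_
    rw [← Complex.re_sum, ← map_sum]
    congr 2
    calc star (w i) * (star x * x) * w i = star (w i) * star x * c * (x * w i) := by
          rw [mul_assoc _ c, ← mul_assoc c, hcc, mul_assoc x, (hw i hi).2.2.2]
          simp only [mul_assoc]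
      _ = _ := by
          rw [← hsum, Finset.mul_sum, Finset.sum_mul]
          exact Finset.sum_congr rfl fun j _ => by
            simp only [star_mul, star_star, mul_assoc]
  have main : ∀ x, (ρ (star x * x)).re ≤ (1 + ε) * (ρ (x * star x)).re := fun x => by
    have e2 := exp (star x)
    rw [star_star, Finset.sum_comm] at e2
    rw [exp, e2, Finset.mul_sum]
    refine Finset.sum_le_sum fun i hi => ?_
    rw [Finset.mul_sum]
    refine Finset.sum_le_sum fun j hj => ?_
    have := h.layer hg (by linarith) hH (x := star (w j) * x * w i)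
      (by rw [mul_assoc, (hw i hi).2.1]) (by rw [mul_assoc, as (mul_adj hg (hw j hj).2.1)])
    simpa only [star_mul, star_star, mul_assoc] using this
  have hi : 0 ≤ ((ρ 1).re)⁻¹ := inv_nonneg.2 hN.le
  have h1 : (((ρ 1).re)⁻¹ • ρ) 1 = 1 := by
    rw [smul_apply, Complex.real_smul, Complex.ofReal_inv, hN']
    refine inv_mul_cancel₀ fun e => ?_
    rw [e] at hN
    simp at hN
  refine ⟨((ρ 1).re)⁻¹ • ρ, fun x => ?_, h1, ?_, fun x => ?_⟩
  · rw [smul_apply]
    exact smul_nonneg hi (hpos _ (star_mul_self_nonneg x))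
  · rw [← h1, smul_apply, smul_apply, hz1]
  · rw [smul_apply, smul_apply, Complex.smul_re,
      Complex.smul_re, smul_eq_mul, smul_eq_mul, mul_left_comm]
    exact mul_le_mul_of_nonneg_left (main x) hi

end Pool.Agent.Lib.MP_08bba9_an.W.Tr
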