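import Pool.Agent.Lib.MP_08bba9_an.W.TrA
import Pool.Agent.Lib.MP_08bba9_an.W.Dich
import Pool.Agent.Lib.MP_08bba9_an.W.Vn3

/-! The hypotheses of the trace construction hold in an algebra closed under strong limits. -/

noncomputable section

namespace Pool.Agent.Lib.MP_08bba9_an.W

open Filter Topology
open scoped InnerProductSpace ComplexOrder

variable {H : Type*} [NormedAddCommGroup H] [InnerProductSpace ℂ H] [CompleteSpace H]
variable {M : StarSubalgebra ℂ (H →L[ℂ] H)}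

/-- the vector functional on `M` -/
def vecG (M : StarSubalgebra ℂ (H →L[ℂ] H)) (ξ : H) : M →L[ℂ] ℂ :=
  LinearMap.mkContinuous
    { toFun := fun a => ⟪ξ, (a : H →L[ℂ] H) ξ⟫_ℂ
      map_add' := fun a b => by simp
      map_smul' := fun c a => by simp }
    (‖ξ‖ * ‖ξ‖) fun a => (norm_inner_le_norm _ _).trans (by
      rw [mul_assoc, mul_comm ‖ξ‖ ‖a‖]
      exact mul_le_mul_of_nonneg_left ((a : H →L[ℂ] H).le_opNorm ξ) (norm_nonneg _))

theorem vecG_star_mul (ξ : H) (a : M) :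
    vecG M ξ (star a * a) = ((‖(a : H →L[ℂ] H) ξ‖ ^ 2 : ℝ) : ℂ) := by
  change ⟪ξ, star (a : H →L[ℂ] H) ((a : H →L[ℂ] H) ξ)⟫_ℂ = _
  rw [ContinuousLinearMap.star_eq_adjoint, ContinuousLinearMap.adjoint_inner_right,
    inner_self_eq_norm_sq_to_K]
  simp

theorem vecG_mul_star (ξ : H) (a : M) :
    (vecG M ξ (a * star a)).re = ‖star (a : H →L[ℂ] H) ξ‖ ^ 2 := by
  have := vecG_star_mul ξ (star a)
  rw [star_star] at this
  rw [this, Complex.ofReal_re]
  rfl

theorem IsVN.pol_full (hM : IsVN M) (x : M) : ∃ v : M, v * (star v * v) = v ∧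
    star v * v * (star x * x) = star x * x ∧ v * (star x * x) * star v = x * star x ∧
    (∀ y, y * x = 0 → y * v = 0) ∧ ∀ y, x * y = 0 → v * y = 0 := by
  obtain ⟨v, hv, v1, v2, v3, v4⟩ := hM.polar x.2
  have pv : PI v := PI.of_init (v1 ▸ lp_proj _)
  refine ⟨⟨v, hv⟩, Subtype.ext pv.mul_init, Subtype.ext ?_, Subtype.ext ?_,
    fun y hy => Subtype.ext ?_, fun y hy => Subtype.ext ?_⟩
  · change star v * v * (star (x : H →L[ℂ] H) * x) = star (x : H →L[ℂ] H) * x
    rw [v1, ← mul_assoc, lp_mul]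
  · change v * (star (x : H →L[ℂ] H) * x) * star v = x * star (x : H →L[ℂ] H)
    set s := cfc Real.sqrt (star (x : H →L[ℂ] H) * x)
    have s1 : star s = s := (IsSelfAdjoint.cfc).star_eq
    have s2 : star (x : H →L[ℂ] H) * x = s * s := by
      conv_lhs => enter [1]; rw [← v3]
      rw [star_mul, s1, mul_assoc, v4]
    rw [s2]
    conv_rhs => rw [← v3, star_mul, s1]
    simp only [mul_assoc]
  · change (y : H →L[ℂ] H) * v = 0
    rw [← pv.fin_mul, ← mul_assoc, v2, mul_lp_eq_zero (congrArg Subtype.val hy), zero_mul]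
  · change v * (y : H →L[ℂ] H) = 0
    have h1 : star (y : H →L[ℂ] H) * star (x : H →L[ℂ] H) = 0 := by
      rw [← star_mul, show (x : H →L[ℂ] H) * y = 0 from congrArg Subtype.val hy, star_zero]
    have h2 := congrArg star (mul_lp_eq_zero h1)
    rw [star_mul, star_star, star_zero, (lp_proj _).isSelfAdjoint.star_eq, ← v1] at h2
    rw [← pv.mul_init, mul_assoc, h2, mul_zero]

theorem IsVN.chain_coe (hM : IsVN M) (ξ : H) (C : Set M) (hne : C.Nonempty)
    (hp : ∀ v ∈ C, v * (star v * v) = v) (hc : IsChain (fun v w : M => v = w * (star v * v)) C)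
    (ht : ∀ u ∈ C, ∀ v ∈ C, ∀ w : M, u = v * (star u * u) → v = w * (star v * v) →
      u = w * (star u * u)) :
    ∃ w : M, w * (star w * w) = w ∧ (∀ v ∈ C, v = w * (star v * v)) ∧
      (∀ y, (∀ v ∈ C, y * v = 0) → y * w = 0) ∧ (∀ y, (∀ v ∈ C, v * y = 0) → w * y = 0) ∧
      ∀ δ : ℝ, 0 < δ → ∃ v ∈ C, (vecG M ξ (w * star w)).re ≤ (vecG M ξ (v * star v)).re + δ := by
  have : Nonempty C := hne.to_subtype
  obtain ⟨w, hw, pw, e, l, hl, -, s1, s2⟩ := hM.chain (ι := C)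
    (fun v w => (v : M) = (w : M) * (star (v : M) * (v : M)))
    (fun i j => by
      rcases eq_or_ne (i : M) j with h | h
      · exact ⟨j, h ▸ (hp _ j.2).symm, (hp _ j.2).symm⟩
      · rcases hc i.2 j.2 h with h | h
        · exact ⟨j, h, (hp _ j.2).symm⟩
        · exact ⟨i, (hp _ i.2).symm, h⟩)
    (fun i j k a b => ht _ i.2 _ j.2 _ a b) (fun v => ((v : M) : H →L[ℂ] H)) (fun v => v.1.2)
    (fun v => (mul_assoc _ _ _).trans (congrArg Subtype.val (hp _ v.2)))
    (fun i j h => (congrArg Subtype.val h).symm)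
  refine ⟨⟨w, hw⟩, Subtype.ext pw.mul_init, fun v hv => Subtype.ext (e ⟨v, hv⟩).symm,
    fun y hy => Subtype.ext ?_, fun y hy => Subtype.ext ?_, fun δ hδ => ?_⟩
  · exact (s1.const_mul y).unique ((SLim.const 0).congr' (Eventually.of_forall fun i =>
      (congrArg Subtype.val (hy _ i.2)).symm))
  · exact (s1.mul_const y).unique ((SLim.const 0).congr' (Eventually.of_forall fun i =>
      (congrArg Subtype.val (hy _ i.2)).symm))
  · obtain ⟨i, hi⟩ := (((s2 ξ).norm.pow 2).eventually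
      (lt_mem_nhds (show ‖star w ξ‖ ^ 2 - δ < ‖star w ξ‖ ^ 2 by linarith))).exists
    refine ⟨i, i.2, ?_⟩
    rw [vecG_mul_star, vecG_mul_star]
    change ‖star w ξ‖ ^ 2 ≤ _
    linarith

theorem IsVN.trHyp (hM : IsVN M) : letI := hM.cstar
    ∀ (o : PartialOrder M) (_ : @StarOrderedRing M _ o _) (z : M), IsStarProjection z →
      (∀ x, z * x = x * z) → z ≠ 0 → _root_.Lib.MP_08bba9_an.W.Fint z →
      ∃ r : M →L[ℂ] ℂ, @Tr.Hyp M _ o z r := by
  let _ := hM.cstar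
  intro o so z z1 z2 z0 zf
  obtain ⟨ξ, hξ⟩ : ∃ ξ, (z : H →L[ℂ] H) ξ ≠ 0 := by
    by_contra h
    push Not at h
    exact z0 (Subtype.ext (ContinuousLinearMap.ext h))
  have hp : ∀ x : M, 0 ≤ vecG M ξ (star x * x) := fun x => by
    rw [vecG_star_mul]
    exact Complex.zero_le_real.2 (sq_nonneg _)
  refine ⟨vecG M ξ, @Tr.Hyp.mk M _ o _ _ z1 z2 (fun c hc => @Br.pos_of M _ o so _ hp c hc) ?_
    hM.rk_coe hM.pol_full (fun p q h1 h2 => ?_) (fun q v h1 h2 => ?_) fun C h1 h2 h3 => ?_⟩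
  · have := vecG_star_mul ξ z
    rw [z1.isSelfAdjoint.star_eq, z1.isIdempotentElem.eq] at this
    rw [this, Complex.ofReal_re]
    positivity
  · obtain ⟨c, a, b, ⟨v, d⟩, w, e⟩ := hM.hCmp p q h1 h2
    exact ⟨c, v, w, a, b, d.1, d.2, e.1, e.2⟩
  · exact zf.sub (coe_proper M) z1 h1 h2 v
  · exact hM.chain_coe ξ C h1 h2 h3 fun u hu v hv w a b =>
      Tr.Ext.trans' (h2 u hu) (h2 v hv) a b

end Pool.Agent.Lib.MP_08bba9_an.W
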