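import Mathlib

/-! Algebras of operators closed under bounded strong star limits: limits and supports. -/

set_option linter.unusedSectionVars false

noncomputable section

namespace Pool.Agent.Lib.MP_08bba9_an.W

open Filter Topology
open scoped InnerProductSpace

variable {H : Type*} [NormedAddCommGroup H] [InnerProductSpace ℂ H] [CompleteSpace H]

/-- `M` is closed under strong star limits of bounded families. -/
def IsVN (M : StarSubalgebra ℂ (H →L[ℂ] H)) : Prop :=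
  ∀ (T : H →L[ℂ] H) (C : ℝ), (∀ (s : Finset H) (ε : ℝ), 0 < ε → ∃ a ∈ M, ‖a‖ ≤ C ∧
    ∀ ξ ∈ s, ‖a ξ - T ξ‖ ≤ ε ∧ ‖(star a) ξ - (star T) ξ‖ ≤ ε) → T ∈ M

/-- strong convergence along a filter -/
def SLim {ι : Type*} (l : Filter ι) (a : ι → H →L[ℂ] H) (T : H →L[ℂ] H) : Prop :=
  ∀ ξ, Tendsto (fun i => a i ξ) l (𝓝 (T ξ))

variable {M : StarSubalgebra ℂ (H →L[ℂ] H)} {ι : Type*} {l : Filter ι}

theorem IsVN.mem_of_slim (hM : IsVN M) [l.NeBot] {a : ι → H →L[ℂ] H} {T : H →L[ℂ] H} {C : ℝ}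
    (ha : ∀ i, a i ∈ M) (hC : ∀ i, ‖a i‖ ≤ C) (h1 : SLim l a T)
    (h2 : SLim l (fun i => star (a i)) (star T)) : T ∈ M := by
  refine hM T C fun s ε hε => ?_
  have h : ∀ᶠ i in l, ∀ ξ ∈ s, ‖a i ξ - T ξ‖ ≤ ε ∧ ‖(star (a i)) ξ - (star T) ξ‖ ≤ ε := by
    rw [Filter.eventually_all_finset]
    intro ξ _
    have e1 := (Metric.tendsto_nhds.1 (h1 ξ)) ε hε
    have e2 := (Metric.tendsto_nhds.1 (h2 ξ)) ε hε
    filter_upwards [e1, e2] with i x y
    rw [dist_eq_norm] at x y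
    exact ⟨x.le, y.le⟩
  obtain ⟨i, hi⟩ := h.exists
  exact ⟨a i, ha i, hC i, hi⟩

theorem IsVN.isClosed (hM : IsVN M) : IsClosed (M : Set (H →L[ℂ] H)) := by
  refine isClosed_of_closure_subset fun T hT => ?_
  refine hM T (‖T‖ + 1) fun s ε hε => ?_
  set K : ℝ := ∑ ξ ∈ s, ‖ξ‖ + 1 with hK
  have hs : 0 ≤ ∑ ξ ∈ s, ‖ξ‖ := Finset.sum_nonneg fun _ _ => norm_nonneg _
  have hK0 : 0 < K := by rw [hK]; linarith
  obtain ⟨a, ha, hd⟩ := Metric.mem_closure_iff.1 hT (min 1 (ε / K)) (lt_min one_pos (by positivity))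
  rw [dist_comm, dist_eq_norm] at hd
  have hd1 : ‖a - T‖ ≤ 1 := (hd.trans_le (min_le_left _ _)).le
  have hd2 : ‖a - T‖ ≤ ε / K := (hd.trans_le (min_le_right _ _)).le
  refine ⟨a, ha, ?_, fun ξ hξ => ?_⟩
  · have := norm_add_le T (a - T)
    rw [add_sub_cancel] at this
    linarith
  · have hξK : ‖ξ‖ ≤ K := by
      have := Finset.single_le_sum (f := fun ξ : H => ‖ξ‖) (fun _ _ => norm_nonneg _) hξ
      rw [hK]; linarith
    have key : ∀ b : H →L[ℂ] H, ‖b‖ ≤ ε / K → ‖b ξ‖ ≤ ε := fun b hb => by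
      calc ‖b ξ‖ ≤ ‖b‖ * ‖ξ‖ := b.le_opNorm ξ
        _ ≤ ε / K * K := by gcongr
        _ = ε := by field_simp
    constructor
    · simpa using key (a - T) hd2
    · have := key (star (a - T)) (by rwa [norm_star])
      simpa [star_sub] using this

theorem IsVN.cfc_mem (hM : IsVN M) (f : ℝ → ℝ) {a : H →L[ℂ] H} (ha : a ∈ M) : cfc f a ∈ M :=
  haveI := hM.isClosed
  _root_.cfc_mem (𝕜' := ℂ) f ha

theorem SLim.const (T : H →L[ℂ] H) : SLim l (fun _ => T) T := fun _ => tendsto_const_nhds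

theorem SLim.unique [l.NeBot] {a : ι → H →L[ℂ] H} {S T : H →L[ℂ] H} (h1 : SLim l a S)
    (h2 : SLim l a T) : S = T :=
  ContinuousLinearMap.ext fun ξ => tendsto_nhds_unique (h1 ξ) (h2 ξ)

theorem SLim.congr' {a b : ι → H →L[ℂ] H} {T : H →L[ℂ] H} (h1 : SLim l a T)
    (h : ∀ᶠ i in l, a i = b i) : SLim l b T := fun ξ =>
  (h1 ξ).congr' (by filter_upwards [h] with i hi using by rw [hi])

theorem SLim.mul {a b : ι → H →L[ℂ] H} {S T : H →L[ℂ] H} {C : ℝ} (hC : ∀ i, ‖a i‖ ≤ C)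
    (h1 : SLim l a S) (h2 : SLim l b T) : SLim l (fun i => a i * b i) (S * T) := by
  intro ξ
  have e1 : Tendsto (fun i => a i (b i ξ - T ξ)) l (𝓝 0) := by
    refine squeeze_zero_norm (a := fun i => C * ‖b i ξ - T ξ‖) (fun i => ?_) ?_
    · exact ((a i).le_opNorm _).trans (mul_le_mul_of_nonneg_right (hC i) (norm_nonneg _))
    · have := (tendsto_iff_norm_sub_tendsto_zero.1 (h2 ξ)).const_mul C
      simpa using this
  have := e1.add (h1 (T ξ))
  simpa using this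

theorem SLim.mul_const {a : ι → H →L[ℂ] H} {S : H →L[ℂ] H} (h1 : SLim l a S) (T : H →L[ℂ] H) :
    SLim l (fun i => a i * T) (S * T) := fun ξ => h1 (T ξ)

theorem SLim.const_mul {a : ι → H →L[ℂ] H} {S : H →L[ℂ] H} (h1 : SLim l a S) (T : H →L[ℂ] H) :
    SLim l (fun i => T * a i) (T * S) := fun ξ => (T.continuous.tendsto _).comp (h1 ξ)

theorem SLim.norm_le [l.NeBot] {a : ι → H →L[ℂ] H} {S : H →L[ℂ] H} {C : ℝ} (hC : ∀ i, ‖a i‖ ≤ C)
    (h1 : SLim l a S) : ‖S‖ ≤ C := by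
  obtain ⟨i⟩ := l.nonempty_of_neBot
  refine S.opNorm_le_bound ((norm_nonneg _).trans (hC i)) fun ξ => ?_
  refine le_of_tendsto (h1 ξ).norm (Eventually.of_forall fun j => ?_)
  exact ((a j).le_opNorm _).trans (mul_le_mul_of_nonneg_right (hC j) (norm_nonneg _))

/-- the strong limit of the adjoints is the adjoint of the strong limit -/
theorem SLim.star_eq [l.NeBot] {a : ι → H →L[ℂ] H} {S T : H →L[ℂ] H} (h1 : SLim l a S)
    (h2 : SLim l (fun i => star (a i)) T) : T = star S := by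
  refine ContinuousLinearMap.ext fun ξ => ext_inner_right ℂ fun η => ?_
  have e1 : Tendsto (fun i => ⟪star (a i) ξ, η⟫_ℂ) l (𝓝 ⟪T ξ, η⟫_ℂ) :=
    (h2 ξ).inner tendsto_const_nhds
  have e2 : Tendsto (fun i => ⟪ξ, a i η⟫_ℂ) l (𝓝 ⟪ξ, S η⟫_ℂ) :=
    tendsto_const_nhds.inner (h1 η)
  simp only [ContinuousLinearMap.star_eq_adjoint, ContinuousLinearMap.adjoint_inner_left] at e1 ⊢
  exact tendsto_nhds_unique e1 e2

/-- a bounded family that converges on a subspace and on its orthogonal complement converges -/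
theorem exists_slim [l.NeBot] {a : ι → H →L[ℂ] H} {C : ℝ} (hC : ∀ i, ‖a i‖ ≤ C)
    (K : Submodule ℂ H) (h1 : ∀ ξ ∈ K, ∃ η, Tendsto (fun i => a i ξ) l (𝓝 η))
    (h2 : ∀ ξ ∈ Kᗮ, ∃ η, Tendsto (fun i => a i ξ) l (𝓝 η)) : ∃ T, SLim l a T := by
  obtain ⟨i₀⟩ := l.nonempty_of_neBot
  have hC0 : 0 ≤ C := (norm_nonneg _).trans (hC i₀)
  have hd : (K ⊔ Kᗮ).topologicalClosure = ⊤ := by
    rw [Submodule.topologicalClosure_eq_top_iff, ← Submodule.inf_orthogonal]
    exact Submodule.inf_orthogonal_eq_bot _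
  have hD : ∀ ξ ∈ K ⊔ Kᗮ, ∃ η, Tendsto (fun i => a i ξ) l (𝓝 η) := by
    intro ξ hξ
    obtain ⟨x, hx, y, hy, rfl⟩ := Submodule.mem_sup.1 hξ
    obtain ⟨η, hη⟩ := h1 x hx
    obtain ⟨ζ, hζ⟩ := h2 y hy
    exact ⟨η + ζ, by simpa using hη.add hζ⟩
  have hall : ∀ ξ, ∃ η, Tendsto (fun i => a i ξ) l (𝓝 η) := by
    intro ξ
    refine CompleteSpace.complete (f := map (fun i => a i ξ) l) ?_
    rw [Metric.cauchy_iff]
    refine ⟨inferInstance, fun ε hε => ?_⟩
    have hξ : ξ ∈ closure ((K ⊔ Kᗮ : Submodule ℂ H) : Set H) := by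
      rw [← Submodule.topologicalClosure_coe, hd]; trivial
    obtain ⟨ζ, hζ, hdist⟩ := Metric.mem_closure_iff.1 hξ (ε / (4 * (C + 1))) (by positivity)
    obtain ⟨η, hη⟩ := hD ζ hζ
    refine ⟨Metric.ball η (ε / 2), ?_, fun x hx y hy => ?_⟩
    · have e := (Metric.tendsto_nhds.1 hη) (ε / 4) (by positivity)
      rw [mem_map]
      filter_upwards [e] with i hi
      have e1 : dist (a i ξ) (a i ζ) ≤ ε / 4 := by
        rw [dist_eq_norm, ← map_sub]
        rw [dist_eq_norm] at hdist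
        calc ‖a i (ξ - ζ)‖ ≤ ‖a i‖ * ‖ξ - ζ‖ := (a i).le_opNorm _
          _ ≤ (C + 1) * (ε / (4 * (C + 1))) := by
              gcongr
              linarith [hC i]
          _ = ε / 4 := by field_simp
      have := dist_triangle (a i ξ) (a i ζ) η
      simp only [Set.mem_preimage, Metric.mem_ball]
      linarith
    · have := dist_triangle_right x y η
      rw [Metric.mem_ball] at hx hy
      linarith
  choose f hf using hall
  have hb : Bornology.IsBounded (Set.range a) :=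
    (Metric.isBounded_closedBall (x := (0 : H →L[ℂ] H)) (r := C)).subset (by
      rintro _ ⟨i, rfl⟩
      simpa using hC i)
  exact ⟨ContinuousLinearMap.ofTendstoOfBoundedRange f a (tendsto_pi_nhds.2 hf) hb, hf⟩

/-- two operators that agree on a subspace and on its orthogonal complement are equal -/
theorem ext_of_sub (K : Submodule ℂ H) {S T : H →L[ℂ] H} (h1 : ∀ ξ ∈ K, S ξ = T ξ)
    (h2 : ∀ ξ ∈ Kᗮ, S ξ = T ξ) : S = T := by
  have hd : (K ⊔ Kᗮ).topologicalClosure = ⊤ := by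
    rw [Submodule.topologicalClosure_eq_top_iff, ← Submodule.inf_orthogonal]
    exact Submodule.inf_orthogonal_eq_bot _
  have hden : Dense ((K ⊔ Kᗮ : Submodule ℂ H) : Set H) :=
    Submodule.dense_iff_topologicalClosure_eq_top.2 hd
  refine ContinuousLinearMap.coeFn_injective (Continuous.ext_on hden S.continuous T.continuous ?_)
  intro ξ hξ
  obtain ⟨x, hx, y, hy, rfl⟩ := Submodule.mem_sup.1 hξ
  simp [h1 x hx, h2 y hy]

/-- the projection onto the closure of a subspace -/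
def pr (K : Submodule ℂ H) : H →L[ℂ] H := Kᗮᗮ.starProjection

theorem pr_proj (K : Submodule ℂ H) : IsStarProjection (pr K) := isStarProjection_starProjection

theorem pr_of_mem {K : Submodule ℂ H} {ξ : H} (h : ξ ∈ K) : pr K ξ = ξ :=
  Submodule.starProjection_eq_self_iff.2 (K.le_orthogonal_orthogonal h)

theorem pr_of_orth {K : Submodule ℂ H} {ξ : H} (h : ξ ∈ Kᗮ) : pr K ξ = 0 :=
  (Submodule.starProjection_apply_eq_zero_iff _).2 (Kᗮ.le_orthogonal_orthogonal h)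

theorem eq_pr {K : Submodule ℂ H} {T : H →L[ℂ] H} (h1 : ∀ ξ ∈ K, T ξ = ξ)
    (h2 : ∀ ξ ∈ Kᗮ, T ξ = 0) : T = pr K :=
  ext_of_sub K (fun ξ h => by rw [h1 ξ h, pr_of_mem h]) fun ξ h => by rw [h2 ξ h, pr_of_orth h]

theorem mul_pr_eq_zero {K : Submodule ℂ H} {y : H →L[ℂ] H} (h : ∀ ξ ∈ K, y ξ = 0) :
    y * pr K = 0 :=
  ext_of_sub K (fun ξ hξ => by simp [pr_of_mem hξ, h ξ hξ]) fun ξ hξ => by simp [pr_of_orth hξ]

/-- the left support (range projection) of an operator -/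
def lp (x : H →L[ℂ] H) : H →L[ℂ] H := pr (LinearMap.range (x : H →ₗ[ℂ] H))

theorem lp_proj (x : H →L[ℂ] H) : IsStarProjection (lp x) := pr_proj _

theorem lp_mul (x : H →L[ℂ] H) : lp x * x = x :=
  ContinuousLinearMap.ext fun ξ => pr_of_mem ⟨ξ, rfl⟩

theorem mul_lp_eq_zero {x y : H →L[ℂ] H} (h : y * x = 0) : y * lp x = 0 :=
  mul_pr_eq_zero (by
    rintro _ ⟨ξ, rfl⟩
    exact DFunLike.congr_fun h ξ)

theorem mul_lp_eq {x y z : H →L[ℂ] H} (h : y * x = z * x) : y * lp x = z * lp x := by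
  have := mul_lp_eq_zero (x := x) (y := y - z) (by rw [sub_mul, h, sub_self])
  rwa [sub_mul, sub_eq_zero] at this

theorem mul_lp_of_mul {x p : H →L[ℂ] H} (h : p * x = x) : p * lp x = lp x := by
  simpa using mul_lp_eq (x := x) (y := p) (z := 1) (by simpa using h)

theorem lp_eq_zero {x : H →L[ℂ] H} (h : lp x = 0) : x = 0 := by
  rw [← lp_mul x, h, zero_mul]

theorem mem_range_orth {x : H →L[ℂ] H} {ξ : H} :
    ξ ∈ (LinearMap.range (x : H →ₗ[ℂ] H))ᗮ ↔ star x ξ = 0 := by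
  rw [Submodule.mem_orthogonal]
  constructor
  · intro h
    refine ext_inner_left ℂ fun η => ?_
    rw [ContinuousLinearMap.star_eq_adjoint, ContinuousLinearMap.adjoint_inner_right,
      inner_zero_right]
    exact h _ ⟨η, rfl⟩
  · rintro h _ ⟨η, rfl⟩
    rw [ContinuousLinearMap.star_eq_adjoint] at h
    change ⟪x η, ξ⟫_ℂ = 0
    rw [← ContinuousLinearMap.adjoint_inner_right, h, inner_zero_right]

theorem proj_norm_le {p : H →L[ℂ] H} (hp : IsStarProjection p) : ‖p‖ ≤ 1 := by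
  have h := CStarRing.norm_star_mul_self (x := p)
  rw [hp.isSelfAdjoint.star_eq, hp.isIdempotentElem.eq] at h
  nlinarith [norm_nonneg p]

/-- partial isometry -/
def PI (v : H →L[ℂ] H) : Prop := v * star v * v = v

/-- `p` is equivalent in `M` to a projection below `q` -/
def Sub (M : StarSubalgebra ℂ (H →L[ℂ] H)) (p q : H →L[ℂ] H) : Prop :=
  ∃ v ∈ M, star v * v = p ∧ q * v = v

/-- `p` and `q` are equivalent in `M` -/
def Eqv (M : StarSubalgebra ℂ (H →L[ℂ] H)) (p q : H →L[ℂ] H) : Prop :=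
  ∃ v ∈ M, star v * v = p ∧ v * star v = q

/-- projection of `M` -/
def Pj (M : StarSubalgebra ℂ (H →L[ℂ] H)) (p : H →L[ℂ] H) : Prop := p ∈ M ∧ IsStarProjection p

/-- central projection of `M` -/
def Cen (M : StarSubalgebra ℂ (H →L[ℂ] H)) (z : H →L[ℂ] H) : Prop :=
  Pj M z ∧ ∀ a ∈ M, a * z = z * a

/-- finite projection of `M` -/
def FinP (M : StarSubalgebra ℂ (H →L[ℂ] H)) (q : H →L[ℂ] H) : Prop :=
  ∀ v ∈ M, star v * v = q → q * v = v → v * star v = q

theorem PI.star {v : H →L[ℂ] H} (h : PI v) : PI (star v) := by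
  have := congrArg Star.star h
  simpa [PI, mul_assoc] using this

theorem PI.mul_init {v : H →L[ℂ] H} (h : PI v) : v * (Star.star v * v) = v := by
  rw [← mul_assoc]; exact h

theorem PI.fin_mul {v : H →L[ℂ] H} (h : PI v) : v * Star.star v * v = v := h

theorem PI.init {v : H →L[ℂ] H} (h : PI v) : IsStarProjection (Star.star v * v) :=
  ⟨by rw [IsIdempotentElem, mul_assoc, h.mul_init], by simp [IsSelfAdjoint]⟩

theorem PI.fin {v : H →L[ℂ] H} (h : PI v) : IsStarProjection (v * Star.star v) := by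
  simpa using h.star.init

theorem PI.of_init {v : H →L[ℂ] H} (h : IsStarProjection (Star.star v * v)) : PI v := by
  have h1 := h.isIdempotentElem.eq
  have h2 : Star.star (v - v * Star.star v * v) * (v - v * Star.star v * v) = 0 := by
    have e : Star.star (v - v * Star.star v * v) * (v - v * Star.star v * v) =
        Star.star v * v - (Star.star v * v) * (Star.star v * v) -
        (Star.star v * v) * (Star.star v * v) +
        (Star.star v * v) * (Star.star v * v) * (Star.star v * v) := by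
      simp only [star_sub, star_mul, star_star]; noncomm_ring
    rw [e, h1, h1]; abel
  have := (CStarRing.star_mul_self_eq_zero_iff _).1 h2
  exact (sub_eq_zero.1 this).symm

theorem PI.of_fin {v : H →L[ℂ] H} (h : IsStarProjection (v * Star.star v)) : PI v := by
  have := (PI.of_init (v := Star.star v) (by simpa using h)).star
  simpa using this

theorem PI.norm_le {v : H →L[ℂ] H} (h : PI v) : ‖v‖ ≤ 1 := by
  have h1 := CStarRing.norm_star_mul_self (x := v)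
  have h2 := proj_norm_le h.init
  nlinarith [norm_nonneg v]

theorem PI.of_proj {p : H →L[ℂ] H} (h : IsStarProjection p) : PI p := by
  rw [PI, h.isSelfAdjoint.star_eq, h.isIdempotentElem.eq, h.isIdempotentElem.eq]

theorem Pj.star_eq {p : H →L[ℂ] H} (h : Pj M p) : star p = p := h.2.isSelfAdjoint.star_eq

theorem Pj.idem {p : H →L[ℂ] H} (h : Pj M p) : p * p = p := h.2.isIdempotentElem.eq

theorem Pj.zero : Pj M 0 := ⟨zero_mem _, IsStarProjection.zero _⟩

theorem Pj.one : Pj M 1 := ⟨one_mem _, IsStarProjection.one _⟩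

theorem Pj.one_sub {p : H →L[ℂ] H} (h : Pj M p) : Pj M (1 - p) :=
  ⟨sub_mem (one_mem _) h.1, h.2.one_sub⟩

theorem Pj.flip {p q : H →L[ℂ] H} (hp : Pj M p) (hq : Pj M q) (h : q * p = p) : p * q = p := by
  have := congrArg star h
  rwa [star_mul, hp.star_eq, hq.star_eq] at this

theorem Pj.flip_zero {p q : H →L[ℂ] H} (hp : Pj M p) (hq : Pj M q) (h : q * p = 0) :
    p * q = 0 := by
  have := congrArg star h
  rwa [star_mul, hp.star_eq, hq.star_eq, star_zero] at this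

theorem Pj.sub {p q : H →L[ℂ] H} (hp : Pj M p) (hq : Pj M q) (h : q * p = p) : Pj M (q - p) :=
  ⟨sub_mem hq.1 hp.1, hp.2.sub_of_mul_eq_right hq.2 h⟩

theorem Pj.add {p q : H →L[ℂ] H} (hp : Pj M p) (hq : Pj M q) (h : p * q = 0) : Pj M (p + q) :=
  ⟨add_mem hp.1 hq.1, hp.2.add hq.2 h⟩

theorem PI.pj_init {v : H →L[ℂ] H} (h : PI v) (hv : v ∈ M) : Pj M (Star.star v * v) :=
  ⟨mul_mem (star_mem hv) hv, h.init⟩

theorem PI.pj_fin {v : H →L[ℂ] H} (h : PI v) (hv : v ∈ M) : Pj M (v * Star.star v) :=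
  ⟨mul_mem hv (star_mem hv), h.fin⟩

theorem Cen.mul_pj {z p : H →L[ℂ] H} (hz : Cen M z) (hp : Pj M p) : Pj M (z * p) :=
  ⟨mul_mem hz.1.1 hp.1, hz.1.2.mul hp.2 (hz.2 p hp.1).symm⟩

theorem Cen.one_sub {z : H →L[ℂ] H} (hz : Cen M z) : Cen M (1 - z) :=
  ⟨hz.1.one_sub, fun a ha => by rw [mul_sub, sub_mul, hz.2 a ha, mul_one, one_mul]⟩

theorem Cen.mul {z w : H →L[ℂ] H} (hz : Cen M z) (hw : Cen M w) : Cen M (z * w) :=
  ⟨hz.mul_pj hw.1, fun a ha => by rw [← mul_assoc, hz.2 a ha, mul_assoc, hw.2 a ha, mul_assoc]⟩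

theorem Cen.one : Cen M 1 := ⟨Pj.one, fun a _ => by rw [mul_one, one_mul]⟩

theorem Cen.zero : Cen M 0 := ⟨Pj.zero, fun a _ => by rw [mul_zero, zero_mul]⟩

theorem Eqv.refl {p : H →L[ℂ] H} (hp : Pj M p) : Eqv M p p :=
  ⟨p, hp.1, by rw [hp.star_eq, hp.idem], by rw [hp.star_eq, hp.idem]⟩

theorem Eqv.symm {p q : H →L[ℂ] H} (h : Eqv M p q) : Eqv M q p := by
  obtain ⟨v, hv, h1, h2⟩ := h
  exact ⟨star v, star_mem hv, by simpa using h2, by simpa using h1⟩

theorem Eqv.pj {p q : H →L[ℂ] H} (h : Eqv M p q) (hp : Pj M p) : Pj M q := by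
  obtain ⟨v, hv, h1, h2⟩ := h
  exact h2 ▸ (PI.of_init (h1 ▸ hp.2)).pj_fin hv

theorem Eqv.sub {p q : H →L[ℂ] H} (h : Eqv M p q) (hp : Pj M p) : Sub M p q := by
  obtain ⟨v, hv, h1, h2⟩ := h
  exact ⟨v, hv, h1, h2 ▸ (PI.of_init (h1 ▸ hp.2)).fin_mul⟩

theorem Eqv.trans {p q r : H →L[ℂ] H} (h : Eqv M p q) (h' : Eqv M q r) (hp : Pj M p) :
    Eqv M p r := by
  have hq := h.pj hp
  obtain ⟨v, hv, h1, h2⟩ := h
  obtain ⟨w, hw, h3, h4⟩ := h'
  have pv : PI v := PI.of_init (h1 ▸ hp.2)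
  have pw : PI w := PI.of_init (h3 ▸ hq.2)
  refine ⟨w * v, mul_mem hw hv, ?_, ?_⟩
  · rw [star_mul, mul_assoc, ← mul_assoc (star w), h3, ← h2, pv.fin_mul, h1]
  · rw [star_mul, mul_assoc, ← mul_assoc v, h2, ← h3, ← mul_assoc, pw.mul_init, h4]

theorem Sub.trans {p q r : H →L[ℂ] H} (h : Sub M p q) (h' : Sub M q r) : Sub M p r := by
  obtain ⟨v, hv, h1, h2⟩ := h
  obtain ⟨w, hw, h3, h4⟩ := h'
  refine ⟨w * v, mul_mem hw hv, ?_, by rw [← mul_assoc, h4]⟩
  rw [star_mul, mul_assoc, ← mul_assoc (star w), h3, h2, h1]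

theorem Sub.of_le {p q : H →L[ℂ] H} (hp : Pj M p) (h : q * p = p) : Sub M p q :=
  ⟨p, hp.1, by rw [hp.star_eq, hp.idem], h⟩

/-- a subequivalence gives an equivalent projection below the target -/
theorem Sub.exists_eqv {p q : H →L[ℂ] H} (h : Sub M p q) :
    ∃ q', Eqv M p q' ∧ q * q' = q' := by
  obtain ⟨v, hv, h1, h2⟩ := h
  exact ⟨v * star v, ⟨v, hv, h1, rfl⟩, by rw [← mul_assoc, h2]⟩

theorem Sub.cen_mul {z p q : H →L[ℂ] H} (h : Sub M p q) (hz : Cen M z) (hq : q ∈ M) :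
    Sub M (z * p) (z * q) := by
  obtain ⟨v, hv, h1, h2⟩ := h
  refine ⟨z * v, mul_mem hz.1.1 hv, ?_, ?_⟩
  · rw [star_mul, hz.1.star_eq, mul_assoc, ← mul_assoc z, hz.1.idem, ← mul_assoc,
      hz.2 _ (star_mem hv), mul_assoc, h1]
  · rw [mul_assoc, ← mul_assoc q, hz.2 q hq, mul_assoc, h2, ← mul_assoc, hz.1.idem]

theorem Eqv.cen_mul {z p q : H →L[ℂ] H} (h : Eqv M p q) (hz : Cen M z) :
    Eqv M (z * p) (z * q) := by
  obtain ⟨v, hv, h1, h2⟩ := h
  refine ⟨z * v, mul_mem hz.1.1 hv, ?_, ?_⟩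
  · rw [star_mul, hz.1.star_eq, mul_assoc, ← mul_assoc z, hz.1.idem, ← mul_assoc,
      hz.2 _ (star_mem hv), mul_assoc, h1]
  · rw [star_mul, hz.1.star_eq, mul_assoc, ← mul_assoc v, h2, ← h2,
      hz.2 _ (mul_mem hv (star_mem hv)), ← mul_assoc, hz.1.idem]

/-- a projection below a finite projection is finite -/
theorem FinP.mono {z q : H →L[ℂ] H} (h : FinP M z) (hz : Pj M z) (hq : Pj M q) (hle : z * q = q) :
    FinP M q := by
  intro v hv h1 h2
  have pv : PI v := PI.of_init (h1 ▸ hq.2)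
  have e1 : v * q = v := h1 ▸ pv.mul_init
  have hle' := hq.flip hz hle
  have hr := hq.sub hz hle
  have a1 : (z - q) * v = 0 := by
    rw [← h2, ← mul_assoc, sub_mul, hle, hq.idem, sub_self, zero_mul]
  have a2 : v * (z - q) = 0 := by
    rw [← e1, mul_assoc, mul_sub, hle', hq.idem, sub_self, mul_zero]
  have a3 : star v * (z - q) = 0 := by
    have := congrArg star a1
    rwa [star_mul, hr.star_eq, star_zero] at this
  have a4 : (z - q) * star v = 0 := by
    have := congrArg star a2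
    rwa [star_mul, hr.star_eq, star_zero] at this
  have := h (v + (z - q)) (add_mem hv hr.1) (by
    rw [star_add, hr.star_eq, add_mul, mul_add, mul_add, h1, a3, a1, hr.idem]; abel) (by
    rw [mul_add, mul_sub, hz.idem, hle, ← h2, ← mul_assoc, hle])
  rw [star_add, hr.star_eq, add_mul, mul_add, mul_add, a2, a4, hr.idem] at this
  rw [add_zero, zero_add] at this
  rw [eq_sub_of_add_eq this]; abel

end Pool.Agent.Lib.MP_08bba9_an.W
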