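import Pool.Agent.Lib.MP_08bba9_an.W.Vn1

/-! Projection layer: polar form, supports. -/

set_option linter.unusedSectionVars false

noncomputable section

namespace Pool.Agent.Lib.MP_08bba9_an.W

open Filter Topology
open scoped InnerProductSpace ComplexOrder

universe u
variable {H : Type u} [NormedAddCommGroup H] [InnerProductSpace ℂ H] [CompleteSpace H]
variable {M : StarSubalgebra ℂ (H →L[ℂ] H)}

namespace Pol

/-- regularised inverse square root -/
def g (δ t : ℝ) : ℝ := (√(|t| + δ))⁻¹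

theorem g_cont {δ : ℝ} (hδ : 0 < δ) : Continuous (g δ) := by
  unfold g
  refine Continuous.inv₀ (by fun_prop) fun t => ?_
  exact (Real.sqrt_pos.2 (by positivity)).ne'

theorem spec_nonneg (x : H →L[ℂ] H) {t : ℝ} (ht : t ∈ spectrum ℝ (star x * x)) : 0 ≤ t :=
  spectrum_nonneg_of_nonneg (star_mul_self_nonneg x) ht

theorem est {δ t : ℝ} (hδ : 0 < δ) (ht : 0 ≤ t) :
    0 ≤ g δ t * t ∧ g δ t * t ≤ √t ∧ √t - g δ t * t ≤ √δ ∧ g δ t * √t ≤ 1 ∧ 0 ≤ g δ t := by
  unfold g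
  rw [abs_of_nonneg ht]
  set s := √(t + δ) with hs
  have s0 : 0 < s := Real.sqrt_pos.2 (by positivity)
  have s2 : s * s = t + δ := Real.mul_self_sqrt (by positivity)
  have r0 : 0 ≤ √t := Real.sqrt_nonneg t
  have r2 : √t * √t = t := Real.mul_self_sqrt ht
  have d0 : 0 ≤ √δ := Real.sqrt_nonneg δ
  have d2 : √δ * √δ = δ := Real.mul_self_sqrt hδ.le
  have h1 : √t ≤ s := Real.sqrt_le_sqrt (by linarith)
  have h2 : s ≤ √t + √δ := by
    refine abs_le_of_sq_le_sq' (by nlinarith [mul_nonneg r0 d0]) (by positivity) |>.2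
  refine ⟨by positivity, ?_, ?_, ?_, by positivity⟩
  · rw [inv_mul_le_iff₀ s0]; nlinarith
  · have : √t - √δ ≤ s⁻¹ * t := by
      rw [le_inv_mul_iff₀ s0]; nlinarith
    linarith
  · rw [inv_mul_le_iff₀ s0]; linarith

theorem norm_sq_le {a : H →L[ℂ] H} {c : ℝ} (hc : 0 ≤ c) (h : ‖star a * a‖ ≤ c * c) : ‖a‖ ≤ c := by
  rw [CStarRing.norm_star_mul_self] at h
  exact abs_le_of_sq_le_sq' (by nlinarith) hc |>.2

theorem sa (x : H →L[ℂ] H) : IsSelfAdjoint (star x * x) := IsSelfAdjoint.star_mul_self x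

theorem conj_eq (x : H →L[ℂ] H) (f : ℝ → ℝ) (hf : Continuous f) :
    star (x * cfc f (star x * x)) * (x * cfc f (star x * x)) =
      cfc (fun t => f t * t * f t) (star x * x) := by
  have h1 : star (cfc f (star x * x)) = cfc f (star x * x) := (IsSelfAdjoint.cfc).star_eq
  rw [star_mul, h1, cfc_mul _ _ _ (by fun_prop) (by fun_prop), cfc_mul _ _ _ (by fun_prop)
    (by fun_prop), cfc_id' ℝ _ (sa x)]
  noncomm_ring

theorem norm_v (x : H →L[ℂ] H) {δ : ℝ} (hδ : 0 < δ) : ‖x * cfc (g δ) (star x * x)‖ ≤ 1 := by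
  refine norm_sq_le zero_le_one ?_
  rw [conj_eq x _ (g_cont hδ)]
  refine norm_cfc_le (by norm_num) fun t ht => ?_
  have h0 := spec_nonneg x ht
  obtain ⟨a, b, -, d, e⟩ := est hδ h0
  rw [Real.norm_eq_abs, abs_of_nonneg (by positivity)]
  nlinarith

theorem norm_d1 (x : H →L[ℂ] H) {δ : ℝ} (hδ : 0 < δ) :
    ‖cfc (g δ) (star x * x) * (star x * x) - cfc Real.sqrt (star x * x)‖ ≤ √δ := by
  have hg := g_cont hδ
  have e : cfc (g δ) (star x * x) * (star x * x) - cfc Real.sqrt (star x * x) =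
      cfc (fun t => g δ t * t - √t) (star x * x) := by
    rw [cfc_sub _ _ _ (by fun_prop) (by fun_prop), cfc_mul _ _ _ (by fun_prop) (by fun_prop),
      cfc_id' ℝ _ (sa x)]
  rw [e]
  refine norm_cfc_le (Real.sqrt_nonneg _) fun t ht => ?_
  obtain ⟨a, b, c, -, -⟩ := est hδ (spec_nonneg x ht)
  rw [Real.norm_eq_abs, abs_le]
  constructor <;> linarith [Real.sqrt_nonneg δ]

theorem norm_d2 (x : H →L[ℂ] H) {δ : ℝ} (hδ : 0 < δ) :
    ‖x * cfc (g δ) (star x * x) * cfc Real.sqrt (star x * x) - x‖ ≤ √δ := by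
  have hg := g_cont hδ
  have e : x * cfc (g δ) (star x * x) * cfc Real.sqrt (star x * x) - x =
      x * cfc (fun t => g δ t * √t - 1) (star x * x) := by
    rw [cfc_sub _ _ _ (by fun_prop) (by fun_prop), cfc_mul _ _ _ (by fun_prop) (by fun_prop),
      cfc_const_one ℝ _ (sa x)]
    noncomm_ring
  rw [e]
  refine norm_sq_le (Real.sqrt_nonneg _) ?_
  rw [conj_eq x _ (by fun_prop)]
  refine norm_cfc_le (by positivity) fun t ht => ?_
  have h0 := spec_nonneg x ht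
  obtain ⟨a, b, c, -, -⟩ := est hδ h0
  have r2 : √t * √t = t := Real.mul_self_sqrt h0
  have e2 : (g δ t * √t - 1) * t * (g δ t * √t - 1) = (√t - g δ t * t) * (√t - g δ t * t) := by
    generalize g δ t = c at *
    generalize √t = s at *
    subst r2
    ring
  rw [e2, Real.norm_eq_abs, abs_of_nonneg (mul_self_nonneg _)]
  exact mul_self_le_mul_self (by linarith) c

theorem abs_sq (x : H →L[ℂ] H) :
    cfc Real.sqrt (star x * x) * cfc Real.sqrt (star x * x) = star x * x := by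
  rw [← cfc_mul _ _ _ (by fun_prop) (by fun_prop)]
  conv_rhs => rw [← cfc_id' ℝ (star x * x) (sa x)]
  exact cfc_congr fun t ht => Real.mul_self_sqrt (spec_nonneg x ht)

theorem abs_sa (x : H →L[ℂ] H) : star (cfc Real.sqrt (star x * x)) = cfc Real.sqrt (star x * x) :=
  (IsSelfAdjoint.cfc).star_eq

theorem apply_eq_zero {a : H →L[ℂ] H} {ξ : H} (h : (star a * a) ξ = 0) : a ξ = 0 := by
  have : ⟪a ξ, a ξ⟫_ℂ = 0 := by
    rw [← ContinuousLinearMap.adjoint_inner_right, ← ContinuousLinearMap.star_eq_adjoint]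
    change ⟪ξ, (star a * a) ξ⟫_ℂ = 0
    rw [h, inner_zero_right]
  exact inner_self_eq_zero.1 this

theorem ker_abs (x : H →L[ℂ] H) (ξ : H) : cfc Real.sqrt (star x * x) ξ = 0 ↔ x ξ = 0 := by
  constructor
  · intro h
    refine apply_eq_zero ?_
    rw [← abs_sq]
    simp [h]
  · intro h
    refine apply_eq_zero ?_
    rw [abs_sa, abs_sq]
    simp [h]

theorem v_ker (x : H →L[ℂ] H) {δ : ℝ} (hδ : 0 < δ) {ξ : H} (h : x ξ = 0) :
    (x * cfc (g δ) (star x * x)) ξ = 0 := by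
  have hg := g_cont hδ
  refine apply_eq_zero ?_
  rw [conj_eq x _ hg]
  have e : cfc (fun t => g δ t * t * g δ t) (star x * x) =
      cfc (fun t => g δ t * g δ t) (star x * x) * (star x * x) := by
    conv_rhs => rw [← cfc_id' ℝ (star x * x) (sa x)]
    rw [cfc_id' ℝ (star x * x) (sa x)]
    nth_rewrite 3 [← cfc_id' ℝ (star x * x) (sa x)]
    rw [← cfc_mul _ _ _ (by fun_prop) (by fun_prop)]
    exact cfc_congr fun t _ => by ring
  rw [e]
  simp [h]

theorem tend {a : ℕ → H →L[ℂ] H} {b : H →L[ℂ] H}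
    (h : ∀ n : ℕ, ‖a n - b‖ ≤ √(1 / ((n : ℝ) + 1))) : SLim atTop a b := by
  intro ξ
  have h0 : Tendsto (fun n : ℕ => √(1 / ((n : ℝ) + 1))) atTop (𝓝 0) := by
    have := (tendsto_one_div_add_atTop_nhds_zero_nat (𝕜 := ℝ)).sqrt
    rwa [Real.sqrt_zero] at this
  rw [tendsto_iff_norm_sub_tendsto_zero]
  refine squeeze_zero (fun _ => norm_nonneg _) (fun n => ?_)
    (by simpa using h0.mul_const ‖ξ‖)
  have := (a n - b).le_of_opNorm_le (h n) ξ
  simpa using this

end Pol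

open Pol in
theorem IsVN.polar (hM : IsVN M) {x : H →L[ℂ] H} (hx : x ∈ M) :
    ∃ v ∈ M, star v * v = lp (star x) ∧ v * star v = lp x ∧
      v * cfc Real.sqrt (star x * x) = x ∧ star v * x = cfc Real.sqrt (star x * x) := by
  set A := cfc Real.sqrt (star x * x) with hA
  have hδ : ∀ n : ℕ, (0 : ℝ) < 1 / ((n : ℝ) + 1) := fun n => by positivity
  let a : ℕ → H →L[ℂ] H := fun n => x * cfc (g (1 / ((n : ℝ) + 1))) (star x * x)
  have haM : ∀ n, a n ∈ M := fun n => mul_mem hx (hM.cfc_mem _ (mul_mem (star_mem hx) hx))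
  have haC : ∀ n, ‖a n‖ ≤ 1 := fun n => norm_v x (hδ n)
  have hs : ∀ n, star (a n) = cfc (g (1 / ((n : ℝ) + 1))) (star x * x) * star x := fun n => by
    simp only [a]; rw [star_mul, (IsSelfAdjoint.cfc).star_eq]
  have l1 : SLim atTop (fun n => a n * A) x := tend fun n => norm_d2 x (hδ n)
  have l2 : SLim atTop (fun n => star (a n) * x) A := tend fun n => by
    rw [hs, mul_assoc]; exact norm_d1 x (hδ n)
  have k1 : ∀ ξ ∈ (LinearMap.range (A : H →ₗ[ℂ] H))ᗮ, x ξ = 0 := fun ξ hξ => by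
    rw [mem_range_orth, abs_sa] at hξ
    exact (ker_abs x ξ).1 hξ
  have z1 : ∀ ξ, x ξ = 0 → ∀ n, a n ξ = 0 := fun ξ h n => v_ker x (hδ n) h
  have z2 : ∀ ξ, star x ξ = 0 → ∀ n, star (a n) ξ = 0 := fun ξ h n => by rw [hs]; simp [h]
  obtain ⟨v, hv⟩ := exists_slim (l := atTop) haC (LinearMap.range (A : H →ₗ[ℂ] H))
    (by rintro _ ⟨η, rfl⟩; exact ⟨_, l1 η⟩)
    (fun ξ hξ => ⟨0, by simp [z1 ξ (k1 ξ hξ)]⟩)
  obtain ⟨w, hw⟩ := exists_slim (l := atTop) (a := fun n => star (a n)) (C := 1)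
    (fun n => by rw [norm_star]; exact haC n) (LinearMap.range (x : H →ₗ[ℂ] H))
    (by rintro _ ⟨η, rfl⟩; exact ⟨_, l2 η⟩)
    (fun ξ hξ => ⟨0, by simp [z2 ξ (mem_range_orth.1 hξ)]⟩)
  obtain rfl := hv.star_eq hw
  have e1 : v * A = x := (hv.mul_const A).unique l1
  have e2 : star v * x = A := (hw.mul_const x).unique l2
  have y1 : ∀ ξ, x ξ = 0 → v ξ = 0 := fun ξ h =>
    tendsto_nhds_unique (hv ξ) (by simp [z1 ξ h])
  have y2 : ∀ ξ, star x ξ = 0 → star v ξ = 0 := fun ξ h =>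
    tendsto_nhds_unique (hw ξ) (by simp [z2 ξ h])
  refine ⟨v, hM.mem_of_slim haM haC hv hw, ?_, ?_, e1, e2⟩
  · have e3 : star x = A * star v := by rw [← e1, star_mul, abs_sa]
    have e4 : star v * v = pr (LinearMap.range (A : H →ₗ[ℂ] H)) := by
      refine eq_pr ?_ fun ξ hξ => by simp [y1 ξ (k1 ξ hξ)]
      rintro _ ⟨η, rfl⟩
      have := DFunLike.congr_fun (show star v * v * A = A by rw [mul_assoc, e1, e2]) η
      simpa using this
    refine eq_pr ?_ fun ξ hξ => ?_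
    · rintro _ ⟨η, rfl⟩
      rw [e4]
      refine pr_of_mem ⟨star v η, ?_⟩
      rw [e3]; simp
    · rw [mem_range_orth, star_star] at hξ
      simp [y1 ξ hξ]
  · refine eq_pr ?_ fun ξ hξ => by simp [y2 ξ (mem_range_orth.1 hξ)]
    rintro _ ⟨η, rfl⟩
    have := DFunLike.congr_fun (show v * star v * x = x by rw [mul_assoc, e2, e1]) η
    simpa using this

theorem IsVN.lp_pj (hM : IsVN M) {x : H →L[ℂ] H} (hx : x ∈ M) : Pj M (lp x) := by
  obtain ⟨v, hv, -, h, -⟩ := hM.polar hx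
  exact ⟨h ▸ mul_mem hv (star_mem hv), lp_proj x⟩

theorem IsVN.lp_eqv (hM : IsVN M) {x : H →L[ℂ] H} (hx : x ∈ M) : Eqv M (lp (star x)) (lp x) := by
  obtain ⟨v, hv, h1, h2, -⟩ := hM.polar hx
  exact ⟨v, hv, h1, h2⟩

/-- (POL) the polar part of a nonzero element -/
theorem IsVN.pol (hM : IsVN M) {x : H →L[ℂ] H} (hx : x ∈ M) (h0 : x ≠ 0) :
    ∃ v ∈ M, v ≠ 0 ∧ v * star v * v = v ∧ (∀ y : H →L[ℂ] H, y * x = 0 → y * v = 0) ∧
      ∀ y : H →L[ℂ] H, x * y = 0 → v * y = 0 := by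
  obtain ⟨v, hv, h1, h2, h3, -⟩ := hM.polar hx
  have pv : PI v := PI.of_fin (h2 ▸ lp_proj x)
  refine ⟨v, hv, ?_, pv, fun y hy => ?_, fun y hy => ?_⟩
  · rintro rfl
    exact h0 (by rw [← h3, zero_mul])
  · rw [← pv.fin_mul, h2, ← mul_assoc, mul_lp_eq_zero hy, zero_mul]
  · have e : star y * lp (star x) = 0 := mul_lp_eq_zero (by rw [← star_mul, hy, star_zero])
    have e' : lp (star x) * y = 0 := by
      have := congrArg star e
      rwa [star_mul, star_star, (lp_proj _).isSelfAdjoint.star_eq, star_zero] at this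
    rw [← pv.mul_init, h1, mul_assoc, e', mul_zero]

/-- (J) -/
theorem IsVN.join (hM : IsVN M) {p q : H →L[ℂ] H} (hp : Pj M p) (hq : Pj M q) :
    ∃ r, Pj M r ∧ r * p = p ∧ r * q = q ∧ Sub M (r - p) q ∧
      ∀ y : H →L[ℂ] H, y * p = 0 → y * q = 0 → y * r = 0 := by
  have hx : (1 - p) * q ∈ M := mul_mem hp.one_sub.1 hq.1
  have he := hM.lp_pj hx
  have h0 : p * lp ((1 - p) * q) = 0 :=
    mul_lp_eq_zero (by rw [← mul_assoc, hp.2.mul_one_sub_self, zero_mul])
  have h0' := he.flip_zero hp h0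
  refine ⟨p + lp ((1 - p) * q), hp.add he h0, ?_, ?_, ?_, fun y h1 h2 => ?_⟩
  · rw [add_mul, hp.idem, h0', add_zero]
  · have e := lp_mul ((1 - p) * q)
    rw [← mul_assoc, mul_sub, mul_one, h0', sub_zero] at e
    rw [add_mul, e, sub_mul, one_mul]; abel
  · rw [add_sub_cancel_left]
    refine ((hM.lp_eqv hx).symm.sub he).trans (Sub.of_le (hM.lp_pj (star_mem hx)) ?_)
    refine mul_lp_of_mul ?_
    rw [star_mul, hq.star_eq, ← mul_assoc, hq.idem]
  · rw [mul_add, h1, zero_add]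
    exact mul_lp_eq_zero (by rw [← mul_assoc, mul_sub, mul_one, h1, sub_zero, h2])

end Pool.Agent.Lib.MP_08bba9_an.W
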