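import Pool.Agent.Lib.MP_08bba9_an.K.KP
import Pool.Agent.Lib.MP_08bba9_an.W.Part

/-! What the projection layer delivers for an abstract unital C*-algebra. -/

noncomputable section

namespace Pool.Agent.Lib.MP_08bba9_an.W

open K

/-- Range projections, and the splitting into a finite and a properly infinite part. -/
structure WA (M : Type*) [CStarAlgebra M] : Prop where
  rk : RK M
  split : ∃ zf : M, IsStarProjection zf ∧ (∀ x, zf * x = x * zf) ∧ PInf (1 - zf) ∧
    ∀ U : Set M, IsUltra U → zf ∈ U → ∃ τ : M →L[ℂ] ℂ, Hyp U τ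

end Pool.Agent.Lib.MP_08bba9_an.W
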